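import Pool.Agent.H462.N9.Phi3
import Pool.Agent.H462.CTU.Chr

/-!
# The cubic character modulo nine
-/

set_option autoImplicit false
set_option linter.unusedSectionVars false

open Filter
open scoped Topology PeriodPair

namespace Pool.Agent.H462.N9.Chr

open Pool.Agent.Y692.QS (Ei w nr toC)
open H667R3 Pool.Agent.W192.HK Pool.Agent.TH936.CM
open Pool.Agent.TH936.PU hiding v_int
open Pool.Agent.Y715.Dist Pool.Agent.Y715.Idn Pool.Agent.Y715.T.Lat Pool.Agent.Y696
open Pool.Agent.Y715.T.Rs (eq0)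
open Pool.Agent.Y715.T.LF (rd rd_ez rd_eq_zero)
open Pool.Agent.Y715.T.Three Pool.Agent.Y715.T.Cg
open Pool.Agent.Y703.CT.Ana (ej eo_j ej_u ej_ncop ej_prim)
open Pool.Agent.Y703.CT (toC_w_add)
open Pool.Agent.H462.CTU.Phi
open Pool.Agent.H462.CTU.Chr (eq0_ez symm_ez three_sum cop_of_sub)
open Pool.Agent.H462.N9.Phi

variable {L : PeriodPair} {Ω : ℂ}

/-! ### the exponent -/

/-- the exponent of the character: for `α = u (1 + 3 (m + n ω))`, `u` a unit, this is `n` -/
def nn (α : Ei) : ZMod 3 :=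
  (((α.re + α.im) * (α.re * α.im * (α.re - α.im) / 3) : ℤ) : ZMod 3)

lemma nn_of {α : Ei} {K : ℤ} (h : α.re * α.im * (α.re - α.im) = 3 * K) :
    nn α = (((α.re + α.im) * K : ℤ) : ZMod 3) := by
  unfold nn
  rw [h, Int.mul_ediv_cancel_left _ (by norm_num)]

lemma cast_eq {a b : ℤ} (h : (3 : ℤ) ∣ a - b) : (a : ZMod 3) = b := by
  rw [← sub_eq_zero, ← Int.cast_sub, ZMod.intCast_zmod_eq_zero_iff_dvd]
  exact_mod_cast h

lemma unit_list' {u : Ei} (hu : IsUnit u) :
    u = 1 ∨ u = -1 ∨ u = w ∨ u = -w ∨ u = w ^ 2 ∨ u = -w ^ 2 := by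
  obtain ⟨ε, n, hε, rfl⟩ := Pool.Agent.Y715.T.Thr.unit_cases hu
  have h3 : ∀ m : ZMod 3, m.val = 0 ∨ m.val = 1 ∨ m.val = 2 := by decide
  rcases hε with rfl | rfl <;> rcases h3 n with h | h | h <;> rw [h] <;> simp

/-- the value -/
lemma nn_up {u : Ei} (hu : IsUnit u) (t : Ei) : nn (u * (1 + 3 * t)) = (t.im : ZMod 3) := by
  obtain ⟨m, n⟩ := t
  have e0 : (1 : Ei) + 3 * ⟨m, n⟩ = ⟨1 + 3 * m, 3 * n⟩ := by
    have h3 : (3 : Ei) = ⟨3, 0⟩ := rfl
    have h1 : (1 : Ei) = ⟨1, 0⟩ := rfl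
    rw [h3, h1]
    ext
    · simp
    · simp
  rw [e0]
  show _ = ((n : ℤ) : ZMod 3)
  have key : ∀ (A B : ℤ), A * B * (A - B) = 3 * (n * (1 + 3 * m) * (1 + 3 * m - 3 * n)) →
      (3 : ℤ) ∣ A + B - 1 → nn (⟨A, B⟩ : Ei) = ((n : ℤ) : ZMod 3) := by
    intro A B h1 h2
    rw [nn_of (α := ⟨A, B⟩) h1]
    apply cast_eq
    obtain ⟨c, hc⟩ := h2
    have e1 : A + B = 1 + 3 * c := by linarith
    show (3 : ℤ) ∣ (A + B) * (n * (1 + 3 * m) * (1 + 3 * m - 3 * n)) - n
    rw [e1]
    exact ⟨n * m + n * (1 + 3 * m) * (m - n) + c * (n * (1 + 3 * m) * (1 + 3 * m - 3 * n)), by ring⟩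
  have key' : ∀ (A B : ℤ), A * B * (A - B) = -(3 * (n * (1 + 3 * m) * (1 + 3 * m - 3 * n))) →
      (3 : ℤ) ∣ A + B + 1 → nn (⟨A, B⟩ : Ei) = ((n : ℤ) : ZMod 3) := by
    intro A B h1 h2
    rw [nn_of (α := ⟨A, B⟩) (K := -(n * (1 + 3 * m) * (1 + 3 * m - 3 * n)))
      (by rw [mul_neg]; exact h1)]
    apply cast_eq
    obtain ⟨c, hc⟩ := h2
    have e1 : A + B = -1 + 3 * c := by linarith
    show (3 : ℤ) ∣ (A + B) * -(n * (1 + 3 * m) * (1 + 3 * m - 3 * n)) - n
    rw [e1]
    exact ⟨n * m + n * (1 + 3 * m) * (m - n) - c * (n * (1 + 3 * m) * (1 + 3 * m - 3 * n)), by ring⟩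
  have hw : (w : Ei) = ⟨0, 1⟩ := rfl
  have hw2 : (w : Ei) ^ 2 = ⟨-1, -1⟩ := by decide
  rcases unit_list' hu with rfl | rfl | rfl | rfl | rfl | rfl
  · rw [one_mul]
    exact key _ _ (by ring) ⟨m + n, by ring⟩
  · have e1 : (-1 : Ei) * ⟨1 + 3 * m, 3 * n⟩ = ⟨-(1 + 3 * m), -(3 * n)⟩ := by
      rw [neg_one_mul]
      rfl
    rw [e1]
    exact key' _ _ (by ring) ⟨-m - n, by ring⟩
  · have e1 : (w : Ei) * ⟨1 + 3 * m, 3 * n⟩ = ⟨-(3 * n), 1 + 3 * m - 3 * n⟩ := by
      rw [hw]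
      ext
      · rw [Pool.Agent.Y692.QS.mul_re]; ring
      · rw [Pool.Agent.Y692.QS.mul_im]; ring
    rw [e1]
    exact key _ _ (by ring) ⟨m - 2 * n, by ring⟩
  · have e1 : -(w : Ei) * ⟨1 + 3 * m, 3 * n⟩ = ⟨3 * n, -(1 + 3 * m - 3 * n)⟩ := by
      rw [neg_mul, hw]
      ext
      · rw [QuadraticAlgebra.re_neg, Pool.Agent.Y692.QS.mul_re]; ring
      · rw [QuadraticAlgebra.im_neg, Pool.Agent.Y692.QS.mul_im]; ring
    rw [e1]
    exact key' _ _ (by ring) ⟨-m + 2 * n, by ring⟩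
  · have e1 : (w : Ei) ^ 2 * ⟨1 + 3 * m, 3 * n⟩ = ⟨3 * n - 1 - 3 * m, -1 - 3 * m⟩ := by
      rw [hw2]
      ext
      · rw [Pool.Agent.Y692.QS.mul_re]; ring
      · rw [Pool.Agent.Y692.QS.mul_im]; ring
    rw [e1]
    exact key _ _ (by ring) ⟨n - 2 * m - 1, by ring⟩
  · have e1 : -(w : Ei) ^ 2 * ⟨1 + 3 * m, 3 * n⟩ = ⟨-(3 * n - 1 - 3 * m), 1 + 3 * m⟩ := by
      rw [neg_mul, hw2]
      ext
      · rw [QuadraticAlgebra.re_neg, Pool.Agent.Y692.QS.mul_re]; ring
      · rw [QuadraticAlgebra.im_neg, Pool.Agent.Y692.QS.mul_im]; ring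
    rw [e1]
    exact key' _ _ (by ring) ⟨-n + 2 * m + 1, by ring⟩

lemma nn_unit {u : Ei} (hu : IsUnit u) : nn u = 0 := by
  have h := nn_up hu 0
  rw [mul_zero, add_zero, mul_one] at h
  rw [h]
  rfl

lemma im_add (s t : Ei) : ((s + t).im : ZMod 3) = (s.im : ZMod 3) + t.im := by
  rw [QuadraticAlgebra.im_add]
  push_cast
  rfl

lemma im_three (s : Ei) : ((3 * s).im : ZMod 3) = 0 := by
  have h3 : (3 : Ei) = ⟨3, 0⟩ := rfl
  rw [h3, Pool.Agent.Y692.QS.mul_im]
  push_cast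
  have h4 : (3 : ZMod 3) = 0 := by decide
  rw [h4]
  ring

/-- elements prime to three -/
def C3 (x : Ei) : Prop := ∃ u t : Ei, IsUnit u ∧ x = u * (1 + 3 * t)

lemma nn_mul {x y : Ei} (hx : C3 x) (hy : C3 y) : nn (x * y) = nn x + nn y := by
  obtain ⟨u, t, hu, rfl⟩ := hx
  obtain ⟨v, s, hv, rfl⟩ := hy
  have e : u * (1 + 3 * t) * (v * (1 + 3 * s)) = (u * v) * (1 + 3 * (t + s + 3 * (t * s))) := by
    ring
  rw [e, nn_up (hu.mul hv), nn_up hu, nn_up hv, im_add, im_add, im_three, add_zero]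

lemma C3_mul {x y : Ei} (hx : C3 x) (hy : C3 y) : C3 (x * y) := by
  obtain ⟨u, t, hu, rfl⟩ := hx
  obtain ⟨v, s, hv, rfl⟩ := hy
  exact ⟨u * v, t + s + 3 * (t * s), hu.mul hv, by ring⟩

lemma C3_prim {x : Ei} (h : (3 : Ei) ∣ x - 1) : C3 x := by
  obtain ⟨t, ht⟩ := h
  exact ⟨1, t, isUnit_one, by linear_combination ht⟩

lemma C3_unit {u : Ei} (hu : IsUnit u) : C3 u := ⟨u, 0, hu, by ring⟩

lemma nn_per {x y : Ei} (hx : C3 x) (h : (9 : Ei) ∣ x - y) : nn x = nn y := by
  obtain ⟨u, t, hu, rfl⟩ := hx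
  obtain ⟨s, hs⟩ := h
  obtain ⟨v, hv⟩ := hu.exists_right_inv
  have e : y = u * (1 + 3 * (t + 3 * (-(v * s)))) := by
    linear_combination -hs + (9 * s) * hv
  rw [e, nn_up hu, nn_up hu, im_add, im_three, add_zero]

lemma nn_neg {x : Ei} (hx : C3 x) : nn (-x) = nn x := by
  have h := nn_mul (C3_unit (u := -1) isUnit_one.neg) hx
  rwa [neg_one_mul, nn_unit isUnit_one.neg, zero_add] at h

/-! ### the characters -/

/-- the modulus -/
noncomputable def f9 : eis := 3 * 3

lemma f9_coe : ((f9 : eis) : ℂ) = 9 := by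
  unfold f9
  push_cast
  have e3 : ((3 : eis) : ℂ) = 3 := rfl
  rw [e3]
  norm_num

lemma f9_ne : f9 ≠ 0 := mul_ne_zero Pool.Agent.Y696.three_ne Pool.Agent.Y696.three_ne

lemma cop_f9 {c : eis} : IsCoprime f9 c ↔ IsCoprime (3 : eis) c := by
  unfold f9
  rw [IsCoprime.mul_left_iff]
  tauto

lemma C3_cop {x : eis} (h : IsCoprime x 3) : C3 (eq0.symm x) := by
  obtain ⟨u, hu, hx⟩ := cop_three h
  obtain ⟨t, ht⟩ := Ideal.mem_span_singleton'.1 hx
  obtain ⟨v, hv⟩ := hu.exists_right_inv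
  refine ⟨eq0.symm u, eq0.symm (v * t), hu.map _, ?_⟩
  have e : x = u * (1 + 3 * (v * t)) := by linear_combination -ht - (3 * t) * hv
  conv_lhs => rw [e]
  rw [map_mul, map_add, map_mul, map_one, map_ofNat]

/-- the cubic character modulo nine -/
noncomputable def c9 (x : eis) : ℂ := toC w ^ (nn (eq0.symm x)).val

/-- the odd characters -/
noncomputable def e9 (j : Fin 3) (x : eis) : ℂ := ej j x * c9 x

lemma c9_norm (x : eis) : ‖c9 x‖ = 1 := by
  unfold c9
  rw [norm_pow]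
  have h1 : ‖toC w‖ = 1 :=
    Complex.norm_eq_one_of_pow_eq_one Pool.Agent.Y715.T.Fin.toC_w_cube (by norm_num)
  rw [h1, one_pow]

lemma c9_ne (x : eis) : c9 x ≠ 0 := by
  intro h0
  have := c9_norm x
  rw [h0, norm_zero] at this
  exact zero_ne_one this

lemma c9_cop_mul {x y : eis} (hx : IsCoprime x 3) (hy : IsCoprime y 3) :
    c9 (x * y) = c9 x * c9 y := by
  unfold c9
  rw [← toC_w_add, map_mul, nn_mul (C3_cop hx) (C3_cop hy)]

lemma c9_per {x y : eis} (hx : IsCoprime x 3) (h : x - y ∈ (sp f9 : Ideal eis)) :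
    c9 x = c9 y := by
  unfold c9
  rw [nn_per (C3_cop hx) (y := eq0.symm y)]
  obtain ⟨t, ht⟩ := Ideal.mem_span_singleton'.1 h
  refine ⟨eq0.symm t, ?_⟩
  have e : x - y = 9 * t := by
    unfold f9 at ht
    linear_combination -ht
  rw [← map_sub, e, map_mul, map_ofNat]

lemma c9_unit {u : eis} (hu : IsUnit u) : c9 u = 1 := by
  unfold c9
  rw [nn_unit (hu.map eq0.symm), ZMod.val_zero, pow_zero]

lemma c9_neg {x : eis} (hx : IsCoprime x 3) : c9 (-x) = c9 x := by
  unfold c9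
  rw [map_neg, nn_neg (C3_cop hx)]

lemma sp_f9_three {x : eis} (h : x ∈ (sp f9 : Ideal eis)) : x ∈ (sp 3 : Ideal eis) := sp_mul_le h

lemma eo_9 (j : Fin 3) : Eo f9 (e9 j) := by
  refine ⟨fun x y hxy => ?_, fun x y => ?_, fun x => ?_, fun x => ?_⟩
  · have h3 := sp_f9_three hxy
    unfold e9
    rw [(eo_j j).per x y h3]
    by_cases hx : IsCoprime x 3
    · rw [c9_per hx hxy]
    · rw [ej_ncop j (fun hy => hx (cop_of_sub (by rw [← neg_mem_iff, neg_sub]; exact h3) hy)),
        zero_mul, zero_mul]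
  · unfold e9
    rw [(eo_j j).mul]
    by_cases hx : IsCoprime x 3
    · by_cases hy : IsCoprime y 3
      · rw [c9_cop_mul hx hy]
        ring
      · rw [ej_ncop j hy]
        ring
    · rw [ej_ncop j hx]
      ring
  · unfold e9
    rw [(eo_j j).neg]
    by_cases hx : IsCoprime x 3
    · rw [c9_neg hx]
      ring
    · rw [ej_ncop j hx]
      ring
  · unfold e9
    rw [norm_mul, c9_norm, mul_one]
    exact (eo_j j).bd x

lemma e9_ncop (j : Fin 3) {x : eis} (hx : ¬ IsCoprime x 3) : e9 j x = 0 := by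
  unfold e9
  rw [ej_ncop j hx, zero_mul]

lemma e9_prim (j : Fin 3) {x : eis} (h : x - 1 ∈ (sp 3 : Ideal eis)) :
    e9 j x = c9 x := by
  unfold e9
  rw [ej_prim j h, one_mul]

/-! ### the sum over the fifty-four residues -/

open Classical in
lemma rp_congr {R : Subring ℂ} {q q' : R} (h : sp q = sp q') : rp q = rp q' := by
  have key : ∀ I J : Ideal R, I = J →
      (if h : Finite (R ⧸ I) then
        ((@Finset.univ _ (@Fintype.ofFinite _ h)).image fun z => z.out) else ∅) =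
      (if h : Finite (R ⧸ J) then
        ((@Finset.univ _ (@Fintype.ofFinite _ h)).image fun z => z.out) else ∅) := by
    rintro I _ rfl
    rfl
  exact key _ _ h

/-- the residues `u (1 + 3 (a + b √-3))` with fixed `a` -/
noncomputable def tr (F : eis → ℂ) (u a : eis) : ℂ :=
  F (u * (1 + 3 * a)) + F (u * (1 + 3 * (a - la))) + F (u * (1 + 3 * (a + la)))

/-- the values at the nine primary residues times a unit -/
noncomputable def nona (F : eis → ℂ) (u : eis) : ℂ := tr F u 0 + tr F u 1 + tr F u (-1)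

theorem nine_sum {H : eis → ℂ}
    (hH : ∀ x y : eis, x - y ∈ (sp 3 : Ideal eis) → H x = H y) :
    Sm 3 H = (H 0 + H (-la) + H la) + (H 1 + H (1 - la) + H (1 + la)) +
      (H (-1) + H (-1 - la) + H (-1 + la)) := by
  have hfin := Pool.Agent.Y715.T.LF.fin_quot
  have hla := Pool.Agent.Y715.CT.Hec.la_ne
  have : Finite (eis ⧸ (sp la : Ideal eis)) := hfin _ hla
  have : Fintype (eis ⧸ (sp la : Ideal eis)) := Fintype.ofFinite _
  have hsp : (sp (3 : eis) : Ideal eis) = sp (la * la) := by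
    rw [la_sq]
    exact (Ideal.span_singleton_neg (3 : eis)).symm
  have h0 : Sm 3 H = Sm (la * la) H := by
    unfold Sm
    rw [rp_congr hsp]
  rw [h0, Sm_mul hla hfin hla (F := H) (by rw [← hsp]; exact hH), Sm_eq]
  have hin : ∀ x : eis, Sm la (fun t => H (x + la * t)) = H x + H (x + la) + H (x - la) := by
    intro x
    rw [Sm_eq, three_sum (H := fun t => H (x + la * t))]
    · rw [mul_zero, add_zero, mul_one, mul_neg_one, ← sub_eq_add_neg]
    · intro s t hst
      refine hH _ _ ?_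
      obtain ⟨r, hr⟩ := Ideal.mem_span_singleton'.1 hst
      rw [hsp, Ideal.mem_span_singleton']
      exact ⟨r, by linear_combination la * hr⟩
  simp only [hin]
  rw [three_sum (H := fun x => H x + H (x + la) + H (x - la))]
  · rw [zero_add, zero_sub]
    ring
  · intro x y hxy
    obtain ⟨r, hr⟩ := Ideal.mem_span_singleton'.1 hxy
    have hs3 : ∀ p q : eis, p - q = r * la → (H p + H (p + la) + H (p - la)) =
        H q + H (q + la) + H (q - la) := by
      intro p q hpq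
      have h3 : rd r = 0 ∨ rd r = 1 ∨ rd r = -1 := by
        generalize rd r = s
        revert s
        decide
      have key : ∀ a b : eis, (∃ s : eis, a - b = la * la * s) → H a = H b := by
        rintro a b ⟨s, hs⟩
        refine hH _ _ ?_
        rw [hsp, Ideal.mem_span_singleton']
        exact ⟨s, by linear_combination -hs⟩
      rcases h3 with h3 | h3 | h3
      · obtain ⟨t, ht⟩ := rd_eq_zero h3
        rw [key p q ⟨t, by linear_combination hpq + la * ht⟩,
          key (p + la) (q + la) ⟨t, by linear_combination hpq + la * ht⟩,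
          key (p - la) (q - la) ⟨t, by linear_combination hpq + la * ht⟩]
      · obtain ⟨t, ht⟩ := rd_eq_zero (r := r - 1) (by rw [map_sub, h3, map_one, sub_self])
        have hl3 := la_sq
        rw [key p (q + la) ⟨t, by linear_combination hpq + la * ht⟩,
          key (p + la) (q - la) ⟨t - la, by
            linear_combination hpq + la * ht + la * hl3⟩,
          key (p - la) q ⟨t, by linear_combination hpq + la * ht⟩]
        ring
      · obtain ⟨t, ht⟩ := rd_eq_zero (r := r + 1) (by rw [map_add, h3, map_one]; decide)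
        have hl3 := la_sq
        rw [key p (q - la) ⟨t, by linear_combination hpq + la * ht⟩,
          key (p + la) q ⟨t, by linear_combination hpq + la * ht⟩,
          key (p - la) (q + la) ⟨t + la, by
            linear_combination hpq + la * ht - la * hl3⟩]
        ring
    exact hs3 x y hr.symm

theorem fifty_four [Fintype (eis ⧸ (sp f9 : Ideal eis))] {F : eis → ℂ}
    (hF0 : ∀ x, ¬ IsCoprime x 3 → F x = 0)
    (hper : ∀ x y : eis, x - y ∈ (sp f9 : Ideal eis) → F x = F y) :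
    ∑ y : eis ⧸ (sp f9 : Ideal eis), F y.out =
      nona F 1 + nona F (-1) + nona F omr + nona F (-omr) + nona F (omr ^ 2) +
        nona F (-omr ^ 2) := by
  have hfin := Pool.Agent.Y715.T.LF.fin_quot
  have : Finite (eis ⧸ (sp 3 : Ideal eis)) := hfin _ three_ne
  have : Fintype (eis ⧸ (sp 3 : Ideal eis)) := Fintype.ofFinite _
  rw [← Sm_eq]
  have h1 := Sm_mul (a := (3 : eis)) (c := (3 : eis)) three_ne hfin three_ne (F := F) hper
  have h1' : Sm f9 F = Sm 3 (fun x => Sm 3 fun t => F (x + 3 * t)) := h1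
  rw [h1', Sm_eq, six_sum (fun x => Sm 3 fun t => F (x + 3 * t))]
  · have key : ∀ u : eis, IsUnit u → Sm 3 (fun t => F (u + 3 * t)) = nona F u := by
      intro u hu
      have hcop : IsCoprime 3 u := by
        obtain ⟨b, hb⟩ := hu.exists_left_inv
        exact ⟨0, b, by rw [hb]; ring⟩
      have hH : ∀ x y : eis, x - y ∈ (sp 3 : Ideal eis) → F (u + 3 * x) = F (u + 3 * y) := by
        intro x y hxy
        refine hper _ _ ?_
        obtain ⟨t, ht⟩ := Ideal.mem_span_singleton'.1 hxy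
        rw [Ideal.mem_span_singleton']
        exact ⟨t, by unfold f9; linear_combination 3 * ht⟩
      have h2 := nine_sum (H := fun t => F (u + 3 * (u * t))) (by
        intro x y hxy
        refine hH _ _ ?_
        rw [← mul_sub]
        exact Ideal.mul_mem_left _ _ hxy)
      rw [Sm_eq] at h2
      rw [Sm_eq, ← sum_mul_bij hcop (F := fun t => F (u + 3 * t)) hH, h2]
      unfold nona tr
      have e : ∀ t : eis, F (u + 3 * (u * t)) = F (u * (1 + 3 * t)) := fun t => by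
        congr 1
        ring
      simp only [e, zero_sub, zero_add]
    have hu : ∀ v ∈ ({1, -1, omr, -omr, omr ^ 2, -omr ^ 2} : Set eis), IsUnit v := fun v hv =>
      (unit_list v).2 hv
    rw [key 1 (hu _ (by simp)), key (-1) (hu _ (by simp)), key omr (hu _ (by simp)),
      key (-omr) (hu _ (by simp)), key (omr ^ 2) (hu _ (by simp)), key (-omr ^ 2) (hu _ (by simp))]
  · intro x hx
    refine Finset.sum_eq_zero fun t _ => hF0 _ fun h => hx ?_
    refine cop_of_sub (x := x + 3 * t) ?_ h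
    rw [add_sub_cancel_left]
    exact Ideal.mul_mem_right _ _ (Ideal.mem_span_singleton_self _)
  · intro x y hxy
    obtain ⟨s, hs⟩ := Ideal.mem_span_singleton'.1 hxy
    have e : (fun t : eis => F (x + 3 * t)) = fun t => F (y + 3 * (s + t)) := by
      funext t
      congr 1
      linear_combination -hs
    rw [e]
    refine Sm_shift (hfin _ three_ne) s (F := fun t => F (y + 3 * t)) fun a b hab => hper _ _ ?_
    obtain ⟨t, ht⟩ := Ideal.mem_span_singleton'.1 hab
    rw [Ideal.mem_span_singleton']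
    exact ⟨t, by unfold f9; linear_combination 3 * ht⟩

end Pool.Agent.H462.N9.Chr
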