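import Pool.Agent.H462.N9.Val
import Pool.Agent.H462.CTU.Main

/-!
# The nonvanishing of the central value
-/

set_option autoImplicit false
set_option linter.unusedSectionVars false

open Filter
open scoped Classical Topology PeriodPair

namespace Pool.Agent.H462.N9.Main

open Pool.Agent.Y692.QS (Ei w nr toC)
open Pool.Agent.Y703.CT
open Pool.Agent.W192.HK Pool.Agent.TH936.CM Pool.Agent.TH936.PU
open Pool.Agent.Y715.Dist Pool.Agent.Y715.Idn Pool.Agent.Y696
open Pool.Agent.Y715.T.Rec (cs)
open Pool.Agent.Y715.T.RecG (Pq)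
open Pool.Agent.Y715.T.Three (lam lam_ne')
open Pool.Agent.H462.N9.Phi Pool.Agent.H462.N9.Chr Pool.Agent.H462.N9.Hec Pool.Agent.H462.N9.Val
open Pool.Agent.H462.CTU.Eng (G gd)

variable {J : Type} [Fintype J] {π : J → Ei} {e : J → ZMod 3}

/-- the kernel of the Laplacian with the additional node `none` for the element `3` is as small as
possible -/
def Ker9 (π : J → Ei) (e : J → ZMod 3) : Prop :=
  ∀ v : Option J → ZMod 3,
    (∀ i, nn (π i) * (v (some i) - v none) +
      ∑ j, e j * cs (π j) (π i) * (v (some i) - v (some j)) = 0) → ∀ i, v (some i) = v none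

/-! ### all the generators of the lattice -/

/-- a unit multiple of the generator -/
lemma cur_unit {L : PeriodPair} {Ω : ℂ} (hC : Cur L Ω) {u : eis} (hu : IsUnit u) :
    Cur L (u * Ω) := by
  refine ⟨⟨mul_ne_zero (coe_ne hu.ne_zero) hC.lat.ne, fun z => ?_⟩, hC.g2, hC.g3⟩
  rw [hC.lat.mem]
  obtain ⟨v, hv⟩ := hu.exists_right_inv
  have hv' : (u : ℂ) * v = 1 := by
    have := congrArg (fun t : eis => (t : ℂ)) hv
    push_cast at this
    exact this
  constructor
  · rintro ⟨r, rfl⟩
    refine ⟨v * r, ?_⟩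
    push_cast
    linear_combination (-(Ω * r)) * hv'
  · rintro ⟨r, rfl⟩
    refine ⟨u * r, ?_⟩
    push_cast
    ring

/-- the distinguished generator -/
lemma ex_cm {L : PeriodPair} {Ω : ℂ} (hC : Cur L Ω) : ∃ u : ℂ, u ^ 3 = 1 ∧ Cm L (u * Ω) := by
  have h1 := hC.x0
  have h3 := om_cube
  have hs := om_sq
  have hu := omr_unit
  have hw := Pool.Agent.Y696.wp_unit hC.lat hu (Ω / 3)
  have hw2 := Pool.Agent.Y696.wp_unit hC.lat (hu.pow 2) (Ω / 3)
  push_cast at hw2
  rw [omr_coe] at hw hw2
  have h0 := om_ne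
  have hx : (℘[L] (Ω / 3) + 1) * ((℘[L] (Ω / 3) + om) * (℘[L] (Ω / 3) + om ^ 2)) = 0 := by
    linear_combination h1 + (℘[L] (Ω / 3) ^ 2 + ℘[L] (Ω / 3) * om) * hs + h3
  have i1 : (om ^ 2)⁻¹ = om :=
    (eq_inv_of_mul_eq_one_left (by linear_combination om_cube)).symm
  have i3 : ((om ^ 2) ^ 2)⁻¹ = om ^ 2 :=
    (eq_inv_of_mul_eq_one_left (by linear_combination (om ^ 3 + 1) * om_cube)).symm
  rw [i1] at hw
  rw [i3] at hw2
  rcases mul_eq_zero.1 hx with h4 | h4
  · refine ⟨1, one_pow _, ?_⟩
    rw [one_mul]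
    exact ⟨hC, by linear_combination h4⟩
  · rcases mul_eq_zero.1 h4 with h4 | h4
    · refine ⟨om ^ 2, by linear_combination (om ^ 3 + 1) * h3, ?_⟩
      have hc := cur_unit hC (hu.pow 2)
      push_cast at hc
      rw [omr_coe] at hc
      refine ⟨hc, ?_⟩
      have e : om ^ 2 * Ω / 3 = om ^ 2 * (Ω / 3) := by ring
      rw [e, hw2]
      linear_combination om ^ 2 * h4 - h3
    · refine ⟨om, h3, ?_⟩
      have hc := cur_unit hC hu
      rw [omr_coe] at hc
      refine ⟨hc, ?_⟩
      have e : om * Ω / 3 = om * (Ω / 3) := by ring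
      rw [e, hw]
      linear_combination om * h4 - h3

/-- the value is as large as possible -/
theorem an_main [Nonempty J] (hrec : S_REC) (h : Dt π e) (hK : Ker9 π e) :
    ∃ F : ℂ → ℂ, IsHL9 π (fun i => -e i) F ∧ F 1 ≠ 0 ∧
      ∀ (Γ : Type) [LinearOrderedCommGroupWithZero Γ] (v : Valuation ℂ Γ), v 3 < 1 →
        ∀ (L : PeriodPair) (Ω : ℂ), Cur L Ω →
          v ((starRingEnd ℂ) (F 1) / Ω) ^ 3 * v lam ^ 5 = v lam ^ (3 * Fintype.card J) := by
  have h' : Dt π (fun i => -e i) := ⟨h.pq, h.nd, fun j => neg_ne_zero.2 (h.e0 j)⟩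
  obtain ⟨F, hF, hval⟩ := an_val h' (fun i => -e i * lb π i)
  refine ⟨F, hF, ?_⟩
  have hD : G (am π (fun i => -e i)) (lb π) (fun i => -e i * lb π i) Finset.univ ≠ 0 := by
    unfold Pool.Agent.H462.CTU.Eng.G
    refine Pool.Agent.Y715.T.Comb.D_ne (ε := fun o => o.elim 1 (fun i => -e i)) ?_ ?_ ?_ ?_ ?_
    · exact ⟨none, by simp⟩
    · intro o _
      cases o with
      | none => exact one_ne_zero
      | some i => exact h'.e0 i
    · intro o _ o' _ hoo
      cases o with
      | none =>
        cases o' with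
        | none => exact absurd rfl hoo
        | some i => show (1 : ZMod 3) * (-e i * lb π i) = -e i * lb π i; rw [one_mul]
      | some i =>
        cases o' with
        | none => show -e i * lb π i = (1 : ZMod 3) * (-e i * lb π i); rw [one_mul]
        | some j =>
          show -e i * am π (fun i => -e i) i j = -e j * am π (fun i => -e i) j i
          have hij : i ≠ j := fun h0 => hoo (by rw [h0])
          unfold Pool.Agent.Y703.CT.am
          rw [hrec (π i) (π j) (h.pq i) (h.pq j) (h.nd i j hij)]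
          ring
    · intro v hv
      have h1 : ∀ i, v (some i) = v none := by
        apply hK v
        intro i
        have h2 := hv (some i) (by simp)
        rw [Finset.sum_insertNone] at h2
        rw [← h2]
        congr 1
        refine Finset.sum_congr rfl fun j _ => ?_
        show _ = am π (fun i => -e i) i j * _
        unfold Pool.Agent.Y703.CT.am
        ring
      intro o _ o' _
      cases o with
      | none =>
        cases o' with
        | none => rfl
        | some j => exact (h1 j).symm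
      | some i =>
        cases o' with
        | none => exact h1 i
        | some j => rw [h1 i, h1 j]
    · rw [Finset.sum_insertNone]
      have h1 : ∑ i : J, (fun o : Option J => o.elim (1 : ZMod 3) (fun i => -e i)) (some i) *
          gd J (some i) = 0 := by
        refine Finset.sum_eq_zero fun i _ => ?_
        show _ * (0 : ZMod 3) = 0
        rw [mul_zero]
      rw [h1, add_zero]
      show (1 : ZMod 3) * 1 ≠ 0
      decide
  have hmain : ∀ (Γ : Type) [LinearOrderedCommGroupWithZero Γ] (v : Valuation ℂ Γ), v 3 < 1 →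
        ∀ (L : PeriodPair) (Ω : ℂ), Cur L Ω →
          v ((starRingEnd ℂ) (F 1) / Ω) ^ 3 * v lam ^ 5 = v lam ^ (3 * Fintype.card J) := by
    intro Γ _ v hv L Ω hC
    obtain ⟨u, hu, hCm⟩ := ex_cm hC
    obtain ⟨s, hs1, hs2⟩ := hval Γ v hv L _ hCm
    have hvu : v u = 1 := Pool.Agent.Y715.T.Cg.z_pow three_pos hu
    have e1 : v ((starRingEnd ℂ) (F 1) / (u * Ω)) = v ((starRingEnd ℂ) (F 1) / Ω) := by
      rw [map_div₀, map_div₀, map_mul, hvu, one_mul]
    rw [e1, hs1.eq_one hv hD, one_pow, mul_one] at hs2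
    exact hs2
  refine ⟨?_, hmain⟩
  intro h0
  obtain ⟨B, hB⟩ := Pool.Agent.Y715.T.Fin.exists_over_three
  obtain ⟨θ, hθ, hL⟩ := Pool.Agent.Y696.exists_cur
  have h1 := hmain _ B.valuation hB _ _ hL
  rw [h0, map_zero, zero_div, map_zero, zero_pow three_ne_zero, zero_mul] at h1
  exact pow_ne_zero _ Pool.Agent.Y715.T.Three.lam_ne h1.symm

end Pool.Agent.H462.N9.Main
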