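import Pool.Agent.H462.N9.Sup
import Pool.Agent.H462.N9.Main

/-!
# The `L`-function of `y² + D y = x³` over `ℚ`, `D = ± 3 ∏ π_i^{e_i}`
-/

set_option autoImplicit false
set_option linter.unusedVariables false
set_option linter.unusedSectionVars false

namespace Pool.Agent.H462.N9.LQ

open IsDedekindDomain
open Pool.Agent.Y703.CT
open Pool.Agent.Y696.CT hiding chD_prime chD_bad factor
open Pool.Agent.Y692.QS hiding chi ns_unit
open Pool.Agent.Y715.T.Rec (exists_p cs)
open Pool.Agent.Y715.T.RecG (Pq)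
open Pool.Agent.H462.N9.Chr (nn nn_mul C3 C3_prim C3_mul)
open Pool.Agent.H462.N9.Sup (cs_three)
open Pool.Agent.H462.N9.Val (IsHL9)
open scoped Classical

variable {J : Type} [Fintype J] {π : J → Ei} {e : J → ZMod 3}

/-- `D = ± 3 ∏ π_i^{e_i}` -/
def D9 (π : J → Ei) (e : J → ZMod 3) (D : Ei) : Prop := D = 3 * pD π e ∨ D = -(3 * pD π e)

lemma D9.dvd {D : Ei} (h : D9 π e D) {ρ : Ei} : ρ ∣ D ↔ ρ ∣ 3 * pD π e := by
  rcases h with h | h
  · rw [h]
  · rw [h, dvd_neg]

lemma D9.cs_eq (hrec : S_REC) {D : Ei} (h : D9 π e D) (hdt : Dt π e) {ρ : Ei} (hρ : Pq ρ)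
    (hnd : ¬ ρ ∣ D) : cs ρ D = nn ρ + ∑ j, e j * cs ρ (π j) := by
  have h0 : ¬ ρ ∣ pD π e := fun h1 => hnd (h.dvd.2 (Dvd.dvd.mul_left h1 3))
  have h1 : ∀ j, ¬ ρ ∣ π j := fun j hj => h0 (by
    unfold pD
    exact dvd_trans (dvd_pow hj (e_val (hdt.e0 j))) (Finset.dvd_prod_of_mem _ (Finset.mem_univ j)))
  have h3 : ¬ ρ ∣ (3 : Ei) := hρ.norm
  have h4 : cs ρ D = cs ρ (3 * pD π e) := by
    rcases h with h | h
    · rw [h]
    · rw [h, Pool.Agent.Y715.T.RecG.cs_neg hρ.prime hρ.norm]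
      intro h5
      rcases hρ.prime.dvd_or_dvd h5 with h6 | h6
      · exact h3 h6
      · exact h0 h6
  rw [h4, Pool.Agent.Y715.T.RecG.cs_mul hρ.prime hρ.norm h3 h0, cs_three hrec hρ]
  congr 1
  unfold pD
  rw [Pool.Agent.Y715.T.RecG.cs_prod hρ.prime hρ.norm _ _ fun j _ h5 =>
    h1 j (hρ.prime.dvd_of_dvd_pow h5)]
  refine Finset.sum_congr rfl fun j _ => ?_
  rw [Pool.Agent.Y715.T.RecG.cs_pow hρ.prime hρ.norm (h1 j), ZMod.natCast_zmod_val]

/-- the character at a prime of good reduction -/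
lemma chD_prime9 (hrec : S_REC) (hdt : Dt π e) {D : Ei} (hD : D9 π e D) {ρ : Ei}
    (hρ : Pq ρ) (hnd : ¬ ρ ∣ D) :
    toC w ^ (-nn ρ).val * chD π (fun j => -e j) ρ = toC w ^ (-cs ρ D).val := by
  have h0 : ¬ ρ ∣ pD π e := fun h1 => hnd (hD.dvd.2 (Dvd.dvd.mul_left h1 3))
  have h1 : ∀ j, ¬ ρ ∣ π j := fun j hj => h0 (by
    unfold pD
    exact dvd_trans (dvd_pow hj (e_val (hdt.e0 j))) (Finset.dvd_prod_of_mem _ (Finset.mem_univ j)))
  have h2 : ∀ j, ¬ π j ∣ ρ := fun j hj => h1 j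
    ((hdt.pq j).prime.associated_of_dvd hρ.prime hj).symm.dvd
  unfold chD
  rw [if_neg (fun ⟨j, hj⟩ => h2 j hj), ← tw_add, hD.cs_eq hrec hdt hρ hnd, neg_add,
    ← Finset.sum_neg_distrib]
  congr 3
  refine Finset.sum_congr rfl fun j _ => ?_
  rw [hrec (π j) ρ (hdt.pq j) hρ (h1 j), neg_mul]

lemma chD_bad9 {ρ : Ei} (h3 : (3 : Ei) ∣ ρ - 1) (hρ : Prime ρ) (hdt : Dt π e) {D : Ei}
    (hD : D9 π e D) (h : ρ ∣ D) (e' : J → ZMod 3) : chD π e' ρ = 0 := by
  have h1 := hD.dvd.1 h
  rcases hρ.dvd_or_dvd h1 with h2 | h2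
  · exact absurd h2 (Pq.norm ⟨hρ, h3⟩)
  · unfold chD
    rw [if_pos (dvd_pD hρ hdt h2)]

/-- the function of the elements -/
noncomputable def g9 (π : J → Ei) (e : J → ZMod 3) (s : ℂ) (α : Ei) : ℂ :=
  (if (3 : ℤ) ∣ nr α then 0 else toC w ^ (-nn α).val) * gg π e s α

lemma g9_one (hpq : ∀ j, Pq (π j)) (e : J → ZMod 3) (s : ℂ) : g9 π e s 1 = 1 := by
  unfold g9
  rw [gg_one hpq, mul_one]
  have h1 : nr (1 : Ei) = 1 := by decide
  have h2 : nn (1 : Ei) = 0 := by decide
  rw [if_neg (by rw [h1]; norm_num), h2]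
  simp

lemma C3_nr {α : Ei} (h : ¬ (3 : ℤ) ∣ nr α) : C3 α := by
  obtain ⟨u, hu⟩ := ns_assoc h
  obtain ⟨q, hq⟩ := ns_prim h
  refine ⟨u, q, u.isUnit, ?_⟩
  linear_combination (u : Ei) * hq - hu

lemma g9_mul (hpq : ∀ j, Pq (π j)) (e : J → ZMod 3) (s : ℂ) (α β : Ei) :
    g9 π e s (α * β) = g9 π e s α * g9 π e s β := by
  unfold g9
  rw [gg_mul hpq, nr_mul]
  have h3 : (3 : ℤ) ∣ nr α * nr β ↔ (3 : ℤ) ∣ nr α ∨ (3 : ℤ) ∣ nr β := Int.prime_three.dvd_mul
  by_cases h1 : (3 : ℤ) ∣ nr α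
  · rw [if_pos (h3.2 (Or.inl h1)), if_pos h1]
    ring
  by_cases h2 : (3 : ℤ) ∣ nr β
  · rw [if_pos (h3.2 (Or.inr h2)), if_pos h2]
    ring
  rw [if_neg (fun h => (h3.1 h).elim h1 h2), if_neg h1, if_neg h2, nn_mul (C3_nr h1) (C3_nr h2),
    neg_add, tw_add]
  ring

lemma g9_prim {α : Ei} (h : (3 : Ei) ∣ α - 1) (e : J → ZMod 3) (s : ℂ) :
    g9 π e s α = toC α * (toC w ^ (-nn α).val * chD π e α) * ((nr α : ℤ) : ℂ) ^ (-s) := by
  unfold g9 gg
  have h1 : ¬ (3 : ℤ) ∣ nr α := by
    intro h2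
    obtain ⟨x, y, h1, -⟩ := ex_q h
    rw [h1, nr_form] at h2
    omega
  rw [if_neg h1]
  ring

section

/-- the local factors -/
theorem factor (hrec : S_REC) {D : ℤ} (hdt : Dt π e)
    (hD : D9 π e (D : Ei)) (s : ℂ) (p : Nat.Primes) :
    HasProd (fun P : {P : HeightOneSpectrum Ei // bl P = p} =>
      (1 - fI (g9 π (fun j => -e j) s) P.1.asIdeal)⁻¹)
      ((1 - (Pool.Agent.W97.MT.ap (WD D) p : ℂ) * ((p : ℕ) : ℂ) ^ (-s) +
      (if ((p : ℕ) : ℤ) ∣ (WD D).Δ then 0 else ((p : ℕ) : ℂ) ^ (1 - 2 * s)))⁻¹) := by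
  have hfact : Fact (p : ℕ).Prime := ⟨p.2⟩
  have hpp : Prime ((p : ℕ) : ℤ) := Nat.prime_iff_prime_int.1 p.2
  set g := g9 π (fun j => -e j) s with hg
  by_cases hbad : ((p : ℕ) : ℤ) ∣ (WD D).Δ
  · -- bad primes
    rw [if_pos hbad, add_zero]
    have hap : Pool.Agent.W97.MT.ap (WD D) p = 0 := by
      rcases (dvd_delta p.2 D).1 hbad with h | h
      · rw [h]
        exact ap_cube cube_three D
      · exact ap_bad h
    rw [hap, Int.cast_zero, zero_mul, sub_zero, inv_one]
    refine hasProd_one.congr_fun fun P => ?_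
    have hz : fI g P.1.asIdeal = 0 := by
      unfold fI
      by_cases h3 : (3 : ℤ) ∣ nr (gn P.1.asIdeal)
      · rw [if_pos h3]
      · rw [if_neg h3]
        have hPp : gn P.1.asIdeal ∣ (((p : ℕ) : Ei)) := by
          have := bl_dvd P.1
          rwa [P.2] at this
        rcases (dvd_delta p.2 D).1 hbad with h | h
        · rw [h] at hPp
          exact absurd (gn_three P.1 hPp) h3
        · have hPD : ns (gn P.1.asIdeal) ∣ (D : Ei) := by
            refine dvd_trans (ns_assoc h3).dvd (dvd_trans hPp ?_)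
            have := int_dvd_int.2 h
            rwa [Int.cast_natCast] at this
          rw [hg]
          unfold g9 gg
          rw [chD_bad9 (ns_prim h3) ((ns_assoc h3).symm.prime (gn_prime P.1)) hdt hD hPD, mul_zero,
            zero_mul, mul_zero]
    rw [hz, sub_zero, inv_one]
  · rw [if_neg hbad]
    rw [dvd_delta p.2 D, not_or] at hbad
    obtain ⟨hp3, hpD⟩ := hbad
    have hm : (p : ℕ) % 3 = 1 ∨ (p : ℕ) % 3 = 2 := by
      have : (p : ℕ) % 3 ≠ 0 := fun h => hp3
        ((Nat.prime_dvd_prime_iff_eq Nat.prime_three p.2).1 (Nat.dvd_of_mod_eq_zero h)).symm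
      omega
    rcases hm with hm | hm
    · -- split primes
      obtain ⟨α, hα, hnα⟩ := exists_pq p.2 hm
      have hα' := pq_star hα
      have hprod : α * star α = (((p : ℕ) : ℕ) : Ei) := by
        rw [mul_star, hnα, Int.cast_natCast]
      have d1 : α ∣ (((p : ℕ) : Ei)) := ⟨star α, hprod.symm⟩
      have d2 : star α ∣ (((p : ℕ) : Ei)) := ⟨α, by rw [mul_comm, hprod]⟩
      set P1 : {P : HeightOneSpectrum Ei // bl P = p} := ⟨hp α hα.prime, bl_hp hα.prime p d1⟩
      set P2 : {P : HeightOneSpectrum Ei // bl P = p} :=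
        ⟨hp (star α) hα'.prime, bl_hp hα'.prime p d2⟩
      have hne : P1 ≠ P2 := by
        intro h
        have h1 : (Ideal.span {α} : Ideal Ei) = Ideal.span {star α} :=
          congrArg HeightOneSpectrum.asIdeal (congrArg Subtype.val h)
        have h2 := (ns_of_assoc (Ideal.span_singleton_eq_span_singleton.1 h1)).1
        rw [ns_of_prim hα.three, ns_of_prim hα'.three] at h2
        exact im_star_ne p.2 hnα h2.symm
      have hall : ∀ P : {P : HeightOneSpectrum Ei // bl P = p}, P = P1 ∨ P = P2 := by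
        intro P
        have h1 : gn P.1.asIdeal ∣ α * star α := by
          rw [hprod]
          have := bl_dvd P.1
          rwa [P.2] at this
        rcases (gn_prime P.1).dvd_or_dvd h1 with h | h
        · exact Or.inl (Subtype.ext (eq_hp hα.prime P.1 h))
        · exact Or.inr (Subtype.ext (eq_hp hα'.prime P.1 h))
      have hP := hasProd_prod_of_ne_finset_one (L := .unconditional _) (s := {P1, P2})
        (f := fun P : {P : HeightOneSpectrum Ei // bl P = p} => (1 - fI g P.1.asIdeal)⁻¹)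
        (fun P hP => by
          exfalso
          apply hP
          rw [Finset.mem_insert, Finset.mem_singleton]
          exact hall P)
      rw [Finset.prod_pair hne] at hP
      have v1 : fI g P1.1.asIdeal = g α := fI_prim g hα.three
      have v2 : fI g P2.1.asIdeal = g (star α) := fI_prim g hα'.three
      rw [v1, v2] at hP
      refine Eq.mp ?_ hP
      congr 1
      have hnd : ¬ α ∣ (D : Ei) := int_ndvd hnα hpD
      have hnd' : ¬ star α ∣ (D : Ei) := int_ndvd (by rw [nr_star, hnα]) hpD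
      have c1 : toC w ^ (-nn α).val * chD π (fun j => -e j) α = toC w ^ (-cs α (D : Ei)).val :=
        chD_prime9 hrec hdt hD hα hnd
      have c2 : toC w ^ (-nn (star α)).val * chD π (fun j => -e j) (star α) =
          toC w ^ (cs α (D : Ei)).val := by
        rw [chD_prime9 hrec hdt hD hα' hnd', cs_star_int hα hnd, neg_neg]
      have hap := congrArg toC (ap_one hα hnα hp3 (by
        rintro h
        rw [h] at hm
        norm_num at hm) hpD)
      rw [map_intCast, map_add, star_mul', map_mul, map_mul] at hap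
      have hst : star (w ^ (-cs α (D : Ei)).val : Ei) = w ^ (cs α (D : Ei)).val := by
        generalize cs α (D : Ei) = c
        revert c
        decide
      rw [hst, map_pow, map_pow] at hap
      have hww : toC w ^ (-cs α (D : Ei)).val * toC w ^ (cs α (D : Ei)).val = 1 := by
        rw [← tw_add, neg_add_cancel, ZMod.val_zero, pow_zero]
      have hpC : toC α * toC (star α) = ((p : ℕ) : ℂ) := by
        rw [← map_mul, hprod, map_natCast]
      rw [← mul_inv, hap, cpow_two p.2, hg, g9_prim hα.three, g9_prim hα'.three,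
        nr_star, hnα, c1, c2, Int.cast_natCast]
      congr 1
      set A := toC w ^ (-cs α (D : Ei)).val
      set B := toC w ^ (cs α (D : Ei)).val
      set X := (((p : ℕ)) : ℂ) ^ (-s)
      linear_combination (X * X) * (A * B) * hpC + (X * X) * ((p : ℕ) : ℂ) * hww
    · -- inert primes
      have hα := inert p.2 hm
      have d1 : -(((p : ℕ) : Ei)) ∣ (((p : ℕ) : Ei)) := neg_dvd.2 dvd_rfl
      set P1 : {P : HeightOneSpectrum Ei // bl P = p} :=
        ⟨hp (-(((p : ℕ) : Ei))) hα.prime, bl_hp hα.prime p d1⟩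
      have hall : ∀ P : {P : HeightOneSpectrum Ei // bl P = p}, P = P1 := by
        intro P
        have h1 : gn P.1.asIdeal ∣ -(((p : ℕ) : Ei)) := by
          rw [dvd_neg]
          have := bl_dvd P.1
          rwa [P.2] at this
        exact Subtype.ext (eq_hp hα.prime P.1 h1)
      have hP := hasProd_prod_of_ne_finset_one (L := .unconditional _) (s := {P1})
        (f := fun P : {P : HeightOneSpectrum Ei // bl P = p} => (1 - fI g P.1.asIdeal)⁻¹)
        (fun P hP => by
          exfalso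
          apply hP
          rw [Finset.mem_singleton]
          exact hall P)
      rw [Finset.prod_singleton] at hP
      have v1 : fI g P1.1.asIdeal = g (-(((p : ℕ) : Ei))) := fI_prim g hα.three
      rw [v1] at hP
      refine Eq.mp ?_ hP
      congr 1
      have hnd : ¬ -(((p : ℕ) : Ei)) ∣ (D : Ei) := by
        rw [neg_dvd]
        intro h
        apply hpD
        rw [← int_dvd_int, Int.cast_natCast]
        exact h
      have c1 : toC w ^ (-nn (-(((p : ℕ) : Ei)))).val *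
          chD π (fun j => -e j) (-(((p : ℕ) : Ei))) = 1 := by
        rw [chD_prime9 hrec hdt hD hα hnd, cs_inert hm hα hpD, neg_zero, ZMod.val_zero, pow_zero]
      rw [ap_cube (cube_two hm) D, cpow_two p.2, hg, g9_prim hα.three,
        c1, nr_neg, nr_nat, map_neg, map_natCast]
      congr 1
      have h0 : (0 : ℝ) ≤ (((p : ℕ)) : ℝ) := Nat.cast_nonneg _
      have h2 := Complex.mul_cpow_ofReal_nonneg h0 h0 (-s)
      rw [Complex.ofReal_natCast] at h2
      push_cast
      rw [pow_two, h2]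
      ring

end


/-- the `L`-function of the curve -/
theorem LQ (hrec : S_REC) {D : ℤ} {J : Type} [Fintype J] {π : J → Ei} {e : J → ZMod 3}
    (hdt : Dt π e) (hD : D9 π e (D : Ei)) {F : ℂ → ℂ} (hF : IsHL9 π (fun j => -e j) F) :
    IsL (WD D) F := by
  refine ⟨hF.1, fun s hs => ?_⟩
  have h1 : HasSum (fun α : {α : Ei // (3 : Ei) ∣ α - 1} => g9 π (fun j => -e j) s α) (F s) :=
    (hF.2 s hs).congr_fun fun α => g9_prim α.2 _ _
  have h2 := hasProd_Ei (g9_one hdt.pq _ s) (g9_mul hdt.pq _ s) h1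
  exact regroup h2 fun p => factor hrec hdt hD s p

end Pool.Agent.H462.N9.LQ
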