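import Pool.Agent.H462.N9.Loc
import Pool.Agent.H462.N9.LQ
import Pool.Graph.R_seed8.Y48.CT.SEL
import Pool.Agent.H462.CTU.Sel

/-!
# The Selmer group of `y² + D y = x³` for `D = 3 ∏ π_i^{e_i}`
-/

set_option autoImplicit false
set_option linter.unusedSectionVars false
set_option linter.unusedVariables false

open scoped Classical

namespace Pool.Agent.H462.N9.Sel

open Pool.Agent.Y692.QS (Ei w nr)
open Pool.Agent.Y715.T.Gi Pool.Agent.Y715.T.Nr Pool.Agent.Y715.T.Df
open Pool.Agent.Y715.T.Rec (cs)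
open Pool.Agent.Y715.T.RecG
open Pool.Agent.Y715.T.Sel (fac kc_mul kc_one kc_congr kc_pow kc_cube kc_uniq kc_cancel kc_unit
  kc_exp ex_root root_ne iota_sq iota_ev odd_of not_dvd_of_unr resid_kc exists_emb3)
open Pool.Agent.Y48.CT.SEL (p0 pr0 esq prod_form cf_prod not_assoc_lam support not_dvd_prod)
open Pool.Agent.Y703.CT
open Pool.Agent.XL6 (SelH)
open Pool.Agent.H462.N9.Chr (nn)
open Pool.Agent.H462.N9.Sup (cs_three)
open Pool.Agent.H462.N9.Ram (ne9)

variable {J : Type} [Fintype J] {π : J → Ei} {e : J → ZMod 3}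
variable {i₀ : QB} {hi : i₀ ^ 2 + i₀ + 1 = 0}

/-- the kernel of the Laplacian with the additional node `none` for the element `3` -/
def K9 (π : J → Ei) (e : J → ZMod 3) : Set (Option J → ZMod 3) :=
  {v | ∀ j, nn (π j) * (v none - v (some j)) +
    ∑ i, e i * cs (π j) (π i) * (v (some i) - v (some j)) = 0}

/-- the prime above three -/
lemma lam_dvd3 : (3 : Ei) = -(lam ^ 2) := by decide

/-- the symbol of the prime above three -/
lemma cs_lam (hrec : S_REC) {ρ : Ei} (h : Pq ρ) : cs ρ lam = -nn ρ := by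
  have hl : ¬ ρ ∣ lam := fun h1 => h.norm (by
    rw [lam_dvd3, dvd_neg]
    exact Dvd.dvd.pow h1 two_ne_zero)
  have h2 : ¬ ρ ∣ lam ^ 2 := fun h1 => hl (h.prime.dvd_of_dvd_pow h1)
  have h3 := cs_three hrec h
  rw [lam_dvd3, cs_neg h.prime h.norm h2, cs_pow h.prime h.norm hl] at h3
  have h4 : ∀ x y : ZMod 3, ((2 : ℕ) : ZMod 3) * x = y → x = -y := by decide
  exact h4 _ _ h3

/-- the elements `λ^c ∏ π_i^{x_i}` -/
noncomputable def el (π : J → Ei) (x : Option J → ℕ) : Ei := lam ^ x none * ∏ j, π j ^ x (some j)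

/-- the elements -/
def pw (π : J → Ei) : Option J → Ei := fun o => o.elim lam π

lemma el_prod (π : J → Ei) (x : Option J → ℕ) : el π x = ∏ o, pw π o ^ x o := by
  rw [Fintype.prod_option]
  rfl

lemma w_ne : (lam : Ei) ≠ 0 := prime_lam.ne_zero

lemma pw_ne (hD : Dt π e) (o : Option J) : pw π o ≠ 0 := by
  cases o with
  | none => exact w_ne
  | some j => exact p0 hD j

lemma el_ne (hD : Dt π e) (x : Option J → ℕ) : el π x ≠ 0 :=
  mul_ne_zero (pow_ne_zero _ w_ne) (pr0 hD _)

lemma el_mul (π : J → Ei) (x y : Option J → ℕ) : el π x * el π y = el π (fun o => x o + y o) := by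
  rw [el_prod, el_prod, el_prod, ← Finset.prod_mul_distrib]
  exact Finset.prod_congr rfl fun o _ => (pow_add _ _ _).symm

lemma el_pow (π : J → Ei) (x : Option J → ℕ) (n : ℕ) : el π x ^ n = el π (fun o => x o * n) := by
  rw [el_prod, el_prod, ← Finset.prod_pow]
  exact Finset.prod_congr rfl fun o _ => (pow_mul _ _ _).symm

lemma el_exp (hD : Dt π e) {h : GK i₀ → ZMod 3} {x y : Option J → ℕ}
    (hxy : ∀ o, (x o : ZMod 3) = y o) (hz : Kc hi (el π x) h) : Kc hi (el π y) h := by
  rw [el_prod] at hz ⊢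
  exact kc_exp (pw_ne hD) hxy hz

/-- the exponents of `D` -/
def ex (e : J → ZMod 3) : Option J → ZMod 3 := fun o => o.elim 2 e

lemma d_el : 3 * pD π e = -el π (fun o => (ex e o).val) := by
  have h2 : (2 : ZMod 3).val = 2 := rfl
  show (3 : Ei) * pD π e = -(lam ^ (2 : ZMod 3).val * ∏ j, π j ^ (e j).val)
  rw [lam_dvd3, h2]
  unfold pD
  ring

/-- the Kummer character of `D` -/
lemma kc_D (hD : Dt π e) {u : QB} {a : GK i₀ → ZMod 3} (hTw : Tw hi (3 * pD π e) u a) :
    Kc hi (el π (fun o => (ex e o).val)) (fun σ => -a σ) := by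
  have hb : Kc hi (3 * pD π e) (fun σ => -a σ) :=
    kc_of hi (root_ne (hi := hi) (z := 3 * pD π e) (ne9 hD) hTw.cube) hTw.cube hTw.act
  refine kc_unit (u := -1) (el_ne hD _) (Or.inr rfl) ?_
  rw [neg_one_mul, ← d_el]
  exact hb

lemma not_lam_prod (hD : Dt π e) (f : J → ℕ) : ¬ (lam : Ei) ∣ ∏ j, π j ^ f j := by
  rw [prime_lam.dvd_finsetProd_iff]
  rintro ⟨j, -, hd⟩
  have h1 := prime_lam.dvd_of_dvd_pow hd
  exact not_assoc_lam (hD.pq j) (prime_lam.associated_of_dvd (hD.pq j).prime h1).symm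

lemma cf_lam {z : Ei} (hz : CF z) (hl : ¬ lam ∣ z) {a : ℕ} (ha : a < 3) : CF (lam ^ a * z) := by
  refine ⟨mul_ne_zero (pow_ne_zero _ prime_lam.ne_zero) hz.1, fun d hd => ?_⟩
  by_contra hu
  have hd0 : d ≠ 0 := by
    rintro rfl
    rw [zero_pow three_ne_zero, zero_dvd_iff] at hd
    exact mul_ne_zero (pow_ne_zero _ prime_lam.ne_zero) hz.1 hd
  obtain ⟨ρ, hρi, hρd⟩ := WfDvdMonoid.exists_irreducible_factor hu hd0
  have hρ : Prime ρ := hρi.prime
  have h1 : ρ ^ 3 ∣ lam ^ a * z := (pow_dvd_pow_of_dvd hρd 3).trans hd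
  by_cases h2 : ρ ∣ lam
  · have h3 := hρ.associated_of_dvd prime_lam h2
    have h4 : lam ^ 3 ∣ lam ^ a * z := (pow_dvd_pow_of_dvd h3.symm.dvd 3).trans h1
    have e1 : (lam : Ei) ^ 3 = lam ^ a * lam ^ (3 - a) := by
      rw [← pow_add]
      congr 1
      omega
    rw [e1] at h4
    have h5 := (mul_dvd_mul_iff_left (pow_ne_zero _ prime_lam.ne_zero)).1 h4
    exact hl ((dvd_pow_self lam (by omega)).trans h5)
  · have h3 : ¬ ρ ∣ lam ^ a := fun h => h2 (hρ.dvd_of_dvd_pow h)
    have h4 : ρ ^ 3 ∣ z := hρ.pow_dvd_of_dvd_mul_left 3 h3 h1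
    exact hρ.not_isUnit (hz.2 ρ h4)

/-- a Selmer character comes from the kernel -/
theorem sel_ker (hrec : S_REC) (hD : Dt π e) {u : QB} {a : GK i₀ → ZMod 3}
    (hTw : Tw hi (3 * pD π e) u a) {h : GK i₀ → ZMod 3} (hs : h ∈ SelH hi a) :
    ∃ v ∈ K9 π e, Kc hi (el π (fun o => (ex e o * v o).val)) h := by
  obtain ⟨hc, hm, hloc⟩ := hs
  have hb := kc_D hD hTw
  -- the Kummer generator
  obtain ⟨z, hz, hzh⟩ := kum hi h hc hm
  obtain ⟨v₀, g, x, hu, ez⟩ := fac (π := π) z hz.1 (support hD hz hzh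
    (fun p _ ι hp3 hpj τ σ hcc hτ => by
      obtain ⟨R, hR⟩ := hloc p ι
      exact (Pool.Agent.H462.N9.Ram.t_UNR hD hTw h p ι hp3 hpj R hR τ σ hcc hτ).2))
  rw [ez] at hzh
  obtain ⟨ι₃⟩ := exists_emb3
  obtain ⟨q, hq⟩ := prod_form hD x
  have hq' : ∏ j, π j ^ x j = 1 + 3 * q := by rw [← hq]; ring
  obtain ⟨xx, hxs, hx⟩ : ∃ xx : Option J → ℕ, (∀ j, xx (some j) = x j) ∧ Kc hi (el π xx) h := by
    obtain ⟨R, hR⟩ := hloc 3 ι₃
    have hzh' := hzh
    rw [hq'] at hzh'
    obtain ⟨q', hq'⟩ := prod_form hD (fun j => (e j).val)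
    have hTw' := hTw
    have e1 : pD π e = 1 + 3 * q' := by
      unfold pD
      rw [← hq']
      ring
    rw [e1] at hTw'
    have hε := Pool.Agent.H462.N9.Loc.core9 hTw' hu hzh' hR
    refine ⟨fun o => o.elim g x, fun _ => rfl, ?_⟩
    refine kc_unit (el_ne hD _) hε ?_
    have e2 : v₀ * el π (fun o => o.elim g x) = v₀ * lam ^ g * ∏ j, π j ^ x j := by
      unfold el
      rw [mul_assoc]
      rfl
    rw [e2]
    exact hzh
  -- the vector
  set v : Option J → ZMod 3 := fun o => xx o * ex e o with hv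
  have hexq : ∀ o, ex e o * ex e o = 1 := by
    intro o
    cases o with
    | none => show (2 : ZMod 3) * 2 = 1; decide
    | some j => exact esq hD j
  have hxv : ∀ o, (xx o : ZMod 3) = ex e o * v o := by
    intro o
    have := hexq o
    calc (xx o : ZMod 3) = xx o * (ex e o * ex e o) := by rw [this, mul_one]
      _ = _ := by rw [hv]; ring
  have heq : ∀ j, nn (π j) * (v none - v (some j)) +
      ∑ i, e i * cs (π j) (π i) * (v (some i) - v (some j)) = 0 := by
    intro j
    obtain ⟨p, hp, ι, hl⟩ := exists_emb hi (hD.pq j).prime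
    have hp3 := odd_of hi ι (hD.pq j).prime hl (not_assoc_lam (hD.pq j))
    obtain ⟨R, hR⟩ := hloc p ι
    obtain ⟨ε, hε⟩ := Pool.Agent.H462.N9.Ram.t_RAM hD hTw h j p ι hl R hR
    -- the character that is trivial at `π j`
    set n : ℕ := ε.val with hn
    have hn3 : (n : ZMod 3) = ε := ZMod.natCast_zmod_val _
    have hy := kc_mul (el_ne hD _) (pow_ne_zero n (el_ne hD _)) hx (kc_pow (el_ne hD _) hb n)
    have hy1 : ∀ (τ : Au p) (σ : GK i₀), Cmp ι τ σ → h σ + n * -a σ = 0 := by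
      intro τ σ hcc
      rw [hε τ σ hcc, hn3]
      ring
    rw [el_pow, el_mul] at hy
    set y : Option J → ZMod 3 := fun o => xx o + ex e o * ε with hydef
    have hy2 : Kc hi (el π (fun o => (y o).val)) (fun σ => h σ + n * -a σ) := by
      refine el_exp hD (fun o => ?_) hy
      rw [ZMod.natCast_zmod_val, hydef]
      push_cast
      rw [hn3, ZMod.natCast_zmod_val]
    have hyj : y (some j) = 0 := by
      have hcf : CF (el π (fun o => (y o).val)) :=
        cf_lam (cf_prod hD (fun j => y (some j))) (not_lam_prod hD _) (ZMod.val_lt _)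
      have h1 := not_dvd_of_unr hcf hy2 hp3 ι (hD.pq j).prime hl
        (fun τ σ hcc _ => hy1 τ σ hcc)
      by_contra hne
      apply h1
      refine dvd_trans (dvd_pow_self (π j) ?_) (Dvd.dvd.mul_left (Finset.dvd_prod_of_mem
        (fun i => π i ^ (y (some i)).val) (Finset.mem_univ j)) _)
      rwa [Ne, ZMod.val_eq_zero]
    have hεv : ε = -v (some j) := by
      have h1 : (xx (some j) : ZMod 3) + ex e (some j) * ε = 0 := hyj
      have h2 := hexq (some j)
      rw [hxv (some j)] at h1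
      calc ε = (ex e (some j) * ex e (some j)) * ε := by rw [h2, one_mul]
        _ = ex e (some j) * (ex e (some j) * v (some j) + ex e (some j) * ε) -
          (ex e (some j) * ex e (some j)) * v (some j) := by ring
        _ = _ := by rw [h1, h2]; ring
    have hyi : ∀ o, y o = ex e o * (v o - v (some j)) := by
      intro o
      rw [hydef]
      change (xx o : ZMod 3) + ex e o * ε = _
      rw [hxv o, hεv]
      ring
    have e2 : el π (fun o => (y o).val) = lam ^ (y none).val *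
        ∏ i ∈ Finset.univ.erase j, π i ^ (y (some i)).val := by
      unfold el
      rw [← Finset.mul_prod_erase Finset.univ (fun i => π i ^ (y (some i)).val)
        (Finset.mem_univ j), hyj, ZMod.val_zero, pow_zero, one_mul]
    rw [e2] at hy2
    have hcube := resid_kc hy2 hp3 ι (hD.pq j).prime hl hy1
    have hnd := not_dvd_prod hD j (fun i => (y (some i)).val)
    have h9 := (hD.pq j).norm
    have hpj := (hD.pq j).prime
    have hwl : ¬ π j ∣ (lam : Ei) := fun h1 => h9 (by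
      rw [lam_dvd3, dvd_neg]
      exact Dvd.dvd.pow h1 two_ne_zero)
    have hw : ¬ π j ∣ (lam : Ei) ^ (y none).val := fun h1 => hwl (hpj.dvd_of_dvd_pow h1)
    have hnd' : ¬ π j ∣ lam ^ (y none).val *
        ∏ i ∈ Finset.univ.erase j, π i ^ (y (some i)).val := fun h1 =>
      (hpj.dvd_or_dvd h1).elim hw hnd
    have hcs := (cs_zero_iff hpj h9 hnd').2 hcube
    have hnd1 : ∀ i ∈ Finset.univ.erase j, ¬ π j ∣ π i := fun i hij =>
      hD.nd i j (Finset.ne_of_mem_erase hij)
    rw [cs_mul hpj h9 hw hnd, cs_pow hpj h9 hwl, cs_lam hrec (hD.pq j),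
      cs_prod hpj h9 _ _ (fun i hij h1 => hnd1 i hij (hpj.dvd_of_dvd_pow h1))] at hcs
    rw [← Finset.add_sum_erase Finset.univ _ (Finset.mem_univ j), sub_self, mul_zero, zero_add,
      ← hcs]
    congr 1
    · rw [ZMod.natCast_zmod_val, hyi none]
      change nn (π j) * (v none - v (some j)) = 2 * (v none - v (some j)) * -nn (π j)
      have h4 : ∀ x y : ZMod 3, x * y = 2 * y * -x := by decide
      exact h4 _ _
    · refine Finset.sum_congr rfl fun i hij => ?_
      rw [cs_pow hpj h9 (hnd1 i hij), ZMod.natCast_zmod_val, hyi (some i)]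
      change e i * cs (π j) (π i) * (v (some i) - v (some j)) =
        e i * (v (some i) - v (some j)) * cs (π j) (π i)
      ring
  refine ⟨v, heq, el_exp hD (fun o => ?_) hx⟩
  rw [hxv o, ZMod.natCast_zmod_val]

/-- the Selmer group is not larger than the kernel -/
theorem sel_le (hrec : S_REC) (hD : Dt π e) {u : QB} {a : GK i₀ → ZMod 3}
    (hTw : Tw hi (3 * pD π e) u a) : (SelH hi a).Finite ∧ (SelH hi a).ncard ≤ (K9 π e).ncard := by
  have hfin : (K9 π e).Finite := Set.toFinite _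
  choose! f hf hf2 using fun (h : GK i₀ → ZMod 3) (hs : h ∈ SelH hi a) =>
    sel_ker hrec hD hTw hs
  have hmaps : ∀ h ∈ SelH hi a, f h ∈ K9 π e := hf
  have hinj : Set.InjOn f (SelH hi a) := by
    intro h1 m1 h2 m2 h12
    have k1 := hf2 h1 m1
    have k2 := hf2 h2 m2
    rw [h12] at k1
    funext σ
    exact kc_uniq (el_ne hD _) k1 k2 σ
  refine ⟨Set.Finite.of_finite_image (hfin.subset ?_) hinj,
    Set.ncard_le_ncard_of_injOn f hmaps hinj hfin⟩
  rintro _ ⟨h, hh, rfl⟩
  exact hf h hh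

/-- the kernel consists of the constants -/
def KerC (π : J → Ei) (e : J → ZMod 3) : Prop :=
  ∀ v ∈ K9 π e, ∀ i, v (some i) = v none

/-- the Selmer group is generated by the torsion point -/
theorem sel1 (hrec : S_REC) (hD : Dt π e) (hK : KerC π e) {u : QB}
    {a : GK i₀ → ZMod 3} (hTw : Tw hi (3 * pD π e) u a) : Sel1 hi a := by
  intro h hc hm hloc
  obtain ⟨v, hv, hkc⟩ := sel_ker hrec hD hTw (h := h) ⟨hc, hm, hloc⟩
  have hconst := hK v hv
  refine ⟨-v none, fun σ => ?_⟩
  have h2 := kc_pow (el_ne hD _) (kc_D hD hTw) (v none).val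
  rw [el_pow] at h2
  have h1 : Kc hi (el π (fun o => (ex e o).val * (v none).val)) h := by
    refine el_exp hD (fun o => ?_) hkc
    have hvo : v o = v none := by
      cases o with
      | none => rfl
      | some i => exact hconst i
    rw [hvo]
    push_cast
    rw [ZMod.natCast_zmod_val, ZMod.natCast_zmod_val, ZMod.natCast_zmod_val]
  have h3 := kc_uniq (el_ne hD _) h1 h2 σ
  rw [h3, ZMod.natCast_zmod_val]
  ring

end Pool.Agent.H462.N9.Sel
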