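import Pool.Graph.R_seed8.Y145.CT.Tam
import Pool.Graph.R_seed8.Y288.CT.Min
import Pool.Graph.R_seed8.Y274.CT.ExiCnt

/-!
# `y² + 3 m y = x³`: minimality, Tamagawa numbers, factorization
-/

set_option autoImplicit false
set_option linter.unusedSectionVars false

open scoped Classical

namespace Pool.Agent.H462.N9.Tam

open Pool.Agent.Y700 (SingRed E0 tam S_E0 PtP)
open Pool.Agent.W97.MT (IsGloballyMinimal)
open Pool.Agent.Y703.CT
open Pool.Agent.Y145.CT
open Pool.Agent.Y809.BSD14 (nadd nsub nmul npow nneg ladd lsub lmul lmul' norm_eq_of_lt)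
open Pool.Agent.Y692.QS
open Pool.Agent.Y715.T.Rec
open Pool.Agent.Y715.T.RecG (Pq)
open Pool.Agent.Y274.CT
open WeierstrassCurve.Affine (Point)

/-- the class: all prime factors of `m` are `1` modulo `3`, no cube of a prime divides `m`,
`m ≠ 1` -/
def Cls3 (m : ℕ) : Prop := m ≠ 0 ∧ m ≠ 1 ∧ (∀ p : ℕ, p.Prime → p ∣ m → p % 3 = 1) ∧
  ∀ p : ℕ, p.Prime → ¬ p ^ 3 ∣ m

lemma Cls3.three {m : ℕ} (h : Cls3 m) : ¬ 3 ∣ m := fun h3 => by
  have := h.2.2.1 3 Nat.prime_three h3
  omega

lemma Cls3.base {m : ℕ} (h : Cls3 m) : Base m := ⟨h.1, h.three, h.2.2.2⟩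

/-! ### minimality -/

theorem den_one {m n : ℕ} (hm : Cls3 m) (h : n ^ 12 ∣ 27 * (3 * m) ^ 4) : n = 1 := by
  have h3 := hm.three
  have hp3 := hm.2.2.2
  by_contra hn
  obtain ⟨p, hp, hpn⟩ := Nat.exists_prime_and_dvd hn
  have h1 : p ^ 12 ∣ 3 ^ 7 * m ^ 4 := by
    have := (pow_dvd_pow_of_dvd hpn 12).trans h
    have e : 27 * (3 * m) ^ 4 = 3 ^ 7 * m ^ 4 := by ring
    rwa [e] at this
  by_cases hp' : p = 3
  · subst hp'
    have hc : Nat.Coprime (3 ^ 12) (m ^ 4) := by
      apply Nat.Coprime.pow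
      exact (Nat.Prime.coprime_iff_not_dvd Nat.prime_three).2 h3
    have h2 := hc.dvd_of_dvd_mul_right h1
    have h4 := Nat.le_of_dvd (by norm_num) h2
    norm_num at h4
  · have hc : Nat.Coprime (p ^ 12) (3 ^ 7) := by
      apply Nat.Coprime.pow
      exact (Nat.coprime_primes hp Nat.prime_three).2 hp'
    have h2 := hc.dvd_of_dvd_mul_left h1
    have h4 : (p ^ 3) ^ 4 ∣ m ^ 4 := by
      rw [← pow_mul]
      exact h2
    exact hp3 p hp ((Nat.pow_dvd_pow_iff (by norm_num)).1 h4)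

theorem min9 {m : ℕ} (hm : Cls3 m) : IsGloballyMinimal (WD ((3 * m : ℕ) : ℤ)) := by
  have hΔ := Pool.Agent.Y288.CT.WD_Δ ((3 * m : ℕ) : ℤ)
  have hD0 : ((3 * m : ℕ) : ℤ) ≠ 0 := by
    have := hm.1
    exact_mod_cast mul_ne_zero three_ne_zero this
  refine ⟨?_, ?_⟩
  · rw [hΔ]
    exact mul_ne_zero (by norm_num) (pow_ne_zero _ hD0)
  · intro W' C h
    have h1 := congrArg WeierstrassCurve.Δ h
    rw [WeierstrassCurve.variableChange_Δ, WeierstrassCurve.map_Δ, WeierstrassCurve.map_Δ] at h1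
    simp only [eq_intCast] at h1
    obtain ⟨q, hq⟩ : ∃ q : ℚ, q = ((C.u⁻¹ : ℚˣ) : ℚ) := ⟨_, rfl⟩
    rw [← hq] at h1
    have hq0 : q ≠ 0 := by rw [hq]; exact Units.ne_zero _
    have h2 : (q.num : ℚ) ^ 12 * ((WD ((3 * m : ℕ) : ℤ)).Δ : ℚ) = (W'.Δ : ℚ) * (q.den : ℚ) ^ 12 := by
      have hd : (q.den : ℚ) ≠ 0 := by exact_mod_cast q.den_ne_zero
      rw [← h1]
      have hnd : q * q.den = q.num := Rat.mul_den_eq_num q
      rw [← hnd]
      ring
    have h3 : q.num ^ 12 * (WD ((3 * m : ℕ) : ℤ)).Δ = W'.Δ * (q.den : ℤ) ^ 12 := by exact_mod_cast h2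
    have hcop : IsCoprime ((q.den : ℤ) ^ 12) (q.num ^ 12) := by
      refine IsCoprime.pow ?_
      rw [Int.isCoprime_iff_gcd_eq_one, Int.gcd_comm]
      exact q.reduced
    have h4 : (q.den : ℤ) ^ 12 ∣ (WD ((3 * m : ℕ) : ℤ)).Δ :=
      hcop.dvd_of_dvd_mul_left ⟨W'.Δ, by rw [h3]; ring⟩
    have h5 : q.den ^ 12 ∣ 27 * (3 * m) ^ 4 := by
      have h6 : ((q.den ^ 12 : ℕ) : ℤ) ∣ ((27 * (3 * m) ^ 4 : ℕ) : ℤ) := by
        push_cast
        refine h4.trans ?_
        rw [hΔ]
        push_cast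
        exact ⟨-1, by ring⟩
      exact_mod_cast h6
    have h8 := den_one hm h5
    rw [h8] at h3
    have h9 : W'.Δ = q.num ^ 12 * (WD ((3 * m : ℕ) : ℤ)).Δ := by rw [h3]; simp
    rw [h9, abs_mul]
    have h10 : 1 ≤ |q.num ^ 12| := by
      apply Int.one_le_abs
      exact pow_ne_zero _ (Rat.num_ne_zero.2 hq0)
    nlinarith [abs_nonneg (WD ((3 * m : ℕ) : ℤ)).Δ]

/-! ### the Tamagawa numbers -/

section

variable {p : ℕ} [Fact p.Prime] {D : ℤ}

/-- also at `3` -/
theorem tam_dvd' (hE : S_E0) (h1 : (p : ℤ) ∣ D) (h3 : ¬ (p : ℤ) ^ 3 ∣ D) :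
    tam (WD D) p = 3 := by
  by_cases hp3 : p ≠ 3
  · exact tam_dvd hE hp3 h1 h3
  push Not at hp3
  have hD0 : D ≠ 0 := by rintro rfl; exact h3 (dvd_zero _)
  have hD : (D : ℚ_[p]) ≠ 0 := by exact_mod_cast hD0
  have hp1 : (1 : ℝ) < p := by exact_mod_cast (Fact.out : p.Prime).one_lt
  have hn := Padic.norm_eq_zpow_neg_valuation hD
  have hv1 : 1 ≤ (D : ℚ_[p]).valuation := by
    have h := (Padic.norm_int_le_pow_iff_dvd (p := p) D 1).2 (by simpa using h1)
    rw [hn, zpow_le_zpow_iff_right₀ hp1] at h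
    push_cast at h
    omega
  have hv2 : (D : ℚ_[p]).valuation ≤ 2 := by
    have h := mt (Padic.norm_int_le_pow_iff_dvd (p := p) D 3).1 (by simpa using h3)
    rw [hn, zpow_le_zpow_iff_right₀ hp1] at h
    push_cast at h
    omega
  have hDl : ‖(D : ℚ_[p])‖ < 1 := (norm_lt_one_iff_val hD).2 hv1
  have n3 : ‖(3 : ℚ_[p])‖ < 1 := by
    have := (Padic.norm_intCast_lt_one_iff (p := p) (k := 3)).2 (by rw [hp3]; rfl)
    exact_mod_cast this
  have n2 : ‖(2 : ℚ_[p])‖ = 1 := by
    refine le_antisymm (by exact_mod_cast Padic.norm_int_le_one (p := p) 2) (not_lt.1 fun h => ?_)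
    have h4 : (p : ℤ) ∣ 2 := by
      refine Padic.norm_intCast_lt_one_iff.1 ?_
      exact_mod_cast h
    rw [hp3] at h4
    omega
  have hsing : ∀ x y : ℚ_[p], y ^ 2 + D * y = x ^ 3 → (SingRed (WD D) p x y ↔ ‖x‖ < 1) := by
    intro x y he
    rw [sing_iff]
    constructor
    · rintro ⟨hx, hy, -, h⟩
      have hy1 : ‖y‖ < 1 := by
        have h4 : ‖(2 : ℚ_[p]) * y‖ < 1 := by
          have e : 2 * y = (2 * y + D) - D := by ring
          rw [e]
          exact lsub h hDl
        rwa [norm_mul, n2, one_mul] at h4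
      have h5 : ‖x ^ 3‖ < 1 := by
        rw [← he]
        refine ladd ?_ ?_
        · rw [pow_two]; exact lmul hy1.le hy1
        · exact lmul hDl.le hy1
      rw [norm_pow] at h5
      by_contra hc
      rw [not_lt] at hc
      have := one_le_pow₀ (n := 3) hc
      linarith
    · intro hx
      have hy : ‖y‖ < 1 := by
        by_contra hc
        rw [not_lt] at hc
        have h4 : ‖(D : ℚ_[p]) * y‖ < ‖y ^ 2‖ := by
          rw [norm_mul, norm_pow]
          nlinarith
        have h5 := norm_eq_of_lt h4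
        rw [he, norm_pow, norm_pow] at h5
        have h6 : ‖x‖ ^ 3 < 1 := pow_lt_one₀ (norm_nonneg _) hx (by norm_num)
        have h7 := one_le_pow₀ (n := 2) hc
        linarith
      refine ⟨hx.le, hy.le, ?_, ladd (lmul Pool.Agent.Y809.BSD14.n2 hy) hDl⟩
      rw [pow_two]
      exact lmul n3.le (lmul hx.le hx)
  have hmem : ∀ {P : PtP (WD D) p} {x y : ℚ_[p]}, At P x y →
      (P ∈ E0 (WD D) p ↔ ¬ ‖x‖ < 1) := by
    intro P x y h
    rw [mem_iff hE h, hsing x y h.eqn]
  obtain ⟨T, hT⟩ := exists_T (p := p) hD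
  have hTn := hT.neg
  have hTT := T_add_T hD hT
  rw [tam]
  refine index_of_gen _ T 3 Nat.prime_three ?_ ?_ ?_
  · rw [hmem hT, norm_zero]
    norm_num
  · have : 3 • T = T + T + T := by abel
    rw [this, hTT, neg_add_cancel]
    exact zero_mem _
  · intro P
    by_cases hP : P ∈ E0 (WD D) p
    · exact ⟨0, by simpa using hP⟩
    have hP0 : P ≠ 0 := fun h0 => hP (by rw [h0]; exact zero_mem _)
    obtain ⟨x, y, hA⟩ := exists_at hP0
    have hx := (not_iff_comm.1 (hmem hA).symm).1 hP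
    by_cases hx0 : x = 0
    · subst hx0
      have e1 : y * (y + D) = 0 := by
        have := hA.eqn
        linear_combination this
      rcases mul_eq_zero.1 e1 with h | h
      · rw [h] at hA
        refine ⟨1, ?_⟩
        rw [one_zsmul, hA.ext hT, sub_self]
        exact zero_mem _
      · have h4 : y = -0 - (D : ℚ_[p]) := by linear_combination h
        rw [h4] at hA
        refine ⟨-1, ?_⟩
        rw [neg_one_zsmul, hA.ext hTn, sub_self]
        exact zero_mem _
    · have hx2 : x ^ 2 ≠ 0 := pow_ne_zero 2 hx0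
      have he := hA.eqn
      rcases trans_norm hD hv1 hv2 hx0 hx he with h | h
      · refine ⟨1, ?_⟩
        rw [one_zsmul, sub_eq_add_neg]
        obtain ⟨y3, h3⟩ := hA.add hTn hx0
        rw [hmem h3, not_lt]
        have e : ((y - (-0 - D)) / (x - 0)) ^ 2 - x - 0 = D * (y + D) / x ^ 2 := by
          rw [sub_zero, sub_zero, div_pow, eq_div_iff hx2, sub_mul, div_mul_cancel₀ _ hx2]
          linear_combination he
        rw [e]
        exact h
      · refine ⟨-1, ?_⟩
        rw [neg_one_zsmul, sub_neg_eq_add]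
        obtain ⟨y3, h3⟩ := hA.add hT hx0
        rw [hmem h3, not_lt]
        have e : ((y - 0) / (x - 0)) ^ 2 - x - 0 = -(D * y / x ^ 2) := by
          rw [sub_zero, sub_zero, sub_zero, div_pow, ← neg_div, eq_div_iff hx2, sub_mul,
            div_mul_cancel₀ _ hx2]
          linear_combination he
        rw [e, norm_neg]
        exact h

end

/-- the product of the Tamagawa numbers -/
theorem tam9 {m : ℕ} (hm : Cls3 m) :
    tamProd (WD ((3 * m : ℕ) : ℤ)) = 3 ^ (m.primeFactors.card + 1) := by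
  have hE : S_E0 := Pool.Agent.Y809.BSD14.t_E0
  have hm0 := hm.1
  have hfac : (WD ((3 * m : ℕ) : ℤ)).Δ.natAbs.primeFactors = insert 3 m.primeFactors := by
    rw [delta_eq, Int.natAbs_mul, Int.natAbs_pow, Int.natAbs_natCast]
    have e : Int.natAbs (-27) * (3 * m) ^ 4 = 3 ^ 7 * m ^ 4 := by
      have : Int.natAbs (-27) = 27 := rfl
      rw [this]
      ring
    rw [e, Nat.primeFactors_mul (by norm_num) (pow_ne_zero 4 hm0),
      Nat.primeFactors_pow _ (by norm_num), Nat.primeFactors_pow _ (by norm_num),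
      Nat.Prime.primeFactors Nat.prime_three]
    rfl
  have hnot : 3 ∉ m.primeFactors := by
    intro h
    exact hm.three (Nat.dvd_of_mem_primeFactors h)
  have hall : ∀ p ∈ insert 3 m.primeFactors, (if h : p.Prime then (haveI := Fact.mk h;
      tam (WD ((3 * m : ℕ) : ℤ)) p) else 1) = 3 := by
    intro p hp
    rw [Finset.mem_insert] at hp
    have hpp : p.Prime := by
      rcases hp with rfl | hp
      · exact Nat.prime_three
      · exact Nat.prime_of_mem_primeFactors hp
    rw [dif_pos hpp]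
    have := Fact.mk hpp
    refine tam_dvd' hE ?_ ?_
    · rcases hp with rfl | hp
      · exact_mod_cast dvd_mul_right 3 m
      · exact_mod_cast (Nat.dvd_of_mem_primeFactors hp).mul_left 3
    · intro h
      have h1 : p ^ 3 ∣ 3 * m := by exact_mod_cast h
      rcases hp with rfl | hp
      · have h2 : 3 * 9 ∣ 3 * m := by
          have : (3 : ℕ) ^ 3 = 3 * 9 := by norm_num
          rwa [this] at h1
        have h4 : 9 ∣ m := Nat.dvd_of_mul_dvd_mul_left three_pos h2
        exact hm.three (dvd_trans (by norm_num) h4)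
      · have hp3 : p ≠ 3 := fun h => hnot (h ▸ hp)
        have hc : Nat.Coprime (p ^ 3) 3 :=
          Nat.Coprime.pow_left 3 ((Nat.coprime_primes hpp Nat.prime_three).2 hp3)
        exact hm.2.2.2 p hpp (hc.dvd_of_dvd_mul_left h1)
  rw [tamProd, hfac, Finset.prod_congr rfl hall, Finset.prod_const, Finset.card_insert_of_notMem hnot]

/-! ### the number of the primes -/

theorem cnt9 {m : ℕ} (hm : Cls3 m) {J : Type} [Fintype J] {π : J → Ei} {e : J → ZMod 3}
    (hdt : Dt π e) (hDp : (m : Ei) = pD π e ∨ (m : Ei) = -pD π e) :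
    Fintype.card J = 2 * m.primeFactors.card := by
  have hB := hm.base
  have hqu := hm.2.2.1
  have hD0 := hB.1
  -- divisors of D
  have hpD : ∀ x : Ei, x ∣ (m : Ei) ↔ x ∣ pD π e := by
    intro x
    rcases hDp with h | h
    · rw [h]
    · rw [h, dvd_neg]
  have hπD : ∀ j, π j ∣ (m : Ei) := by
    intro j
    rw [hpD]
    refine dvd_trans (dvd_pow_self (π j) ?_) (Finset.dvd_prod_of_mem _ (Finset.mem_univ j))
    intro h
    exact hdt.e0 j ((ZMod.val_eq_zero _).1 h)
  have hex : ∀ ρ : Ei, Pq ρ → ρ ∣ (m : Ei) → ∃ j, π j = ρ := by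
    intro ρ hρ hd
    rw [hpD] at hd
    obtain ⟨j, -, hj⟩ := (hρ.prime.dvd_finsetProd_iff _).1 hd
    exact ⟨j, (eq_of_dvd (hdt.pq j) hρ (hρ.prime.dvd_of_dvd_pow hj)).symm⟩
  have hinj : ∀ i j, π i = π j → i = j := by
    intro i j h
    by_contra hne
    exact hdt.nd i j hne (by rw [h])
  choose f hf1 hf2 hf3 using fun j => exists_p (hdt.pq j).prime
  have hfD : ∀ j, f j ∣ m := by
    intro j
    by_contra hcon
    exact coprime_dvd (hdt.pq j).prime ((Nat.Prime.coprime_iff_not_dvd (hf1 j)).2 hcon) (hf2 j)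
      (hπD j)
  have hfiff : ∀ j (p : ℕ), p.Prime → (f j = p ↔ π j ∣ (p : Ei)) := by
    intro j p hp
    constructor
    · rintro rfl
      exact hf2 j
    · intro h
      by_contra hne
      exact coprime_dvd (hdt.pq j).prime ((Nat.coprime_primes (hf1 j) hp).2 hne) (hf2 j) h
  have hmaps : ∀ j ∈ (Finset.univ : Finset J), f j ∈ m.primeFactors := fun j _ =>
    Nat.mem_primeFactors.2 ⟨hf1 j, hfD j, hD0⟩
  have hcard := Finset.card_eq_sum_card_fiberwise hmaps
  have hn3 : ∀ p : ℕ, p ∣ m → p ≠ 3 := by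
    rintro p hp rfl
    exact hB.2.1 hp
  have hp2 : ∀ p ∈ m.primeFactors, (Finset.univ.filter fun j => f j = p).card = 2 := by
    intro p hp
    rw [Nat.mem_primeFactors] at hp
    obtain ⟨hpp, hpd, -⟩ := hp
    have hp1 := hqu p hpp hpd
    have hpD' : (p : Ei) ∣ (m : Ei) := by
      obtain ⟨c, hc⟩ := hpd
      exact ⟨(c : Ei), by rw [hc]; push_cast; rfl⟩
    obtain ⟨σ, hσ, hσn⟩ := exists_one hpp hp1
    have hσp : (p : Ei) = σ * star σ := by
      rw [mul_star, hσn]
      push_cast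
      rfl
    have hσ3 : ¬ σ ∣ 3 := not_three hB.2.1 hσ (dvd_trans ⟨star σ, hσp⟩ hpD')
    have hρ := pq_ns hσ hσ3
    set ρ := Pool.Agent.Y692.QS.ns σ with hρd
    have hρn : nr ρ = p := by rw [hρd, Pool.Agent.Y692.QS.nr_ns (nr_three hσ hσ3), hσn]
    have hρp : (p : Ei) = ρ * star ρ := by
      rw [mul_star, hρn]
      push_cast
      rfl
    have hρs : Pq (star ρ) := by
      refine ⟨Pool.Agent.Y715.T.RecC.star_prime hρ.prime, ?_⟩
      have h1 := Pool.Agent.Y715.T.RecC.star_dvd hρ.three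
      rw [star_sub, star_one] at h1
      have h2 : star (3 : Ei) = 3 := by decide
      rwa [h2] at h1
    have hne : ¬ ρ ∣ star ρ := not_dvd_star hpp (hn3 p hpd) hρn
    obtain ⟨i, hi⟩ := hex ρ hρ (dvd_trans ⟨star ρ, hρp⟩ hpD')
    obtain ⟨i', hi'⟩ := hex (star ρ) hρs (dvd_trans ⟨ρ, by rw [hρp, mul_comm]⟩ hpD')
    rw [Finset.card_eq_two]
    refine ⟨i, i', ?_, ?_⟩
    · rintro rfl
      apply hne
      have h1 : star ρ = ρ := by
        rw [← hi']
        exact hi
      rw [h1]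
    · ext j
      rw [Finset.mem_filter, Finset.mem_insert, Finset.mem_singleton, hfiff j p hpp]
      constructor
      · rintro ⟨-, h⟩
        rw [hρp] at h
        rcases (hdt.pq j).prime.dvd_or_dvd h with h | h
        · left
          apply hinj
          rw [hi]
          exact eq_of_dvd hρ (hdt.pq j) h
        · right
          apply hinj
          rw [hi']
          exact eq_of_dvd hρs (hdt.pq j) h
      · rintro (rfl | rfl)
        · refine ⟨Finset.mem_univ _, ?_⟩
          rw [hi, hρp]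
          exact dvd_mul_right _ _
        · refine ⟨Finset.mem_univ _, ?_⟩
          rw [hi', hρp]
          exact dvd_mul_left _ _
  rw [Finset.card_univ, Finset.sum_congr rfl hp2, Finset.sum_const, smul_eq_mul] at hcard
  rw [hcard, mul_comm]

end Pool.Agent.H462.N9.Tam
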