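import Pool.Graph.R_seed8.Y405.CT.Cri
import Pool.Graph.R_seed8.Y350.CT.REC
import Pool.Agent.H462.N9.Sel
import Pool.Agent.H462.N9.Tam

/-!
# The criterion over the integers for `D = 3 m`
-/

set_option autoImplicit false
set_option linter.unusedSectionVars false
set_option linter.unusedVariables false

open scoped Classical

namespace Pool.Agent.H462.N9.Cri

open Pool.Agent.Y703.CT
open Pool.Agent.Y692.QS (Ei w nr toC)
open Pool.Agent.Y715.T.Rec (cs)
open Pool.Agent.Y715.T.RecG (Pq)
open Pool.Agent.Y405.CT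
open Pool.Agent.H462.N9.Chr (nn)
open Pool.Agent.H462.N9.Sup (cs_three)
open Pool.Agent.H462.N9.Sel (K9 KerC)
open Pool.Agent.H462.N9.Tam (Cls3)
open Finset

variable {J : Type} [Fintype J] {π : J → Ei} {e : J → ZMod 3} {m : ℕ}

/-- the symbol of three -/
lemma cs3 {ρ : Ei} (h : Pq ρ) : cs ρ 3 = nn ρ := cs_three Pool.Agent.Y350.CT.rec h

/-- the part of the factor three -/
noncomputable def th (v : Option J → ZMod 3) (c : ZMod 3) : Ei := if v none = c then 3 else 1

/-- the parts -/
noncomputable def P (π : J → Ei) (e : J → ZMod 3) (v : Option J → ZMod 3) (c : ZMod 3) : Ei :=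
  th v c * ∏ i ∈ univ.filter (fun i => v (some i) = c), π i ^ (e i).val

lemma star_three : star (3 : Ei) = 3 := by decide

lemma th_star (v : Option J → ZMod 3) (c : ZMod 3) : star (th v c) = th v c := by
  unfold th
  split_ifs
  · exact star_three
  · exact star_one _

lemma th_prod (v : Option J → ZMod 3) : ∏ c, th v c = 3 := by
  unfold th
  rw [Finset.prod_ite_eq]
  simp

lemma nd_th (h : Dt π e) (v : Option J → ZMod 3) (c : ZMod 3) (j : J) : ¬ π j ∣ th v c := by
  unfold th
  split_ifs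
  · exact (h.pq j).norm
  · exact (h.pq j).prime.not_dvd_one

lemma cs_th (h : Dt π e) (v : Option J → ZMod 3) (c : ZMod 3) (j : J) :
    cs (π j) (th v c) = if v none = c then nn (π j) else 0 := by
  unfold th
  split_ifs
  · exact cs3 (h.pq j)
  · exact Pool.Agent.Y715.T.RecG.cs_one (h.pq j).prime (h.pq j).norm

/-- the symbol of a part -/
theorem cs_P (h : Dt π e) {v : Option J → ZMod 3} {j : J} {c : ZMod 3} (hc : v (some j) ≠ c) :
    ¬ π j ∣ P π e v c ∧
    cs (π j) (P π e v c) = (if v none = c then nn (π j) else 0) +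
      ∑ i, if v (some i) = c then e i * cs (π j) (π i) else 0 := by
  obtain ⟨a1, a2⟩ := cs_part (v := fun i => v (some i)) h hc
  have hp := (h.pq j).prime
  have h1 := nd_th h v c j
  refine ⟨fun h2 => (hp.dvd_or_dvd h2).elim h1 a1, ?_⟩
  unfold P
  rw [Pool.Agent.Y715.T.RecG.cs_mul hp (h.pq j).norm h1 a1, cs_th h, a2]

section real

variable (h : Dt π e) (hD : (m : Ei) = pD π e ∨ (m : Ei) = -pD π e)

lemma P_star {σ : J → J} (hσ : ∀ j, π (σ j) = star (π j)) (hσσ : ∀ j, σ (σ j) = j)
    (hes : ∀ j, e (σ j) = e j) {v : Option J → ZMod 3} (hvs : ∀ j, v (some (σ j)) = v (some j))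
    (c : ZMod 3) : star (P π e v c) = P π e v c := by
  unfold P
  rw [star_mul', th_star]
  congr 1
  have h1 : star (∏ i ∈ univ.filter (fun i => v (some i) = c), π i ^ (e i).val) =
      ∏ i ∈ univ.filter (fun i => v (some i) = c), star (π i ^ (e i).val) := by
    have := map_prod (starRingEnd Ei) (fun i => π i ^ (e i).val)
      (univ.filter (fun i => v (some i) = c))
    exact this
  rw [h1]
  refine Finset.prod_nbij' σ σ ?_ ?_ (fun i _ => hσσ i) (fun i _ => hσσ i) ?_
  · intro i hi
    simp only [mem_filter, mem_univ, true_and] at hi ⊢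
    rw [hvs, hi]
  · intro i hi
    simp only [mem_filter, mem_univ, true_and] at hi ⊢
    rw [hvs, hi]
  · intro i _
    rw [hes, hσ, star_pow]

lemma P_prod (v : Option J → ZMod 3) : ∏ c, P π e v c = 3 * pD π e := by
  unfold P
  rw [Finset.prod_mul_distrib, th_prod]
  congr 1
  exact Finset.prod_fiberwise univ (fun i => v (some i)) (fun i => π i ^ (e i).val)

include hD in
/-- the product of the integers -/
lemma n_prod {v : Option J → ZMod 3} {n : ZMod 3 → ℤ} (hn : ∀ c, P π e v c = ((n c : ℤ) : Ei)) :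
    ∏ c, (n c).natAbs = 3 * m := by
  have h1 : (((∏ c, n c : ℤ)) : Ei) = 3 * pD π e := by
    rw [← P_prod v]
    push_cast
    exact Finset.prod_congr rfl fun c _ => (hn c).symm
  have hprodn : (∏ c, n c) = ((3 * m : ℕ) : ℤ) ∨ (∏ c, n c) = -((3 * m : ℕ) : ℤ) := by
    rcases hD with h2 | h2
    · left
      have h3 : ((∏ c, n c : ℤ) : Ei) = ((((3 * m : ℕ) : ℤ) : ℤ) : Ei) := by
        rw [h1, ← h2]
        push_cast
        rfl
      have := congrArg QuadraticAlgebra.re h3
      rwa [QuadraticAlgebra.re_intCast, QuadraticAlgebra.re_intCast] at this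
    · right
      have h3 : ((∏ c, n c : ℤ) : Ei) = ((-((3 * m : ℕ) : ℤ) : ℤ) : Ei) := by
        rw [h1]
        push_cast
        rw [h2]
        ring
      have := congrArg QuadraticAlgebra.re h3
      rwa [QuadraticAlgebra.re_intCast, QuadraticAlgebra.re_intCast] at this
  have h2 : ∏ c, (n c).natAbs = (∏ c, n c).natAbs := (map_prod Int.natAbsHom n univ).symm
  rw [h2]
  rcases hprodn with h3 | h3
  · rw [h3, Int.natAbs_natCast]
  · rw [h3, Int.natAbs_neg, Int.natAbs_natCast]

end real

/-- a prime dividing a partial product -/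
lemma dvd_P (h : Dt π e) {v : Option J → ZMod 3} {c : ZMod 3} {ρ : Ei} (hρ : Prime ρ)
    (h3 : ¬ ρ ∣ 3) (hd : ρ ∣ P π e v c) : ∃ j, v (some j) = c ∧ ρ ∣ π j ∧ π j ∣ ρ := by
  rcases hρ.dvd_or_dvd hd with h1 | h1
  · exfalso
    unfold th at h1
    split_ifs at h1
    · exact h3 h1
    · exact hρ.not_dvd_one h1
  · obtain ⟨j, hj, h2, h4⟩ := dvd_part h _ hρ h1
    exact ⟨j, (mem_filter.1 hj).2, h2, h4⟩

lemma three_dvd_P (h : Dt π e) {v : Option J → ZMod 3} {c : ZMod 3} (hd : (3 : Ei) ∣ P π e v c) :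
    v none = c := by
  by_contra hne
  unfold P th at hd
  rw [if_neg hne, one_mul] at hd
  have hl := Pool.Agent.Y715.T.Gi.prime_lam
  have h1 : (Pool.Agent.Y715.T.Gi.lam : Ei) ∣ 3 := by
    rw [Pool.Agent.H462.N9.Sel.lam_dvd3, dvd_neg]
    exact dvd_pow_self _ two_ne_zero
  obtain ⟨j, -, h2, h3⟩ := dvd_part h _ hl (h1.trans hd)
  exact (h.pq j).norm (h3.trans h1)

lemma not_three_of {p : ℕ} (hp : p.Prime) (hp3 : p ≠ 3) {ρ : Ei} (hρ : Prime ρ)
    (hd : ρ ∣ ((p : ℕ) : Ei)) : ¬ ρ ∣ 3 := by
  intro h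
  exact Pool.Agent.Y274.CT.coprime_dvd hρ ((Nat.coprime_primes hp Nat.prime_three).2 hp3) hd
    (by exact_mod_cast h)

/-- a number is a cube modulo three -/
lemma cube_three (n : ℤ) : ∃ x : ℤ, ((3 : ℕ) : ℤ) ∣ n - x ^ 3 := by
  refine ⟨n, ?_⟩
  have h1 : ((n - n ^ 3 : ℤ) : ZMod 3) = 0 := by
    push_cast
    generalize (n : ZMod 3) = x
    revert x
    decide
  exact (ZMod.intCast_zmod_eq_zero_iff_dvd _ 3).1 h1

/-- the value of the linear form -/
lemma form (c x t : ZMod 3) : ((if x = c + 1 then t else 0) + ((2 : ℕ) : ZMod 3) *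
    (if x = c + 2 then t else 0)) = t * (x - c) := by
  revert c x t
  decide

lemma csP_eq (h : Dt π e) (v : Option J → ZMod 3) (j : J) :
    cs (π j) (P π e v (v (some j) + 1) * P π e v (v (some j) + 2) ^ 2) =
      nn (π j) * (v none - v (some j)) +
        ∑ i, e i * cs (π j) (π i) * (v (some i) - v (some j)) := by
  set c := v (some j) with hc
  have hprime := (h.pq j).prime
  have h9 := (h.pq j).norm
  have hc1 : v (some j) ≠ c + 1 := by
    rw [← hc]
    exact (by decide : ∀ c : ZMod 3, c ≠ c + 1) c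
  have hc2 : v (some j) ≠ c + 2 := by
    rw [← hc]
    exact (by decide : ∀ c : ZMod 3, c ≠ c + 2) c
  obtain ⟨a1, a2⟩ := cs_P h hc1
  obtain ⟨b1, b2⟩ := cs_P h hc2
  have b1' : ¬ π j ∣ P π e v (c + 2) ^ 2 := fun h => b1 (hprime.dvd_of_dvd_pow h)
  rw [Pool.Agent.Y715.T.RecG.cs_mul hprime h9 a1 b1', Pool.Agent.Y715.T.RecG.cs_pow hprime h9 b1,
    a2, b2]
  rw [← form c (v none) (nn (π j))]
  have h1 : ∑ i, e i * cs (π j) (π i) * (v (some i) - c) =
      ∑ i, ((if v (some i) = c + 1 then e i * cs (π j) (π i) else 0) + ((2 : ℕ) : ZMod 3) *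
        (if v (some i) = c + 2 then e i * cs (π j) (π i) else 0)) :=
    Finset.sum_congr rfl fun i _ => (form c (v (some i)) _).symm
  rw [h1, Finset.sum_add_distrib, ← Finset.mul_sum]
  ring

/-- even kernel vectors are constant -/
theorem even_part (hm : Cls3 m) (hNS : NoSplit (3 * m)) (h : Dt π e)
    (hD : (m : Ei) = pD π e ∨ (m : Ei) = -pD π e) (v : Option J → ZMod 3) (hv : v ∈ K9 π e)
    (hve : ∀ i j, π i = star (π j) → v (some i) = v (some j)) : ∀ i, v (some i) = v none := by
  choose σ hσ using exists_sigma h hD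
  have hσσ : ∀ j, σ (σ j) = j := fun j => pi_inj h (by rw [hσ, hσ, star_star])
  have hes : ∀ j, e (σ j) = e j := fun j => e_sigma h hD (hσ j)
  have hvs : ∀ j, v (some (σ j)) = v (some j) := fun j => hve _ _ (hσ j)
  obtain ⟨n, hn⟩ : ∃ n : ZMod 3 → ℤ, ∀ c, P π e v c = ((n c : ℤ) : Ei) :=
    ⟨fun c => (P π e v c).re, fun c => real_of_star (P_star hσ hσσ hes hvs c)⟩
  have hdprod := n_prod hD hn
  have hdP : ∀ (c : ZMod 3) (p : ℕ), p ∣ (n c).natAbs → ((p : ℕ) : Ei) ∣ P π e v c := by
    intro c p hp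
    rw [hn c, nat_int]
    exact Pool.Agent.Y692.QS.int_dvd_int.2 (Int.natCast_dvd.2 hp)
  have hfac : ∀ (c : ZMod 3) (p : ℕ), p.Prime → p ≠ 3 → p ∣ (n c).natAbs → ∀ ρ : Ei, Prime ρ →
      ρ ∣ ((p : ℕ) : Ei) → ∃ j, v (some j) = c ∧ ρ ∣ π j ∧ π j ∣ ρ := by
    intro c p hp hp3 hpd ρ hρ hρp
    exact dvd_P h hρ (not_three_of hp hp3 hρ hρp) (hρp.trans (hdP c p hpd))
  have hcop : ∀ c c', c ≠ c' → Nat.Coprime (n c).natAbs (n c').natAbs := by
    intro c c' hcc
    by_contra hnc
    obtain ⟨p, hp, h1, h2⟩ := Nat.Prime.not_coprime_iff_dvd.1 hnc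
    by_cases hp3 : p = 3
    · subst hp3
      have e1 := three_dvd_P h (hdP c 3 h1)
      have e2 := three_dvd_P h (hdP c' 3 h2)
      exact hcc (e1.symm.trans e2)
    obtain ⟨ρ, hρ, hρp⟩ := exists_prime_dvd hp
    obtain ⟨j, hj, h3, h4⟩ := hfac c p hp hp3 h1 ρ hρ hρp
    obtain ⟨j', hj', h3', h4'⟩ := hfac c' p hp hp3 h2 ρ hρ hρp
    have h5 : j = j' := by
      by_contra hne
      exact h.nd j j' hne (h4'.trans h3)
    apply hcc
    rw [← hj, ← hj', h5]
  have hloc : ∀ (c : ZMod 3) (p : ℕ), p.Prime → p ∣ (n c).natAbs →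
      ∃ x : ℤ, (p : ℤ) ∣ ((n (c + 1)).natAbs : ℤ) * ((n (c + 2)).natAbs : ℤ) ^ 2 - x ^ 3 := by
    intro c p hp hpd
    by_cases hp3 : p = 3
    · subst hp3
      exact cube_three _
    obtain ⟨ρ, hρ, hρp⟩ := exists_prime_dvd hp
    obtain ⟨j, hj, h3, h4⟩ := hfac c p hp hp3 hpd ρ hρ hρp
    obtain ⟨l, hl, hdl, hn3, hz⟩ := below (h.pq j)
    have hlp : l = p := prime_below hp hl (h4.trans hρp) hz
    subst hlp
    rcases hn3 with ⟨h5, h6⟩ | ⟨h5, h6⟩
    · have hprime := (h.pq j).prime
      have h9 := (h.pq j).norm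
      have h7 : cs (π j) (P π e v (c + 1) * P π e v (c + 2) ^ 2) = 0 := by
        rw [← hj, csP_eq h]
        exact hv j
      have hc1 : v (some j) ≠ c + 1 := by
        rw [hj]
        exact (by decide : ∀ c : ZMod 3, c ≠ c + 1) c
      have hc2 : v (some j) ≠ c + 2 := by
        rw [hj]
        exact (by decide : ∀ c : ZMod 3, c ≠ c + 2) c
      have a1 := (cs_P h hc1).1
      have b1 := (cs_P h hc2).1
      have b1' : ¬ π j ∣ P π e v (c + 2) ^ 2 := fun h => b1 (hprime.dvd_of_dvd_pow h)
      have hnd12 : ¬ π j ∣ P π e v (c + 1) * P π e v (c + 2) ^ 2 := fun h => by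
        rcases hprime.dvd_or_dvd h with h | h
        · exact a1 h
        · exact b1' h
      obtain ⟨y, hy⟩ := (Pool.Agent.Y715.T.RecG.cs_zero_iff hprime h9 hnd12).1 h7
      have h8 : π j ∣ ((n (c + 1) * n (c + 2) ^ 2 : ℤ) : Ei) - y ^ 3 := by
        push_cast
        rw [← hn, ← hn]
        exact hy
      obtain ⟨x, hx⟩ := cube_one hl hdl h6 hz h8
      have e2 : ((n (c + 2)).natAbs : ℤ) ^ 2 = n (c + 2) ^ 2 := Int.natAbs_sq _
      rw [e2]
      rcases Int.natAbs_eq (n (c + 1)) with h10 | h10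
      · refine ⟨x, ?_⟩
        have e1 : ((n (c + 1)).natAbs : ℤ) = n (c + 1) := h10.symm
        rw [e1]
        exact hx
      · refine ⟨-x, ?_⟩
        have e1 : ((n (c + 1)).natAbs : ℤ) = -n (c + 1) := by omega
        rw [e1]
        have e3 : -n (c + 1) * n (c + 2) ^ 2 - (-x) ^ 3 = -(n (c + 1) * n (c + 2) ^ 2 - x ^ 3) := by
          ring
        rw [e3]
        exact hx.neg_right
    · exact cube_two hl h5 _
  obtain ⟨c0, hc0⟩ := hNS (fun c => (n c).natAbs) hdprod hcop hloc
  have hun : ∀ c', c' ≠ c0 → IsUnit (P π e v c') := by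
    intro c' hc'
    rw [hn]
    have h4 : IsUnit (n c') := Int.isUnit_iff_natAbs_eq.2 (hc0 c' hc')
    exact h4.map (Int.castRingHom Ei)
  have hall : ∀ i, v (some i) = c0 := by
    intro i
    by_contra hne
    have h1 : π i ∣ ∏ k ∈ univ.filter (fun k => v (some k) = v (some i)), π k ^ (e k).val :=
      pi_dvd_part h _ (mem_filter.2 ⟨mem_univ _, rfl⟩)
    have h2 : π i ∣ P π e v (v (some i)) := Dvd.dvd.mul_left h1 _
    exact (h.pq i).prime.not_isUnit (isUnit_of_dvd_unit h2 (hun _ hne))
  have hnone : v none = c0 := by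
    by_contra hne
    have h2 : (3 : Ei) ∣ P π e v (v none) := by
      refine Dvd.dvd.mul_right ?_ _
      unfold th
      rw [if_pos rfl]
    have h3 := isUnit_of_dvd_unit h2 (hun _ hne)
    have hl := Pool.Agent.Y715.T.Gi.prime_lam
    have h1 : (Pool.Agent.Y715.T.Gi.lam : Ei) ∣ 3 := by
      rw [Pool.Agent.H462.N9.Sel.lam_dvd3, dvd_neg]
      exact dvd_pow_self _ two_ne_zero
    exact hl.not_isUnit (isUnit_of_dvd_unit h1 h3)
  intro i
  rw [hall i, hnone]

/-- there is no real prime among the factors -/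
lemma no_fixed (hm : Cls3 m) (h : Dt π e) (hD : (m : Ei) = pD π e ∨ (m : Ei) = -pD π e) (j : J) :
    star (π j) ≠ π j := by
  intro hj
  have hr := real_of_star hj
  obtain ⟨p, hp, hdp, hn3', hz'⟩ := below (h.pq j)
  have hpD : p ∣ m := by
    have h5 : π j ∣ (m : Ei) := (dvd_D_iff hD _).2 (pi_dvd_part h univ (mem_univ j))
    rw [nat_int, hz'] at h5
    exact_mod_cast h5
  have hp1 := hm.2.2.1 p hp hpD
  rcases hn3' with ⟨h5, h6⟩ | ⟨h5, -⟩
  · set n : ℤ := (π j).re with hn
    have hnn : nr (π j) = n ^ 2 := by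
      rw [hr, Pool.Agent.Y692.QS.nr_int]
    rw [hnn] at h6
    have hpp : Prime (p : ℤ) := Nat.prime_iff_prime_int.1 hp
    have h7 : (p : ℤ) ∣ n := hpp.dvd_of_dvd_pow (by rw [h6])
    obtain ⟨k, hk⟩ := h7
    rw [hk] at h6
    have hp0 : (p : ℤ) ≠ 0 := by exact_mod_cast hp.ne_zero
    have h8 : (p : ℤ) * k ^ 2 = 1 := by
      apply mul_left_cancel₀ hp0
      linear_combination h6
    have h9 : (p : ℤ) ∣ 1 := ⟨_, h8.symm⟩
    have h10 := Int.le_of_dvd one_pos h9
    have := hp.one_lt
    omega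
  · omega

/-- the character of three at the conjugate prime -/
lemma nn_star {ρ : Ei} (h : Pq ρ) : nn (star ρ) = -nn ρ := by
  rw [← cs3 h, ← cs3 (pq_star h)]
  have h1 := cs_starG h (x := 3) h.norm
  rw [star_three] at h1
  exact h1

/-- the criterion -/
theorem cri (hm : Cls3 m) (hNS : NoSplit (3 * m)) (h : Dt π e)
    (hD : (m : Ei) = pD π e ∨ (m : Ei) = -pD π e) : KerC π e := by
  have hR := Pool.Agent.Y350.CT.rec
  choose σ hσ using exists_sigma h hD
  have hσσ : ∀ j, σ (σ j) = j := fun j => pi_inj h (by rw [hσ, hσ, star_star])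
  have hes : ∀ j, e (σ j) = e j := fun j => e_sigma h hD (hσ j)
  have hσn : ∀ j, σ j ≠ j := by
    intro j hj
    apply no_fixed hm h hD j
    rw [← hσ, hj]
  let τ : Option J → Option J := Option.map σ
  have hττ : ∀ o, τ (τ o) = o := by
    intro o
    cases o with
    | none => rfl
    | some j => show some (σ (σ j)) = some j; rw [hσσ]
  have hτq : ∀ o, τ o = o ↔ o = none := by
    intro o
    cases o with
    | none => exact ⟨fun _ => rfl, fun _ => rfl⟩
    | some j =>
      constructor
      · intro h1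
        exact absurd (Option.some_injective _ h1) (hσn j)
      · intro h1
        exact absurd h1 (by simp)
  let M : Option J → Option J → ZMod 3 := fun o o' => match o, o' with
    | none, none => 0
    | none, some j => e j * nn (π j)
    | some j, none => e j * nn (π j)
    | some i, some j => if i = j then 0 else e i * e j * cs (π i) (π j)
  have hL : ∀ (v : Option J → ZMod 3) (j : J), Lp M v (some j) =
      e j * (nn (π j) * (v none - v (some j)) +
        ∑ i, e i * cs (π j) (π i) * (v (some i) - v (some j))) := by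
    intro v j
    unfold Lp
    rw [Fintype.sum_option, mul_add, mul_sum]
    congr 1
    · show e j * nn (π j) * (v none - v (some j)) = _
      ring
    · refine sum_congr rfl fun i _ => ?_
      show (if j = i then 0 else e j * e i * cs (π j) (π i)) * (v (some i) - v (some j)) = _
      by_cases hij : j = i
      · subst hij
        rw [if_pos rfl, sub_self, mul_zero, mul_zero, mul_zero]
      · rw [if_neg hij]
        ring
  have hs : ∀ o o', M o o' = M o' o := by
    intro o o'
    cases o with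
    | none =>
      cases o' with
      | none => rfl
      | some j => rfl
    | some i =>
      cases o' with
      | none => rfl
      | some j =>
        show (if i = j then 0 else e i * e j * cs (π i) (π j)) =
          if j = i then 0 else e j * e i * cs (π j) (π i)
        by_cases hij : i = j
        · subst hij
          rfl
        · rw [if_neg hij, if_neg (fun h' => hij h'.symm),
            hR (π j) (π i) (h.pq j) (h.pq i) (h.nd j i (fun h' => hij h'.symm))]
          ring
  have ha : ∀ o o', M (τ o) (τ o') = - M o o' := by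
    intro o o'
    cases o with
    | none =>
      cases o' with
      | none => show (0 : ZMod 3) = -0; rw [neg_zero]
      | some j =>
        show e (σ j) * nn (π (σ j)) = -(e j * nn (π j))
        rw [hes, hσ, nn_star (h.pq j)]
        ring
    | some i =>
      cases o' with
      | none =>
        show e (σ i) * nn (π (σ i)) = -(e i * nn (π i))
        rw [hes, hσ, nn_star (h.pq i)]
        ring
      | some j =>
        show (if σ i = σ j then 0 else e (σ i) * e (σ j) * cs (π (σ i)) (π (σ j))) =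
          - if i = j then 0 else e i * e j * cs (π i) (π j)
        by_cases hij : i = j
        · subst hij
          simp
        · have hij' : σ i ≠ σ j := fun h' => hij (by rw [← hσσ i, h', hσσ])
          rw [if_neg hij, if_neg hij', hes, hes, hσ, hσ,
            cs_starG (h.pq i) (h.nd j i (fun h' => hij h'.symm))]
          ring
  -- the equation at the additional node follows
  have hsum : ∀ v : Option J → ZMod 3, ∑ o, Lp M v o = 0 := by
    intro v
    unfold Lp
    have h1 : ∑ o, ∑ i, M o i * (v i - v o) = ∑ o, ∑ i, M o i * (v o - v i) := by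
      rw [Finset.sum_comm]
      refine sum_congr rfl fun i _ => sum_congr rfl fun o _ => ?_
      rw [hs]
    have h2 : ∑ o, ∑ i, M o i * (v o - v i) = -∑ o, ∑ i, M o i * (v i - v o) := by
      rw [← Finset.sum_neg_distrib]
      refine sum_congr rfl fun o _ => ?_
      rw [← Finset.sum_neg_distrib]
      exact sum_congr rfl fun i _ => by ring
    rw [h2] at h1
    have h3 : ∀ x : ZMod 3, x = -x → x = 0 := by decide
    exact h3 _ h1
  have hker : ∀ v : Option J → ZMod 3, (∀ o, Lp M v o = 0) ↔ v ∈ K9 π e := by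
    intro v
    constructor
    · intro h1 j
      have h2 := h1 (some j)
      rw [hL, mul_eq_zero] at h2
      exact h2.resolve_left (h.e0 j)
    · intro h1
      have h2 : ∀ j : J, Lp M v (some j) = 0 := by
        intro j
        rw [hL, h1 j, mul_zero]
      intro o
      cases o with
      | none =>
        have h3 := hsum v
        rw [Fintype.sum_option, Finset.sum_eq_zero fun j _ => h2 j, add_zero] at h3
        exact h3
      | some j => exact h2 j
  intro v hv i
  refine lin_main (m := M) (σ := τ) (q := none) hττ hτq hs ha ?_ v ((hker v).2 hv) (some i) none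
  intro x hx hLx
  have h1 := even_part hm hNS h hD x ((hker x).1 hLx) ?_
  · have h2 : ∀ o, x o = x none := by
      intro o
      cases o with
      | none => rfl
      | some j => exact h1 j
    intro i j
    rw [h2 i, h2 j]
  · intro i j hij
    have h1 : i = σ j := pi_inj h (by rw [hij, hσ])
    rw [h1]
    exact hx (some j)

/-- a splitting gives a kernel vector -/
theorem even_vec (hm : Cls3 m) (hNS : ¬ NoSplit (3 * m)) (h : Dt π e)
    (hD : (m : Ei) = pD π e ∨ (m : Ei) = -pD π e) :
    ∃ v : Option J → ZMod 3, v ∈ K9 π e ∧ ∃ i, v (some i) ≠ v none := by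
  unfold NoSplit at hNS
  push Not at hNS
  obtain ⟨d, hdprod, hcop, hloc, hnc⟩ := hNS
  have hm0 := hm.1
  have hd0 : ∀ c, d c ≠ 0 := by
    intro c h0
    have : 3 * m = 0 := by
      rw [← hdprod]
      exact Finset.prod_eq_zero (mem_univ c) h0
    omega
  have hex : ∀ j, ∃ c, π j ∣ ((d c : ℕ) : Ei) := by
    intro j
    have h1 : π j ∣ (m : Ei) := (dvd_D_iff hD _).2 (pi_dvd_part h univ (mem_univ j))
    have h2 : π j ∣ ((3 * m : ℕ) : Ei) := by
      push_cast
      exact h1.mul_left 3
    rw [← hdprod, Nat.cast_prod] at h2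
    obtain ⟨c, -, hc⟩ := ((h.pq j).prime.dvd_finsetProd_iff _).1 h2
    exact ⟨c, hc⟩
  choose v₀ hv₀ using hex
  obtain ⟨c₃, hc₃⟩ : ∃ c, 3 ∣ d c := by
    have h1 : 3 ∣ ∏ c, d c := by rw [hdprod]; exact dvd_mul_right _ _
    obtain ⟨c, -, hc⟩ := (Nat.prime_three.prime.dvd_finsetProd_iff _).1 h1
    exact ⟨c, hc⟩
  let v : Option J → ZMod 3 := fun o => o.elim c₃ v₀
  have hv : ∀ j, π j ∣ ((d (v (some j)) : ℕ) : Ei) := hv₀
  have hv3 : 3 ∣ d (v none) := hc₃
  have huniq : ∀ j c, π j ∣ ((d c : ℕ) : Ei) → v (some j) = c := by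
    intro j c hc
    by_contra hne
    obtain ⟨l, hl, hdl, hn3, hz⟩ := below (h.pq j)
    have h1 : l ∣ d c := by
      rw [nat_int, hz] at hc
      exact_mod_cast hc
    have h2 : l ∣ d (v (some j)) := by
      have := hv j
      rw [nat_int, hz] at this
      exact_mod_cast this
    have h3 := Nat.dvd_gcd h2 h1
    rw [hcop _ _ hne] at h3
    exact hl.one_lt.ne' (Nat.dvd_one.1 h3)
  have huniq3 : ∀ c, 3 ∣ d c → v none = c := by
    intro c hc
    by_contra hne
    have h3 := Nat.dvd_gcd hv3 hc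
    rw [hcop _ _ hne] at h3
    exact absurd (Nat.dvd_one.1 h3) (by norm_num)
  have hve : ∀ i j, π i = star (π j) → v (some i) = v (some j) := by
    intro i j hij
    apply huniq
    have h1 := Pool.Agent.Y715.T.RecC.star_dvd (hv j)
    rwa [star_nat, ← hij] at h1
  choose σ hσ using exists_sigma h hD
  have hσσ : ∀ j, σ (σ j) = j := fun j => pi_inj h (by rw [hσ, hσ, star_star])
  have hes : ∀ j, e (σ j) = e j := fun j => e_sigma h hD (hσ j)
  have hvs : ∀ j, v (some (σ j)) = v (some j) := fun j => hve _ _ (hσ j)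
  obtain ⟨n, hn⟩ : ∃ n : ZMod 3 → ℤ, ∀ c, P π e v c = ((n c : ℤ) : Ei) :=
    ⟨fun c => (P π e v c).re, fun c => real_of_star (P_star hσ hσσ hes hvs c)⟩
  have haprod := n_prod hD hn
  have hPd : ∀ c, P π e v c ∣ ((d c : ℕ) : Ei) := by
    intro c
    have hQ : (∏ i ∈ univ.filter (fun i => v (some i) = c), π i ^ (e i).val) ∣
        ((d c : ℕ) : Ei) := by
      refine Finset.prod_dvd_of_isRelPrime ?_ ?_
      · intro i _ j _ hij
        refine IsRelPrime.pow ?_
        exact ((h.pq i).prime.irreducible.isRelPrime_iff_not_dvd).2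
          (h.nd j i (fun h' => hij h'.symm))
      · intro i hi
        have hvi : v (some i) = c := (mem_filter.1 hi).2
        have h1 : π i ^ (e i).val ∣ (m : Ei) := (dvd_D_iff hD _).2 ((pow_dvd h i _).2 le_rfl)
        have h2 : π i ^ (e i).val ∣ ((3 * m : ℕ) : Ei) := by
          push_cast
          exact h1.mul_left 3
        rw [← hdprod, Nat.cast_prod, ← Finset.mul_prod_erase univ _ (mem_univ c)] at h2
        refine (h.pq i).prime.pow_dvd_of_dvd_mul_right _ ?_ h2
        intro h2
        obtain ⟨c', hc', h3⟩ := ((h.pq i).prime.dvd_finsetProd_iff _).1 h2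
        exact (Finset.mem_erase.1 hc').1 (by rw [← hvi, huniq i c' h3])
    unfold P
    have h3 : th v c ∣ ((d c : ℕ) : Ei) := by
      unfold th
      split_ifs with hc
      · rw [← hc]
        obtain ⟨t, ht⟩ := hv3
        rw [ht]
        push_cast
        exact dvd_mul_right _ _
      · exact one_dvd _
    refine IsRelPrime.mul_dvd ?_ h3 hQ
    refine IsRelPrime.prod_right fun i _ => ?_
    refine IsRelPrime.pow_right ?_
    exact (((h.pq i).prime.irreducible.isRelPrime_iff_not_dvd).2 (nd_th h v c i)).symm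
  have hdn : ∀ c, (n c).natAbs = d c := by
    have h1 : ∀ c, (n c).natAbs ∣ d c := by
      intro c
      have h2 := hPd c
      rw [hn, nat_int] at h2
      have h3 := Pool.Agent.Y692.QS.int_dvd_int.1 h2
      exact Int.natAbs_dvd_natAbs.2 h3 |>.trans (by rw [Int.natAbs_natCast])
    intro c
    by_contra hne
    have h2 : (n c).natAbs < d c :=
      lt_of_le_of_ne (Nat.le_of_dvd (Nat.pos_of_ne_zero (hd0 c)) (h1 c)) hne
    have h3 : ∏ c, (n c).natAbs < ∏ c, d c := by
      refine Finset.prod_lt_prod (fun c' _ => ?_) (fun c' _ =>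
        Nat.le_of_dvd (Nat.pos_of_ne_zero (hd0 c')) (h1 c')) ⟨c, mem_univ _, h2⟩
      refine Nat.pos_of_ne_zero fun h0 => ?_
      have h4 := h1 c'
      rw [h0] at h4
      exact hd0 c' (Nat.eq_zero_of_zero_dvd h4)
    rw [haprod, hdprod] at h3
    exact lt_irrefl _ h3
  refine ⟨v, ?_, ?_⟩
  · intro j
    rw [← csP_eq h]
    set c := v (some j) with hc
    have hprime := (h.pq j).prime
    have h9 := (h.pq j).norm
    have hc1 : v (some j) ≠ c + 1 := by
      rw [← hc]
      exact (by decide : ∀ c : ZMod 3, c ≠ c + 1) c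
    have hc2 : v (some j) ≠ c + 2 := by
      rw [← hc]
      exact (by decide : ∀ c : ZMod 3, c ≠ c + 2) c
    have a1 := (cs_P h hc1).1
    have b1 := (cs_P h hc2).1
    have b1' : ¬ π j ∣ P π e v (c + 2) ^ 2 := fun h => b1 (hprime.dvd_of_dvd_pow h)
    have hnd12 : ¬ π j ∣ P π e v (c + 1) * P π e v (c + 2) ^ 2 := fun h => by
      rcases hprime.dvd_or_dvd h with h | h
      · exact a1 h
      · exact b1' h
    rw [Pool.Agent.Y715.T.RecG.cs_zero_iff hprime h9 hnd12]
    obtain ⟨l, hl, hdl, hn3, hz⟩ := below (h.pq j)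
    have hld : l ∣ d c := by
      have := hv j
      rw [nat_int, hz] at this
      exact_mod_cast this
    obtain ⟨x, hx⟩ := hloc c l hl hld
    have e2 : ((d (c + 2) : ℕ) : ℤ) ^ 2 = n (c + 2) ^ 2 := by
      rw [← hdn]
      exact Int.natAbs_sq _
    rw [e2] at hx
    rcases Int.natAbs_eq (n (c + 1)) with h10 | h10
    · refine ⟨(x : Ei), ?_⟩
      have e1 : ((d (c + 1) : ℕ) : ℤ) = n (c + 1) := by rw [← hdn]; exact h10.symm
      rw [e1] at hx
      have h11 := (hz _).2 hx
      rw [hn, hn]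
      push_cast at h11
      exact h11
    · refine ⟨((-x : ℤ) : Ei), ?_⟩
      have e1 : ((d (c + 1) : ℕ) : ℤ) = -n (c + 1) := by
        rw [← hdn]
        omega
      rw [e1] at hx
      have h11 : (l : ℤ) ∣ n (c + 1) * n (c + 2) ^ 2 - (-x) ^ 3 := by
        have e3 : n (c + 1) * n (c + 2) ^ 2 - (-x) ^ 3 =
            -(-n (c + 1) * n (c + 2) ^ 2 - x ^ 3) := by ring
        rw [e3]
        exact hx.neg_right
      have h12 := (hz _).2 h11
      rw [hn, hn]
      push_cast at h12 ⊢
      exact h12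
  · by_contra hcon
    push Not at hcon
    obtain ⟨c', hc', hd'⟩ := hnc (v none)
    apply hd'
    have h1 : P π e v c' = 1 := by
      unfold P th
      rw [if_neg (fun h => hc' h.symm), one_mul, Finset.filter_false_of_mem, Finset.prod_empty]
      intro i _ hi
      exact hc' (by rw [← hi, hcon])
    rw [← hdn]
    have h2 : n c' = 1 := by
      have h3 := hn c'
      rw [h1] at h3
      have h4 := congrArg QuadraticAlgebra.re h3
      rw [QuadraticAlgebra.re_intCast, QuadraticAlgebra.re_one] at h4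
      exact_mod_cast h4.symm
    rw [h2]
    rfl

/-- the converse of the criterion -/
theorem cri' (hm : Cls3 m) (hNS : ¬ NoSplit (3 * m)) (h : Dt π e)
    (hD : (m : Ei) = pD π e ∨ (m : Ei) = -pD π e) : ¬ KerC π e := by
  intro hK
  obtain ⟨v, hv, i, hi⟩ := even_vec hm hNS h hD
  exact hi (hK v hv i)

end Pool.Agent.H462.N9.Cri
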