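import Pool.Agent.H462.N9.Crit
import Pool.Agent.H462.N9.Cri
import Pool.Graph.R_seed8.Y703.CT.T1c

/-!
# The theorem for one curve `y² + 3 m y = x³`
-/

set_option autoImplicit false
set_option linter.unusedSectionVars false
set_option linter.unusedVariables false

open scoped Classical

namespace Pool.Agent.H462.N9.One

open WeierstrassCurve
open Pool.Agent.Y692.QS (Ei w toC nr)
open Pool.Agent.Y703.CT
open Pool.Agent.TH841.SH.D (Sha)
open Pool.Agent.Y696 (Cur)
open Pool.Agent.Y700 (psi Omega SingRed E0 tam S_E0)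
open Pool.Agent.W97.MT (affCount ap IsGloballyMinimal)
open Pool.Agent.Y715.T.Rec (cs)
open Pool.Agent.Y715.T.Three (lam sq_three v_two lam_ne lam_lt lam_ne' lam_pos)
open Pool.Agent.Y715.T.Om (Om Om_pos exists_lat)
open Pool.Agent.Y715.T.Cg (Cg z_pow)
open Pool.Agent.H462.N9.Chr (nn)
open Pool.Agent.H462.N9.Sel (K9 KerC)
open Pool.Agent.H462.N9.LQ (D9)
open Pool.Agent.H462.N9.Main (Ker9 ex_cm)
open Pool.Agent.H462.N9.Val (IsHL9 lb an_val)
open Pool.Agent.H462.N9.Tam
open Pool.Agent.H462.CTU.Eng (G gd)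

variable {J : Type} [Fintype J] {π : J → Ei} {e : J → ZMod 3}

/-- the two forms of the condition on the kernel -/
lemma kerC_iff (hD : Dt π e) : KerC π e ↔ Ker9 π e := by
  have hrec := Pool.Agent.Y350.CT.rec
  have key : ∀ (v : Option J → ZMod 3) (j : J),
      nn (π j) * (v none - v (some j)) + ∑ i, e i * cs (π j) (π i) * (v (some i) - v (some j)) =
      -(nn (π j) * (v (some j) - v none) +
        ∑ i, e i * cs (π i) (π j) * (v (some j) - v (some i))) := by
    intro v j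
    have h2 : ∑ i, e i * cs (π j) (π i) * (v (some i) - v (some j)) =
        -∑ i, e i * cs (π i) (π j) * (v (some j) - v (some i)) := by
      rw [← Finset.sum_neg_distrib]
      refine Finset.sum_congr rfl fun i _ => ?_
      by_cases hij : i = j
      · rw [hij, sub_self, mul_zero, neg_zero]
      · rw [hrec (π i) (π j) (hD.pq i) (hD.pq j) (hD.nd i j hij)]
        ring
    rw [h2]
    ring
  constructor
  · intro hK v hv i
    refine hK v (fun j => ?_) i
    rw [key, hv j, neg_zero]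
  · intro hK v hv i
    refine hK v (fun j => ?_) i
    have h1 := hv j
    rw [key, neg_eq_zero] at h1
    exact h1

/-- the valuation of the value, both cases -/
theorem an_both [Nonempty J] (h : Dt π e) :
    ∃ F : ℂ → ℂ, IsHL9 π (fun i => -e i) F ∧
      ∀ (Γ : Type) [LinearOrderedCommGroupWithZero Γ] (v : Valuation ℂ Γ), v 3 < 1 →
        ∀ (L : PeriodPair) (Ω : ℂ), Cur L Ω → ∃ g : Γ, g ≤ 1 ∧ (Ker9 π e → g = 1) ∧
          (¬ Ker9 π e → g < 1) ∧
          v ((starRingEnd ℂ) (F 1) / Ω) ^ 3 * v lam ^ 5 = v lam ^ (3 * Fintype.card J) * g ^ 3 := by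
  have hrec := Pool.Agent.Y350.CT.rec
  have h' : Dt π (fun i => -e i) := ⟨h.pq, h.nd, fun j => neg_ne_zero.2 (h.e0 j)⟩
  obtain ⟨F, hF, hval⟩ := an_val h' (fun i => -e i * lb π i)
  refine ⟨F, hF, ?_⟩
  have hε : ∀ o : Option J, (fun o : Option J => o.elim (1 : ZMod 3) (fun i => -e i)) o ≠ 0 := by
    intro o
    cases o with
    | none => exact one_ne_zero
    | some i => exact h'.e0 i
  have hsym : ∀ o o' : Option J, o ≠ o' →
      (fun o : Option J => o.elim (1 : ZMod 3) (fun i => -e i)) o *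
        Pool.Agent.H462.CTU.Eng.am (am π (fun i => -e i)) (lb π) (fun i => -e i * lb π i) o o' =
      (fun o : Option J => o.elim (1 : ZMod 3) (fun i => -e i)) o' *
        Pool.Agent.H462.CTU.Eng.am (am π (fun i => -e i)) (lb π) (fun i => -e i * lb π i) o' o := by
    intro o o' hoo
    cases o with
    | none =>
      cases o' with
      | none => exact absurd rfl hoo
      | some i => show (1 : ZMod 3) * (-e i * lb π i) = -e i * lb π i; rw [one_mul]
    | some i =>
      cases o' with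
      | none => show -e i * lb π i = (1 : ZMod 3) * (-e i * lb π i); rw [one_mul]
      | some j =>
        show -e i * am π (fun i => -e i) i j = -e j * am π (fun i => -e i) j i
        have hij : i ≠ j := fun h0 => hoo (by rw [h0])
        unfold Pool.Agent.Y703.CT.am
        rw [hrec (π i) (π j) (h.pq i) (h.pq j) (h.nd i j hij)]
        ring
  -- the form of the equations
  have hrow : ∀ (v : Option J → ZMod 3) (i : J),
      (∑ o, Pool.Agent.H462.CTU.Eng.am (am π (fun i => -e i)) (lb π) (fun i => -e i * lb π i)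
        (some i) o * (v (some i) - v o)) =
      nn (π i) * (v (some i) - v none) +
        ∑ j, e j * cs (π j) (π i) * (v (some i) - v (some j)) := by
    intro v i
    rw [Fintype.sum_option]
    congr 1
    refine Finset.sum_congr rfl fun j _ => ?_
    show am π (fun i => -e i) i j * _ = _
    unfold Pool.Agent.Y703.CT.am
    ring
  have hG1 : Ker9 π e → G (am π (fun i => -e i)) (lb π) (fun i => -e i * lb π i)
      Finset.univ ≠ 0 := by
    intro hK
    unfold Pool.Agent.H462.CTU.Eng.G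
    refine Pool.Agent.Y715.T.Comb.D_ne (ε := fun o => o.elim 1 (fun i => -e i)) ?_ ?_ ?_ ?_ ?_
    · exact ⟨none, by simp⟩
    · exact fun o _ => hε o
    · exact fun o _ o' _ hoo => hsym o o' hoo
    · intro v hv
      have h1 : ∀ i, v (some i) = v none := by
        apply hK v
        intro i
        have h2 := hv (some i) (by simp)
        rw [← hrow v i, ← h2]
        exact Finset.sum_congr (by ext; simp) fun _ _ => rfl
      intro o _ o' _
      cases o with
      | none =>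
        cases o' with
        | none => rfl
        | some j => exact (h1 j).symm
      | some i =>
        cases o' with
        | none => exact h1 i
        | some j => rw [h1 i, h1 j]
    · rw [Finset.sum_insertNone]
      have h1 : ∑ i : J, (fun o : Option J => o.elim (1 : ZMod 3) (fun i => -e i)) (some i) *
          gd J (some i) = 0 := by
        refine Finset.sum_eq_zero fun i _ => ?_
        show _ * (0 : ZMod 3) = 0
        rw [mul_zero]
      rw [h1, add_zero]
      show (1 : ZMod 3) * 1 ≠ 0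
      decide
  have hG0 : ¬ Ker9 π e → G (am π (fun i => -e i)) (lb π) (fun i => -e i * lb π i)
      Finset.univ = 0 := by
    intro hK
    unfold Pool.Agent.H462.CTU.Eng.G
    have hun : Finset.insertNone (Finset.univ : Finset J) = Finset.univ := by
      ext o
      simp
    rw [hun]
    refine Pool.Agent.Y319.CT.t_DZ (Option J) _ _ _ inferInstance hε hsym ?_
    intro hcon
    apply hK
    intro v hv i
    refine hcon v (fun o => ?_) (some i) none
    -- the equation at the additional node follows from the others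
    have hall : ∀ i : J, ∑ o, Pool.Agent.H462.CTU.Eng.am (am π (fun i => -e i)) (lb π)
        (fun i => -e i * lb π i) (some i) o * (v (some i) - v o) = 0 := by
      intro i
      rw [hrow v i]
      exact hv i
    cases o with
    | some i => exact hall i
    | none =>
      set A := Pool.Agent.H462.CTU.Eng.am (am π (fun i => -e i)) (lb π) (fun i => -e i * lb π i)
        with hA
      set ε : Option J → ZMod 3 := fun o => o.elim (1 : ZMod 3) (fun i => -e i) with hεd
      have h1 : ∑ o, ∑ o', ε o * A o o' * (v o - v o') =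
          ∑ o, ∑ o', ε o * A o o' * (v o' - v o) := by
        rw [Finset.sum_comm]
        refine Finset.sum_congr rfl fun o _ => Finset.sum_congr rfl fun o' _ => ?_
        by_cases hoo : o = o'
        · rw [hoo, sub_self]
        · rw [show ε o' * A o' o = ε o * A o o' from (hsym o o' hoo).symm]
      have h2 : ∑ o, ∑ o', ε o * A o o' * (v o' - v o) =
          -∑ o, ∑ o', ε o * A o o' * (v o - v o') := by
        rw [← Finset.sum_neg_distrib]
        refine Finset.sum_congr rfl fun i _ => ?_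
        rw [← Finset.sum_neg_distrib]
        exact Finset.sum_congr rfl fun o _ => by ring
      rw [h2] at h1
      have h3 : ∀ x : ZMod 3, x = -x → x = 0 := by decide
      have h4 := h3 _ h1
      have h5 : ∀ o, ∑ o', ε o * A o o' * (v o - v o') = ε o * ∑ o', A o o' * (v o - v o') := by
        intro o
        rw [Finset.mul_sum]
        exact Finset.sum_congr rfl fun _ _ => by ring
      rw [Fintype.sum_option, Finset.sum_eq_zero (s := (Finset.univ : Finset J))
        (f := fun i => ∑ o', ε (some i) * A (some i) o' * (v (some i) - v o'))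
        (fun i _ => by rw [h5, hall i, mul_zero]), add_zero, h5] at h4
      have h6 : ε none = 1 := rfl
      rw [h6, one_mul] at h4
      exact h4
  intro Γ _ v hv L Ω hC
  obtain ⟨u, hu, hCm⟩ := ex_cm hC
  obtain ⟨s, hs1, hs2⟩ := hval Γ v hv L _ hCm
  have hvu : v u = 1 := Pool.Agent.Y715.T.Cg.z_pow three_pos hu
  have e1 : v ((starRingEnd ℂ) (F 1) / (u * Ω)) = v ((starRingEnd ℂ) (F 1) / Ω) := by
    rw [map_div₀, map_div₀, map_mul, hvu, one_mul]
  rw [e1] at hs2
  refine ⟨v s, hs1.le, fun hK => hs1.eq_one hv (hG1 hK), fun hK => ?_, hs2⟩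
  have h0 := hG0 hK
  rw [h0] at hs1
  exact hs1.lt_one

/-- the value up to the real period `Om` -/
lemma val_real9 {K : Prop} {n : ℕ} {F : ℂ → ℂ}
    (hval : ∀ (Γ : Type) [LinearOrderedCommGroupWithZero Γ] (v : Valuation ℂ Γ), v 3 < 1 →
        ∀ (L : PeriodPair) (Ω : ℂ), Cur L Ω → ∃ g : Γ, g ≤ 1 ∧ (K → g = 1) ∧ (¬ K → g < 1) ∧
          v ((starRingEnd ℂ) (F 1) / Ω) ^ 3 * v lam ^ 5 = v lam ^ n * g ^ 3)
    {Γ : Type} [LinearOrderedCommGroupWithZero Γ] {v : Valuation ℂ Γ}
    (hv : v 3 < 1) : ∃ g : Γ, g ≤ 1 ∧ (K → g = 1) ∧ (¬ K → g < 1) ∧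
      v (F 1 / Om) ^ 3 * v lam ^ 5 = v lam ^ n * g ^ 3 := by
  obtain ⟨L, ξ, hξ, hL⟩ := exists_lat
  have hv' : (v.comap (starRingEnd ℂ)) 3 < 1 := by
    rw [Valuation.comap_apply, map_ofNat]
    exact hv
  obtain ⟨g, hg1, hg2, hg3, h1⟩ := hval Γ (v.comap (starRingEnd ℂ)) hv' L _ hL
  refine ⟨g, hg1, hg2, hg3, ?_⟩
  have hξv : v ((starRingEnd ℂ) ξ) = 1 := by
    refine z_pow (k := 12) (by norm_num) ?_
    rw [← map_pow, hξ, map_one]
  have h2 : (v.comap (starRingEnd ℂ)) lam = v lam := by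
    rw [Valuation.comap_apply, conj_lam, v.map_neg]
  rw [h2] at h1
  rw [← h1]
  congr 2
  rw [Valuation.comap_apply, map_div₀ (starRingEnd ℂ), Complex.conj_conj,
    map_mul (starRingEnd ℂ), Complex.conj_ofReal, map_div₀, map_div₀, map_mul, hξv, mul_one]

/-- `D = 3 m` -/
lemma d9_of {m : ℕ} (hDp : (m : Ei) = pD π e ∨ (m : Ei) = -pD π e) :
    D9 π e ((3 * m : ℕ) : Ei) := by
  rcases hDp with h | h
  · left
    push_cast
    rw [h]
  · right
    push_cast
    rw [h]
    ring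

lemma pw_eq {M : Type} [CommMonoid M] (x g : M) (t : ℕ) :
    x ^ (3 * (2 * t)) * g ^ 3 * (x ^ 4) ^ 3 * x ^ 2 =
      g ^ 3 * (x ^ 3 * ((x ^ 2) ^ (t + 1)) ^ 3) * x ^ 5 := by
  have h1 : x ^ (3 * (2 * t)) * g ^ 3 * (x ^ 4) ^ 3 * x ^ 2 =
      g ^ 3 * (x ^ (3 * (2 * t)) * x ^ (4 * 3) * x ^ 2) := by
    rw [pow_mul x 4 3]
    ac_rfl
  have h2 : g ^ 3 * (x ^ 3 * ((x ^ 2) ^ (t + 1)) ^ 3) * x ^ 5 =
      g ^ 3 * (x ^ 3 * x ^ (2 * (t + 1) * 3) * x ^ 5) := by
    rw [pow_mul x (2 * (t + 1)) 3, pow_mul x 2 (t + 1)]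
    ac_rfl
  rw [h1, h2, ← pow_add, ← pow_add, ← pow_add, ← pow_add]
  congr 2
  ring

/-- the normalized value -/
theorem value {m : ℕ} (hm : Cls3 m) [Nonempty J] (hD : Dt π e)
    (hDp : (m : Ei) = pD π e ∨ (m : Ei) = -pD π e) :
    ∃ f, IsL (WD ((3 * m : ℕ) : ℤ)) f ∧ ∃ u : ℂ,
      f 1 = u * (((Omega (WD ((3 * m : ℕ) : ℤ)) : ℝ) : ℂ) *
        (tamProd (WD ((3 * m : ℕ) : ℤ)) : ℂ) / 9) ∧
      ∀ (Γ : Type) [LinearOrderedCommGroupWithZero Γ] (v : Valuation ℂ Γ), v 3 < 1 →
        v u ≤ 1 ∧ (KerC π e → v u = 1) ∧ (¬ KerC π e → v u < 1) := by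
  obtain ⟨F, hF, hval⟩ := an_both hD
  have hL : IsL (WD ((3 * m : ℕ) : ℤ)) F := by
    refine LQ.LQ (D := ((3 * m : ℕ) : ℤ)) Pool.Agent.Y350.CT.rec hD ?_ hF
    rw [Int.cast_natCast]
    exact d9_of hDp
  refine ⟨F, hL, ?_⟩
  have hm0 := hm.1
  -- periods and Tamagawa numbers
  have hper := Pool.Agent.Y333.CT.per (3 * m) (by omega)
  have htam := tam9 hm
  have hcnt := cnt9 hm hD hDp
  set R : ℝ := ((3 * m : ℕ) : ℝ) ^ (1 / 3 : ℝ) with hR
  have hDpos : (0 : ℝ) < ((3 * m : ℕ) : ℝ) := by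
    have : 0 < 3 * m := by omega
    exact_mod_cast this
  have hR3 : R ^ 3 = ((3 * m : ℕ) : ℝ) := by
    rw [hR, ← Real.rpow_natCast, ← Real.rpow_mul hDpos.le]
    norm_num
  have hRpos : 0 < R := Real.rpow_pos_of_pos hDpos _
  have hOm := Om_pos
  have hper' : Omega (WD ((3 * m : ℕ) : ℤ)) = √3 * Om / R := hper
  set y : ℂ := ((Omega (WD ((3 * m : ℕ) : ℤ)) : ℝ) : ℂ) *
    (tamProd (WD ((3 * m : ℕ) : ℤ)) : ℂ) / 9 with hy
  set t := m.primeFactors.card with ht
  have hy1 : y = ((√3 : ℝ) : ℂ) * (Om : ℂ) / (R : ℂ) * 3 ^ (t + 1) / 9 := by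
    rw [hy, hper', htam]
    push_cast
    ring
  have hs3 : ((√3 : ℝ) : ℂ) ≠ 0 := by
    rw [Ne, Complex.ofReal_eq_zero]
    positivity
  have hOmC : (Om : ℂ) ≠ 0 := by
    rw [Ne, Complex.ofReal_eq_zero]
    exact hOm.ne'
  have hRC : (R : ℂ) ≠ 0 := by
    rw [Ne, Complex.ofReal_eq_zero]
    exact hRpos.ne'
  have hy0 : y ≠ 0 := by
    rw [hy1]
    exact div_ne_zero (mul_ne_zero (div_ne_zero (mul_ne_zero hs3 hOmC) hRC)
      (pow_ne_zero _ three_ne_zero)) (by norm_num)
  refine ⟨F 1 / y, by field_simp, ?_⟩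
  intro Γ _ v hv
  obtain ⟨g, hg1, hg2, hg3, hg⟩ := val_real9 hval hv
  have hvs : v ((√3 : ℝ) : ℂ) = v lam := by
    have h1 : ((√3 : ℝ) : ℂ) ^ 2 = 3 := by
      rw [← Complex.ofReal_pow, Real.sq_sqrt (by norm_num)]
      norm_num
    have h2 : v ((√3 : ℝ) : ℂ) ^ 2 = v lam ^ 2 := by
      rw [← map_pow, h1, pow_two, sq_three]
    exact (pow_left_inj₀ zero_le zero_le two_ne_zero).1 h2
  have hvR : v (R : ℂ) ^ 3 = v lam ^ 2 := by
    have h1 : (R : ℂ) ^ 3 = 3 * (m : ℂ) := by
      rw [← Complex.ofReal_pow, hR3]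
      push_cast
      ring
    rw [← map_pow, h1, map_mul, v_natp hv hm.three, mul_one, pow_two, sq_three]
  have hl : v lam ≠ 0 := lam_ne
  have hOv : v (Om : ℂ) ≠ 0 := (Valuation.ne_zero_iff _).2 hOmC
  have h3 : v (3 : ℂ) = v lam ^ 2 := by rw [pow_two, sq_three]
  have h9 : v (9 : ℂ) = v lam ^ 4 := Pool.Agent.Y715.T.Three.v_nine
  have key : v (F 1 / y) = g := by
    have h1 : v (F 1 / y) ^ 3 = g ^ 3 := by
      have e1 : v (F 1 / y) = v (F 1 / Om) * v lam ^ 4 * v (R : ℂ) /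
          (v lam * (v lam ^ 2) ^ (t + 1)) := by
        rw [hy1]
        simp only [map_div₀, map_mul, map_pow, hvs, h3, h9]
        have hRv : v (R : ℂ) ≠ 0 := (Valuation.ne_zero_iff _).2 hRC
        field_simp
      have e2 : v (F 1 / Om) ^ 3 = v lam ^ (3 * Fintype.card J) * g ^ 3 / v lam ^ 5 := by
        rw [eq_div_iff (pow_ne_zero _ hl)]
        exact hg
      rw [e1, div_pow, mul_pow, mul_pow, e2, hvR, hcnt]
      rw [mul_pow, div_eq_iff (mul_ne_zero (pow_ne_zero _ hl) (pow_ne_zero _ (pow_ne_zero _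
        (pow_ne_zero _ hl))))]
      rw [div_mul_eq_mul_div, div_mul_eq_mul_div, div_eq_iff (pow_ne_zero _ hl)]
      exact pw_eq _ _ _
    exact (pow_left_inj₀ zero_le zero_le three_ne_zero).1 h1
  rw [key]
  have hkc := kerC_iff hD
  exact ⟨hg1, fun hk => hg2 (hkc.1 hk), fun hk => hg3 fun h => hk (hkc.2 h)⟩

/-- **The theorem for one curve.** -/
theorem one {m : ℕ} (hm : Cls3 m) :
    IsGloballyMinimal (WD ((3 * m : ℕ) : ℤ)) ∧ ∃ f, IsL (WD ((3 * m : ℕ) : ℤ)) f ∧ ∃ u : ℂ,
      f 1 = u * (((Omega (WD ((3 * m : ℕ) : ℤ)) : ℝ) : ℂ) *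
        (tamProd (WD ((3 * m : ℕ) : ℤ)) : ℂ) / 9) ∧ ThreeInt u ∧
      (ThreeUnit u ↔ NoSplit (3 * m)) ∧
      (NoSplit (3 * m) → Finite (EQ (WD ((3 * m : ℕ) : ℤ))).toAffine.Point ∧
        padicValNat 3 (Nat.card (EQ (WD ((3 * m : ℕ) : ℤ))).toAffine.Point) = 1 ∧
        ∀ (n : ℕ) (x : Sha (EQ (WD ((3 * m : ℕ) : ℤ)))), 3 ^ n • x = 0 → x = 0) := by
  refine ⟨min9 hm, ?_⟩
  obtain ⟨n, π, e, hdt, hDp⟩ := Pool.Agent.Y274.CT.t_exi m hm.base
  have hcnt := cnt9 hm hdt hDp
  rw [Fintype.card_fin] at hcnt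
  have : Nonempty (Fin n) := ⟨⟨0, by
    have h1 : 0 < m.primeFactors.card := by
      rw [Finset.card_pos, Nat.nonempty_primeFactors]
      have := hm.1
      have := hm.2.1
      omega
    omega⟩⟩
  obtain ⟨f, hf, u, hu, hval⟩ := value hm hdt hDp
  have hks : NoSplit (3 * m) → KerC π e := fun hN => Cri.cri hm hN hdt hDp
  have hsk : ¬ NoSplit (3 * m) → ¬ KerC π e := fun hN => Cri.cri' hm hN hdt hDp
  refine ⟨f, hf, u, hu, threeInt_of fun Γ _ v hv => (hval Γ v hv).1, ?_, ?_⟩
  · constructor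
    · intro h1
      by_contra hN
      obtain ⟨B, hB'⟩ := Pool.Agent.Y715.T.Fin.exists_over_three
      have h2 := (hval _ B.valuation hB').2.2 (hsk hN)
      rw [h1.val hB'] at h2
      exact lt_irrefl _ h2
    · intro hN
      exact threeUnit_of fun Γ _ v hv => (hval Γ v hv).2.1 (hks hN)
  · intro hN
    exact Crit.descQ hdt (hks hN) (d9_of hDp)

end Pool.Agent.H462.N9.One
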