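import Pool.Agent.H462.N9.Sel
import Pool.Agent.H462.N9.Main
import Pool.Agent.H462.N9.LQ
import Pool.Graph.R_seed8.Y703.CT.T1
import Pool.Agent.H462.T1.A

/-!
# The curve `y² + D y = x³` over `ℚ` for `D = ± 3 ∏ π_i^{e_i}`
-/

set_option autoImplicit false
set_option linter.unusedSectionVars false
set_option linter.unusedVariables false

open scoped Classical

namespace Pool.Agent.H462.N9.Crit

open WeierstrassCurve
open Pool.Agent.Y692.QS (Ei w toC nr)
open Pool.Agent.Y703.CT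
open Pool.Agent.Y715.T.Gi Pool.Agent.Y715.T.Nr Pool.Agent.Y715.T.Df Pool.Agent.Y715.T.Ell
open Pool.Agent.TH841.SH.D (Sha)
open Pool.Agent.Y696 (Cur)
open Pool.Agent.Y715.T.Rec (cs)
open Pool.Agent.XL6
open Pool.Agent.H462.N9.Chr (nn)
open Pool.Agent.H462.N9.Sel
open Pool.Agent.H462.N9.LQ (D9)
open Pool.Agent.H462.N9.Main (Ker9)
open Pool.Agent.H462.N9.Val (IsHL9)
open Pool.Agent.H462.N9.Ram (ne9)

section desc

variable {i₀ : QB} {hi : i₀ ^ 2 + i₀ + 1 = 0}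
variable {J : Type} [Fintype J] [Nonempty J] {π : J → Ei} {e : J → ZMod 3}

/-- `D` is not a cube -/
lemma a_ne (hD : Dt π e) {u : QB} {a : GK i₀ → ZMod 3} (hT : Tw hi (3 * pD π e) u a) :
    ∃ σ, a σ ≠ 0 := by
  by_contra hcon
  push Not at hcon
  obtain ⟨j⟩ := (inferInstance : Nonempty J)
  have hb := kc_D hD hT
  obtain ⟨p, hp, ι, hl⟩ := exists_emb hi (hD.pq j).prime
  have hp3 := Pool.Agent.Y715.T.Sel.odd_of hi ι (hD.pq j).prime hl
    (Pool.Agent.Y48.CT.SEL.not_assoc_lam (hD.pq j))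
  have hcf : CF (el π (fun o => (ex e o).val)) :=
    cf_lam (Pool.Agent.Y48.CT.SEL.cf_prod hD e) (not_lam_prod hD _) (ZMod.val_lt _)
  refine Pool.Agent.Y715.T.Sel.not_dvd_of_unr hcf hb hp3 ι (hD.pq j).prime hl
    (fun τ σ _ _ => by rw [hcon σ, neg_zero]) ?_
  unfold el
  refine Dvd.dvd.mul_left ((dvd_pow_self (π j) ?_).trans
    (Finset.dvd_prod_of_mem (fun i => π i ^ (e i).val) (Finset.mem_univ j))) _
  rw [Ne, ZMod.val_eq_zero]
  exact hD.e0 j

theorem desc (hD : Dt π e) (hK : KerC π e)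
    {u : QB} {a : GK i₀ → ZMod 3} (hT : Tw hi (3 * pD π e) u a) : ShK hi a ∧ MwK hi a := by
  have hne := ne9 hD
  have hsel := sel1 Pool.Agent.Y350.CT.rec hD hK hT
  exact ⟨Pool.Agent.Y155.CT.t_SHK _ hne i₀ hi u a hT hsel,
    Pool.Agent.Y155.CT.t_MWK _ hne i₀ hi u a hT (a_ne hD hT) hsel⟩

end desc

variable {J : Type} [Fintype J] [Nonempty J] {π : J → Ei} {e : J → ZMod 3}

/-- the two forms of the condition on the kernel -/
lemma kerC_9 (hrec : S_REC) (hD : Dt π e) (hK : KerC π e) : Ker9 π e := by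
  intro v hv i
  refine hK v (fun j => ?_) i
  have h1 := hv j
  have h2 : ∑ i, e i * cs (π j) (π i) * (v (some i) - v (some j)) =
      -∑ i, e i * cs (π i) (π j) * (v (some j) - v (some i)) := by
    rw [← Finset.sum_neg_distrib]
    refine Finset.sum_congr rfl fun i _ => ?_
    by_cases hij : i = j
    · rw [hij, sub_self, mul_zero, neg_zero]
    · rw [hrec (π i) (π j) (hD.pq i) (hD.pq j) (hD.nd i j hij)]
      ring
  rw [h2]
  linear_combination -h1

/-- the arithmetic side over `ℚ` -/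
theorem descQ {D : ℕ} (hD : Dt π e) (hK : KerC π e) (hDp : D9 π e (D : Ei)) :
    Finite (EQ (WD D)).toAffine.Point ∧
    padicValNat 3 (Nat.card (EQ (WD D)).toAffine.Point) = 1 ∧
    ∀ (n : ℕ) (x : Sha (EQ (WD D))), 3 ^ n • x = 0 → x = 0 := by
  obtain ⟨i₀, hi⟩ : ∃ i₀ : QB, i₀ ^ 2 + i₀ + 1 = 0 := by
    obtain ⟨x, hx⟩ := IsAlgClosed.exists_root
      (Polynomial.X ^ 2 + Polynomial.X + 1 : Polynomial QB) (by
        have : (Polynomial.X ^ 2 + Polynomial.X + 1 : Polynomial QB).degree = 2 := by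
          compute_degree!
        rw [this]
        norm_num)
    refine ⟨x, ?_⟩
    have h1 := hx
    rw [Polynomial.IsRoot] at h1
    simpa using h1
  have hne : 3 * pD π e ≠ 0 := ne9 hD
  obtain ⟨u, a, hT⟩ := exists_tw hi hne
  obtain ⟨h1, h2⟩ := desc hD hK hT
  have hD0 : (D : ℤ) ≠ 0 := by
    intro h0
    have h3 : (D : Ei) = 0 := by
      have : ((D : ℤ) : Ei) = 0 := by rw [h0]; exact Int.cast_zero
      simpa using this
    rcases hDp with h | h
    · exact hne (by rw [← h, h3])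
    · exact hne (by rw [← neg_eq_zero, ← h, h3])
  rcases hDp with h | h
  · have hT' : Tw hi ((D : ℤ) : Ei) u a := by
      have e1 : ((D : ℤ) : Ei) = 3 * pD π e := by rw [Int.cast_natCast, h]
      rw [e1]
      exact hT
    exact Pool.Agent.Y692.CT.desq D hD0 i₀ hi u a hT' h1 h2
  · have hT' : Tw hi ((D : ℤ) : Ei) (-u) a := by
      have e1 : ((D : ℤ) : Ei) = -(3 * pD π e) := by rw [Int.cast_natCast, h]
      rw [e1]
      refine ⟨?_, fun σ => ?_⟩
      · rw [Odd.neg_pow (by decide), hT.cube, map_neg]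
      · rw [map_neg, hT.act σ]
        ring
    exact Pool.Agent.Y692.CT.desq D hD0 i₀ hi (-u) a hT' h1 h2

/-- the analytic side over `ℚ` -/
theorem anQ {D : ℕ} (hD : Dt π e) (hK : KerC π e) (hDp : D9 π e (D : Ei)) :
    ∃ F : ℂ → ℂ, IsL (WD D) F ∧ F 1 ≠ 0 ∧
      ∀ (Γ : Type) [LinearOrderedCommGroupWithZero Γ] (v : Valuation ℂ Γ), v 3 < 1 →
        ∀ (L : PeriodPair) (Ω : ℂ), Cur L Ω →
          v ((starRingEnd ℂ) (F 1) / Ω) ^ 3 * v Pool.Agent.Y715.T.Three.lam ^ 5 =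
            v Pool.Agent.Y715.T.Three.lam ^ (3 * Fintype.card J) := by
  obtain ⟨F, hF, h1, h2⟩ := Main.an_main Pool.Agent.Y350.CT.rec hD
    (kerC_9 Pool.Agent.Y350.CT.rec hD hK)
  refine ⟨F, LQ.LQ (D := (D : ℤ)) Pool.Agent.Y350.CT.rec hD ?_ hF, h1, h2⟩
  rw [Int.cast_natCast]
  exact hDp

/-- the continuation in general -/
theorem anQ' {D : ℕ} (hD : Dt π e) (hDp : D9 π e (D : Ei)) :
    ∃ F : ℂ → ℂ, IsL (WD D) F := by
  have hD' : Dt π (fun i => -e i) := ⟨hD.pq, hD.nd, fun j => neg_ne_zero.2 (hD.e0 j)⟩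
  obtain ⟨F, hF, -⟩ := Val.an_val hD' (fun _ => 0)
  refine ⟨F, LQ.LQ (D := (D : ℤ)) Pool.Agent.Y350.CT.rec hD ?_ hF⟩
  rw [Int.cast_natCast]
  exact hDp

end Pool.Agent.H462.N9.Crit
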