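import Pool.Agent.H462.N9.Eng
import Pool.Agent.H462.CTU.Hec

/-!
# The Hecke characters with the cubic character modulo nine
-/

set_option autoImplicit false
set_option linter.unusedSectionVars false

open Filter
open scoped Classical Topology PeriodPair

namespace Pool.Agent.H462.N9.Hec

open Pool.Agent.Y692.QS (Ei w nr toC)
open Pool.Agent.Y703.CT
open Pool.Agent.W192.HK Pool.Agent.TH936.CM Pool.Agent.TH936.PU
open Pool.Agent.W192.CM (nu)
open Pool.Agent.Y715.Dist Pool.Agent.Y715.Idn Pool.Agent.Y696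
open Pool.Agent.Y715.T.Rs (eq0)
open Pool.Agent.Y715.T.Lat (la la_coe)
open Pool.Agent.Y715.T.Three (lam lam_ne')
open Pool.Agent.Y703.CT.Ana (ej eo_j ej_u ej_ncop ej_prim)
open Pool.Agent.Y715.CT.Hec (cP XX X_mul X_per X_ne_iff X_cube X_one X_neg_one ex_j unitG nd_unit
  X_ne_cop cP_ne cop3 prime_la la_ne cop_la om_ne_one om2_ne_one)
open Pool.Agent.Y715.CT.AN1b (Xo_X conj_w conj_X)
open Pool.Agent.H462.CTU.Phi (tau)
open Pool.Agent.H462.N9.Phi Pool.Agent.H462.N9.Chr Pool.Agent.H462.N9.Tot

variable {J : Type} [Fintype J] {π : J → Ei} {e : J → ZMod 3}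

/-! ### the Hecke character -/

/-- the function on the elements -/
noncomputable def gg (π : J → Ei) (e : J → ZMod 3) (j : Fin 3) (α : eis) : ℂ :=
  (α : ℂ) * (starRingEnd ℂ) (e9 j α * XX π e α)

/-- the Hecke character -/
noncomputable def th (π : J → Ei) (e : J → ZMod 3) (j : Fin 3) (I : Ideal eis) : ℂ :=
  gg π e j (Submodule.IsPrincipal.generator I)

lemma cop_f9' {α : eis} : IsCoprime α f9 ↔ IsCoprime α 3 := by
  rw [isCoprime_comm, cop_f9, isCoprime_comm]

section T

variable (h : Dt π e) {j : Fin 3} (hj : om ^ (2 * (j : ℕ)) * XX π e omr = 1)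

include h

lemma gg_mul (α β : eis) : gg π e j (α * β) = gg π e j α * gg π e j β := by
  unfold gg
  rw [X_mul h, (eo_9 j).mul]
  push_cast
  simp only [map_mul]
  ring

include hj

lemma gg_unit {u : eis} (hu : IsUnit u) : gg π e j u = 1 := by
  unfold gg
  have h1 := unitG h hj hu
  have h2 : Complex.normSq (u : ℂ) = 1 := (isUnit_iff' u).1 hu
  have h3 : (u : ℂ) * (starRingEnd ℂ) (u : ℂ) = 1 := by
    rw [Complex.mul_conj, h2, Complex.ofReal_one]
  unfold e9
  rw [c9_unit hu, mul_one, ej_u j hu, pow_succ]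
  have h4 : (starRingEnd ℂ) ((u : ℂ) ^ (2 * (j : ℕ)) * XX π e u) = 1 := by rw [h1, map_one]
  rw [map_mul] at h4
  simp only [map_mul]
  linear_combination h3 * ((starRingEnd ℂ) ((u : ℂ) ^ (2 * (j : ℕ))) *
    (starRingEnd ℂ) (XX π e u)) + h4

lemma gg_assoc {α β : eis} (hab : Associated α β) : gg π e j α = gg π e j β := by
  obtain ⟨u, rfl⟩ := hab
  rw [gg_mul h, gg_unit h hj u.isUnit, mul_one]

lemma th_sp (α : eis) : th π e j (sp α) = gg π e j α := by
  refine gg_assoc h hj ?_
  rw [← Ideal.span_singleton_eq_span_singleton]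
  exact Ideal.span_singleton_generator _

omit hj in
lemma gg_zero_iff {α : eis} : gg π e j α = 0 ↔ (α = 0 ∨ ¬ IsCoprime α (f9 * cP π)) := by
  rw [IsCoprime.mul_right_iff, cop_f9', ← X_ne_cop h]
  unfold gg
  rw [mul_eq_zero, map_eq_zero, mul_eq_zero]
  have hck : c9 α ≠ 0 := c9_ne α
  have h1 : e9 j α = 0 ↔ ¬ IsCoprime α 3 := by
    unfold e9
    rw [mul_eq_zero]
    constructor
    · intro h1 h2
      rcases h1 with h1 | h1
      · obtain ⟨u, hu, hu3⟩ := cop_three h2
        rw [(eo_j j).per _ _ hu3, ej_u j hu] at h1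
        have h3 : (u : ℂ) = 0 := by
          by_contra h4
          exact pow_ne_zero _ h4 h1
        exact hu.ne_zero (coe_inj' h3)
      · exact hck h1
    · exact fun h2 => Or.inl (ej_ncop j h2)
  have h2 : (α : ℂ) = 0 ↔ α = 0 := by
    constructor
    · intro h3
      exact coe_inj' h3
    · rintro rfl
      rfl
  rw [h1, h2]
  tauto

omit hj in
lemma ex_div {q' : Ideal eis} (hq : sp (f9 * cP π) < q') :
    la * 3 * cP π ∈ q' ∨ ∃ i, f9 * cc (fun i => eq0 (π i)) (Finset.univ.erase i) ∈ q' := by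
  obtain ⟨d, rfl⟩ : ∃ d : eis, q' = sp d :=
    ⟨_, (Submodule.IsPrincipal.span_singleton_generator q').symm⟩
  obtain ⟨t, ht⟩ : d ∣ f9 * cP π := Ideal.span_singleton_le_span_singleton.1 hq.le
  have hne : f9 * cP π ≠ 0 := mul_ne_zero f9_ne (cP_ne h)
  have ht0 : t ≠ 0 := by
    rintro rfl
    rw [mul_zero] at ht
    exact hne ht
  have hnu : ¬ IsUnit t := by
    intro hu
    obtain ⟨v, hv⟩ := hu.exists_right_inv
    have h2 : f9 * cP π ∣ d := ⟨v, by rw [ht, mul_assoc, hv, mul_one]⟩
    have := Ideal.span_singleton_le_span_singleton.2 h2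
    exact absurd (le_antisymm hq.le this) hq.ne
  obtain ⟨ρ, hρ, s, hs⟩ := WfDvdMonoid.exists_irreducible_factor hnu ht0
  have hρ' := hρ.prime
  have hd : ρ ∣ f9 * cP π := ⟨d * s, by rw [ht, hs]; ring⟩
  rcases hρ'.dvd_or_dvd hd with h1 | h1
  · left
    have hla : ρ ∣ la := by
      unfold f9 at h1
      have h3 : ρ ∣ (3 : eis) := by
        rcases hρ'.dvd_or_dvd h1 with h2 | h2
        · exact h2
        · exact h2
      rw [Pool.Agent.Y715.CT.Hec.three_eq, dvd_neg] at h3
      rcases hρ'.dvd_or_dvd h3 with h2 | h2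
      · exact h2
      · exact h2
    obtain ⟨u, hu⟩ := hρ'.associated_of_dvd prime_la hla
    have h3 : ρ * (u * (la * 3 * cP π)) = ρ * (-(d * s)) := by
      have h5 : f9 * cP π = d * (ρ * s) := by rw [ht, hs]
      unfold f9 at h5
      have h6 := Pool.Agent.Y715.T.Lat.la_sq
      linear_combination (la * 3 * cP π) * hu - h5 + (3 * cP π) * h6
    have h4 := mul_left_cancel₀ hρ'.ne_zero h3
    rw [Ideal.mem_span_singleton']
    refine ⟨-s * (↑u⁻¹ : eis), ?_⟩
    have h5 : (↑u⁻¹ : eis) * u = 1 := u.inv_mul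
    linear_combination -(↑u⁻¹ : eis) * h4 + (la * 3 * cP π) * h5
  · right
    unfold cP cc at h1
    rw [hρ'.dvd_finsetProd_iff] at h1
    obtain ⟨i, -, hi⟩ := h1
    have hpi : Prime (eq0 (π i)) := (MulEquiv.prime_iff (eq0 : Ei ≃* eis)).2 (h.pq i).prime
    obtain ⟨u, hu⟩ := hρ'.associated_of_dvd hpi hi
    refine ⟨i, ?_⟩
    have hc : cP π = eq0 (π i) * cc (fun i => eq0 (π i)) (Finset.univ.erase i) := by
      unfold cP
      rw [← cc_insert (π := fun i => eq0 (π i)) (Finset.notMem_erase i Finset.univ),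
        Finset.insert_erase (Finset.mem_univ i)]
    have h3 : ρ * (u * (f9 * cc (fun i => eq0 (π i)) (Finset.univ.erase i))) =
        ρ * (d * s) := by
      have h5 : f9 * cP π = d * (ρ * s) := by rw [ht, hs]
      rw [hc, ← hu] at h5
      linear_combination h5
    have h4 := mul_left_cancel₀ hρ'.ne_zero h3
    rw [Ideal.mem_span_singleton']
    refine ⟨s * (↑u⁻¹ : eis), ?_⟩
    have h5 : (↑u⁻¹ : eis) * u = 1 := u.inv_mul
    linear_combination -(↑u⁻¹ : eis) * h4 +
      (f9 * cc (fun i => eq0 (π i)) (Finset.univ.erase i)) * h5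

/-- **The primitive Hecke character.** -/
theorem hc_th : HC 1 (sp (f9 * cP π)) (th π e j) := by
  refine ⟨?_, ?_, ?_, ?_, ?_⟩
  · rw [Ne, Ideal.span_singleton_eq_bot]
    exact mul_ne_zero f9_ne (cP_ne h)
  · intro I K
    obtain ⟨α, rfl⟩ : ∃ α : eis, I = sp α :=
      ⟨_, (Submodule.IsPrincipal.span_singleton_generator I).symm⟩
    obtain ⟨β, rfl⟩ : ∃ β : eis, K = sp β :=
      ⟨_, (Submodule.IsPrincipal.span_singleton_generator K).symm⟩
    have e1 : sp α * sp β = sp (α * β) := Ideal.span_singleton_mul_span_singleton α β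
    rw [e1, th_sp h hj, th_sp h hj, th_sp h hj, gg_mul h]
  · intro I
    obtain ⟨α, rfl⟩ : ∃ α : eis, I = sp α :=
      ⟨_, (Submodule.IsPrincipal.span_singleton_generator I).symm⟩
    rw [th_sp h hj, gg_zero_iff h, Ideal.span_singleton_eq_bot,
      Ideal.isCoprime_span_singleton_iff]
  · intro α _ hα
    rw [th_sp h hj, pow_one]
    unfold gg
    have h1 : α - 1 ∈ (sp f9 : Ideal eis) := sp_mul_le' hα
    have h2 : e9 j α = 1 := by
      rw [(eo_9 j).per _ _ h1, e9_prim j (by rw [sub_self]; exact Submodule.zero_mem _),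
        c9_unit isUnit_one]
    rw [h2, X_per h (sp_mul_le hα), X_one h, mul_one, map_one, mul_one]
  · intro q' hq
    have h3c : IsCoprime f9 (cP π) := cop_f9.2 (cop3 h)
    rcases ex_div h hq with h1 | ⟨i, h1⟩
    · obtain ⟨a, b, hab⟩ := h3c
      set α : eis := 1 + b * cP π * (la * 3) with hα
      have hα1 : α - 1 ∈ (sp (cP π) : Ideal eis) := by
        rw [Ideal.mem_span_singleton']
        exact ⟨b * (la * 3), by rw [hα]; ring⟩
      have hαf : α - (1 + 3 * (0 + la)) ∈ (sp f9 : Ideal eis) := by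
        rw [Ideal.mem_span_singleton']
        exact ⟨-(la * 3) * a, by rw [hα]; linear_combination (-(la * 3)) * hab⟩
      have hα3 : α - 1 ∈ (sp 3 : Ideal eis) := by
        rw [Ideal.mem_span_singleton']
        exact ⟨b * cP π * la, by rw [hα]; ring⟩
      have hX : XX π e α = 1 := by rw [X_per h hα1, X_one h]
      have hcop : IsCoprime α 3 := cop_of_unit isUnit_one hα3
      have hα0 : α ≠ 0 := prim_ne hα3
      refine ⟨α, hα0, ?_, ?_, ?_⟩
      · have e1 : α - 1 = b * (la * 3 * cP π) := by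
          rw [hα]
          ring
        rw [e1]
        exact q'.mul_mem_left _ h1
      · rw [Ideal.isCoprime_span_singleton_iff, IsCoprime.mul_right_iff, cop_f9', ← X_ne_cop h, hX]
        exact ⟨hcop, one_ne_zero⟩
      · rw [th_sp h hj, pow_one]
        unfold gg
        have h6 : e9 j α = om ^ 2 := by
          have h7 := c9_p 0
          rw [Int.cast_zero] at h7
          rw [(eo_9 j).per _ _ hαf, e9_prim j (prim3 _), h7]
        rw [hX, mul_one, h6]
        intro h2
        have h4 : (α : ℂ) ≠ 0 := fun h5 => hα0 (coe_inj' h5)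
        have h5 : (starRingEnd ℂ) (om ^ 2) = 1 := mul_left_cancel₀ h4 (by rw [h2, mul_one])
        have h6 := congrArg (starRingEnd ℂ) h5
        rw [Complex.conj_conj, map_one] at h6
        exact om2_ne_one h6
    · set P : J → eis := fun i => eq0 (π i) with hP
      set ci : eis := cc P (Finset.univ.erase i) with hci
      obtain ⟨g, hg0, hg⟩ := ex_ne (h.pq i)
      have hci3 : IsCoprime (f9 * ci) (P i) := by
        rw [IsCoprime.mul_left_iff]
        constructor
        · have := cop3 h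
          unfold cP cc at this
          rw [IsCoprime.prod_right_iff] at this
          exact cop_f9.2 (this i (Finset.mem_univ i))
        · exact ((Xc_fm h).cop_cc (Finset.notMem_erase i _)).symm
      obtain ⟨a, b, hab⟩ := hci3
      set α : eis := 1 + a * (f9 * ci) * (eq0 g - 1) with hα
      have hαf : α - 1 ∈ (sp f9 : Ideal eis) := by
        rw [Ideal.mem_span_singleton']
        exact ⟨a * ci * (eq0 g - 1), by rw [hα]; ring⟩
      have hα3 : α - 1 ∈ (sp 3 : Ideal eis) := sp_f9_three hαf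
      have hαk : ∀ k, k ≠ i → α - 1 ∈ (sp (P k) : Ideal eis) := by
        intro k hk
        have h2 : α - 1 ∈ (sp ci : Ideal eis) := by
          rw [Ideal.mem_span_singleton']
          exact ⟨a * f9 * (eq0 g - 1), by rw [hα]; ring⟩
        exact cc_mem (Finset.mem_erase.2 ⟨hk, Finset.mem_univ k⟩) h2
      have hαi : α - eq0 g ∈ (sp (P i) : Ideal eis) := by
        rw [Ideal.mem_span_singleton']
        exact ⟨-(eq0 g - 1) * b, by rw [hα]; linear_combination -(eq0 g - 1) * hab⟩
      have hX : XX π e α = Xc π e i (eq0 g) := by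
        unfold XX XT
        rw [← Finset.mul_prod_erase Finset.univ _ (Finset.mem_univ i), Finset.prod_eq_one, mul_one]
        · exact (Xc_fm h).per i _ _ hαi
        · intro k hk
          have h2 := (Xc_fm h).per k _ _ (hαk k (Finset.ne_of_mem_erase hk))
          rw [h2, Xc_of (nd_unit h isUnit_one k), map_one]
          have h4 := Pool.Agent.Y715.T.RecG.cs_one (h.pq k).prime (h.pq k).norm
          rw [h4, mul_zero, neg_zero, ZMod.val_zero, pow_zero]
      have hg1 : ¬ π i ∣ eq0.symm (eq0 g) := by rwa [RingEquiv.symm_apply_apply]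
      have hXg : Xc π e i (eq0 g) ≠ 1 := by
        rw [Xc_of hg1, RingEquiv.symm_apply_apply]
        intro h3
        have h4 : toC w ^ (-(e i * Pool.Agent.Y715.T.Rec.cs (π i) g)).val = toC w ^ 0 := by
          rw [h3, pow_zero]
        have h5 := Pool.Agent.Y715.T.Fin.w_pow_mod h4
        rw [ZMod.natCast_zmod_val, Nat.cast_zero, neg_eq_zero] at h5
        exact (mul_ne_zero (h.e0 i) hg) h5
      have hX0 : XX π e α ≠ 0 := by
        rw [hX, Xc_of hg1]
        exact pow_ne_zero _ (Pool.Agent.Y715.CT.Hec.w_ne h)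
      have hcop : IsCoprime α 3 := cop_of_unit isUnit_one hα3
      have hα0 : α ≠ 0 := prim_ne hα3
      refine ⟨α, hα0, ?_, ?_, ?_⟩
      · have e1 : α - 1 = (a * (eq0 g - 1)) * (f9 * ci) := by
          rw [hα]
          ring
        rw [e1]
        exact q'.mul_mem_left _ h1
      · rw [Ideal.isCoprime_span_singleton_iff, IsCoprime.mul_right_iff, cop_f9', ← X_ne_cop h]
        exact ⟨hcop, hX0⟩
      · rw [th_sp h hj, pow_one]
        unfold gg
        have h6 : e9 j α = 1 := by
          rw [(eo_9 j).per _ _ hαf, e9_prim j (by rw [sub_self]; exact Submodule.zero_mem _),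
            c9_unit isUnit_one]
        rw [hX, h6, one_mul]
        intro h2
        have h4 : (α : ℂ) ≠ 0 := fun h5 => hα0 (coe_inj' h5)
        have h5 : (starRingEnd ℂ) (Xc π e i (eq0 g)) = 1 :=
          mul_left_cancel₀ h4 (by rw [h2, mul_one])
        have h6 := congrArg (starRingEnd ℂ) h5
        rw [Complex.conj_conj, map_one] at h6
        exact hXg h6

end T

end Pool.Agent.H462.N9.Hec
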