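import Pool.Graph.R_seed8.Y696.CT.Pc
import Pool.Graph.R_seed8.Y700.VC

/-!
# The short equation `y² = x³ + 16 D²`
-/

set_option autoImplicit false
set_option linter.unusedVariables false

open scoped Classical

namespace Pool.Agent.H462.N9.Short

open Pool.Agent.Y703.CT
open Pool.Agent.W97.MT (ap)

/-- the discriminant -/
lemma wd_delta (D : ℤ) : (WD D).Δ = -27 * D ^ 4 := by
  simp only [WD, WeierstrassCurve.Δ, WeierstrassCurve.b₂, WeierstrassCurve.b₄,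
    WeierstrassCurve.b₆, WeierstrassCurve.b₈]
  ring

/-- the Euler product of the curve `y² = x³ + A x + B` -/
def IsLab (A B : ℤ) (f : ℂ → ℂ) : Prop :=
  Differentiable ℂ f ∧ ∀ s : ℂ, (3 : ℝ) / 2 < s.re →
      HasProd
        (fun p : {p : ℕ // p.Prime ∧ ¬ ((p : ℤ) ∣ 2 * (4 * A ^ 3 + 27 * B ^ 2))} =>
          ((1 : ℂ)
            - ((((p.1 : ℤ) - (Nat.card {q : ZMod p.1 × ZMod p.1 //
                  q.2 ^ 2 = q.1 ^ 3 + (A : ZMod p.1) * q.1 + (B : ZMod p.1)} : ℤ)) : ℤ) : ℂ)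
                * ((p.1 : ℂ) ^ (-s))
            + (p.1 : ℂ) ^ (1 - 2 * s))⁻¹)
        (f s)

lemma two_lt {s : ℂ} (hs : (3 : ℝ) / 2 < s.re) : (1 : ℂ) + (2 : ℂ) ^ (1 - 2 * s) ≠ 0 := by
  intro h
  have h1 : ‖(2 : ℂ) ^ (1 - 2 * s)‖ = (2 : ℝ) ^ (1 - 2 * s).re := by
    have := Complex.norm_cpow_eq_rpow_re_of_pos (show (0 : ℝ) < 2 by norm_num) (1 - 2 * s)
    simpa using this
  have h2 : (2 : ℂ) ^ (1 - 2 * s) = -1 := by linear_combination h
  rw [h2, norm_neg, norm_one] at h1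
  have h3 : (1 - 2 * s).re < 0 := by
    simp only [Complex.sub_re, Complex.one_re, Complex.mul_re, Complex.re_ofNat, Complex.im_ofNat,
      zero_mul, sub_zero]
    linarith
  have h4 : (2 : ℝ) ^ (1 - 2 * s).re < 1 := Real.rpow_lt_one_of_one_lt_of_neg (by norm_num) h3
  linarith

lemma fac2_diff : Differentiable ℂ fun s : ℂ => (1 : ℂ) + (2 : ℂ) ^ (1 - 2 * s) := by
  have h : Differentiable ℂ fun s : ℂ => (1 : ℂ) - 2 * s :=
    (differentiable_const 1).sub ((differentiable_const 2).mul differentiable_id)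
  exact (differentiable_const 1).add (fun s => (h s).const_cpow (Or.inl two_ne_zero))

/-- the Euler product of the short equation -/
theorem isL_short {D : ℕ} (h2 : ¬ 2 ∣ D) {f : ℂ → ℂ} (hf : IsL (WD (D : ℤ)) f) :
    IsLab 0 (16 * (D : ℤ) ^ 2) (fun s => f s * (1 + (2 : ℂ) ^ (1 - 2 * s))) := by
  refine ⟨hf.1.mul fac2_diff, fun s hs => ?_⟩
  have h1 := hf.2 s hs
  set P2 : Nat.Primes := ⟨2, Nat.prime_two⟩ with hP2
  have h3 := h1.mul (hasProd_ite_eq P2 ((1 : ℂ) + (2 : ℂ) ^ (1 - 2 * s)))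
  set ι : {p : ℕ // p.Prime ∧ ¬ ((p : ℤ) ∣ 2 * (4 * (0 : ℤ) ^ 3 + 27 * (16 * (D : ℤ) ^ 2) ^ 2))} →
    Nat.Primes := fun p => ⟨p.1, p.2.1⟩ with hι
  have hinj : Function.Injective ι := by
    intro p q h
    exact Subtype.ext (congrArg (fun x : Nat.Primes => (x : ℕ)) h)
  have hdvd : ∀ p : Nat.Primes, ((p : ℕ) : ℤ) ∣ 2 * (4 * (0 : ℤ) ^ 3 +
      27 * (16 * (D : ℤ) ^ 2) ^ 2) → p = P2 ∨ ((p : ℕ) : ℤ) ∣ (WD (D : ℤ)).Δ := by
    intro p hp
    by_cases hp2 : (p : ℕ) = 2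
    · left
      exact Subtype.ext hp2
    · right
      rw [wd_delta]
      have hpp : Prime ((p : ℕ) : ℤ) := Nat.prime_iff_prime_int.1 p.2
      have e : 2 * (4 * (0 : ℤ) ^ 3 + 27 * (16 * (D : ℤ) ^ 2) ^ 2) =
          2 ^ 9 * (27 * (D : ℤ) ^ 4) := by ring
      rw [e] at hp
      rcases hpp.dvd_or_dvd hp with h | h
      · exfalso
        have h4 := hpp.dvd_of_dvd_pow h
        have h5 : (p : ℕ) ∣ 2 := by exact_mod_cast h4
        exact hp2 ((Nat.prime_dvd_prime_iff_eq p.2 Nat.prime_two).1 h5)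
      · have : -27 * (D : ℤ) ^ 4 = -(27 * (D : ℤ) ^ 4) := by ring
        rw [this, dvd_neg]
        exact h
  have h4 := (Function.Injective.hasProd_iff hinj (f := fun p : Nat.Primes =>
    (1 - (ap (WD (D : ℤ)) p : ℂ) * ((p : ℕ) : ℂ) ^ (-s) +
      (if ((p : ℕ) : ℤ) ∣ (WD (D : ℤ)).Δ then 0 else ((p : ℕ) : ℂ) ^ (1 - 2 * s)))⁻¹ *
      (if p = P2 then ((1 : ℂ) + (2 : ℂ) ^ (1 - 2 * s)) else 1)) (a := f s *
        (1 + (2 : ℂ) ^ (1 - 2 * s))) ?_).2 h3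
  · refine (congrArg (fun g => HasProd g (f s * (1 + (2 : ℂ) ^ (1 - 2 * s)))) ?_).mpr h4
    funext p
    obtain ⟨p, hp, hnd⟩ := p
    have hfp : Fact (Nat.Prime p) := ⟨hp⟩
    have hp2 : p ≠ 2 := by
      rintro rfl
      exact hnd (by exact_mod_cast Dvd.intro _ rfl)
    have hP : (⟨p, hp⟩ : Nat.Primes) ≠ P2 := fun h =>
      hp2 (congrArg (fun x : Nat.Primes => (x : ℕ)) h)
    have hΔ : ¬ (p : ℤ) ∣ (WD (D : ℤ)).Δ := by
      intro h
      apply hnd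
      rw [wd_delta] at h
      have e : 2 * (4 * (0 : ℤ) ^ 3 + 27 * (16 * (D : ℤ) ^ 2) ^ 2) =
          (-27 * (D : ℤ) ^ 4) * (-2 ^ 9) := by ring
      rw [e]
      exact h.mul_right _
    have hs' := Pool.Agent.Y696.CT.ap_short (p := p) hp2 (D : ℤ)
    show _ = (1 - (ap (WD (D : ℤ)) p : ℂ) * ((p : ℕ) : ℂ) ^ (-s) +
      (if (p : ℤ) ∣ (WD (D : ℤ)).Δ then 0 else ((p : ℕ) : ℂ) ^ (1 - 2 * s)))⁻¹ *
      (if (⟨p, hp⟩ : Nat.Primes) = P2 then ((1 : ℂ) + (2 : ℂ) ^ (1 - 2 * s)) else 1)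
    rw [if_neg hP, if_neg hΔ, mul_one, hs']
    rfl
  · intro p hp
    have hp' : ((p : ℕ) : ℤ) ∣ 2 * (4 * (0 : ℤ) ^ 3 + 27 * (16 * (D : ℤ) ^ 2) ^ 2) := by
      by_contra hcon
      exact hp ⟨⟨p, p.2, hcon⟩, rfl⟩
    rcases hdvd p hp' with h | h
    · rw [if_pos h]
      have h2D : ¬ ((p : ℕ) : ℤ) ∣ (WD (D : ℤ)).Δ := by
        rw [h, wd_delta]
        intro h5
        have h6 : Prime ((2 : ℕ) : ℤ) := Nat.prime_iff_prime_int.1 Nat.prime_two
        have h7 : ((2 : ℕ) : ℤ) ∣ -27 * (D : ℤ) ^ 4 := h5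
        rcases h6.dvd_or_dvd h7 with h8 | h8
        · norm_num at h8
        · have h9 := h6.dvd_of_dvd_pow h8
          exact h2 (by exact_mod_cast h9)
      rw [if_neg h2D]
      have hap : ap (WD (D : ℤ)) (p : ℕ) = 0 := by
        rw [h]
        have : Fact (Nat.Prime 2) := ⟨Nat.prime_two⟩
        exact Pool.Agent.Y696.CT.ap_cube (Pool.Agent.Y696.CT.cube_two (by norm_num)) _
      rw [hap, h]
      push_cast
      rw [zero_mul, sub_zero]
      exact inv_mul_cancel₀ (two_lt hs)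
    · have hne : p ≠ P2 := by
        rintro rfl
        rw [wd_delta] at h
        have h6 : Prime ((2 : ℕ) : ℤ) := Nat.prime_iff_prime_int.1 Nat.prime_two
        have h7 : ((2 : ℕ) : ℤ) ∣ -27 * (D : ℤ) ^ 4 := h
        rcases h6.dvd_or_dvd h7 with h8 | h8
        · norm_num at h8
        · have h9 := h6.dvd_of_dvd_pow h8
          exact h2 (by exact_mod_cast h9)
      rw [if_neg hne, if_pos h, mul_one, add_zero]
      have hap : ap (WD (D : ℤ)) (p : ℕ) = 0 := by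
        have : Fact (Nat.Prime (p : ℕ)) := ⟨p.2⟩
        by_cases hD : ((p : ℕ) : ℤ) ∣ (D : ℤ)
        · exact Pool.Agent.Y696.CT.ap_bad hD
        · rw [wd_delta] at h
          have hpp : Prime ((p : ℕ) : ℤ) := Nat.prime_iff_prime_int.1 p.2
          have h8 := (hpp.dvd_or_dvd h).resolve_right fun h9 => hD (hpp.dvd_of_dvd_pow h9)
          have h9 : ((p : ℕ) : ℤ) ∣ 3 ^ 3 := by
            have : (3 : ℤ) ^ 3 = -(-27) := by norm_num
            rw [this, dvd_neg]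
            exact h8
          have h10 : (p : ℕ) ∣ 3 := by exact_mod_cast hpp.dvd_of_dvd_pow h9
          have h11 := (Nat.prime_dvd_prime_iff_eq p.2 Nat.prime_three).1 h10
          rw [h11]
          have : Fact (Nat.Prime 3) := ⟨Nat.prime_three⟩
          exact Pool.Agent.Y696.CT.ap_cube Pool.Agent.Y696.CT.cube_three _
      rw [hap]
      simp

/-- Q1 for the curve `y² = x³ + A x + B`: an entire function equal to the Euler product vanishes at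
`1` exactly when there are infinitely many rational points -/
def Q1 (A B : ℤ) : Prop := ∀ f : ℂ → ℂ, IsLab A B f →
  (f 1 = 0 ↔ {q : ℚ × ℚ | q.2 ^ 2 = q.1 ^ 3 + (A : ℚ) * q.1 + (B : ℚ)}.Infinite)

/-- uniqueness of the continuation -/
theorem isLab_unique {A B : ℤ} {f g : ℂ → ℂ} (hf : IsLab A B f) (hg : IsLab A B g) : f = g := by
  have hopen : IsOpen {s : ℂ | (3 : ℝ) / 2 < s.re} :=
    isOpen_lt continuous_const Complex.continuous_re
  have h2 : (2 : ℂ) ∈ {s : ℂ | (3 : ℝ) / 2 < s.re} := by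
    show (3 : ℝ) / 2 < (2 : ℂ).re
    norm_num
  refine AnalyticOnNhd.eq_of_eventuallyEq (z₀ := 2) (fun s _ => hf.1.analyticAt s)
    (fun s _ => hg.1.analyticAt s) ?_
  filter_upwards [hopen.mem_nhds h2] with s hs
  exact (hf.2 s hs).unique (hg.2 s hs)

/-- finitely many points on the short curve -/
theorem fin_short {D : ℕ} (hD : D ≠ 0) (h : Finite (EQ (WD (D : ℤ))).toAffine.Point) :
    {q : ℚ × ℚ | q.2 ^ 2 = q.1 ^ 3 + ((0 : ℤ) : ℚ) * q.1 + ((16 * (D : ℤ) ^ 2 : ℤ) : ℚ)}.Finite := by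
  have hΔ : (EQ (WD (D : ℤ))).Δ ≠ 0 := by
    rw [WeierstrassCurve.map_Δ, wd_delta]
    have : (-27 * (D : ℤ) ^ 4) ≠ 0 := mul_ne_zero (by norm_num) (pow_ne_zero _ (by exact_mod_cast hD))
    simpa using this
  have hns : ∀ q : {q : ℚ × ℚ | q.2 ^ 2 = q.1 ^ 3 + ((0 : ℤ) : ℚ) * q.1 +
      ((16 * (D : ℤ) ^ 2 : ℤ) : ℚ)}, (EQ (WD (D : ℤ))).toAffine.Nonsingular (q.1.1 / 4)
        ((q.1.2 / 4 - D) / 2) := by
    rintro ⟨⟨x, y⟩, hq⟩
    have hq' : y ^ 2 = x ^ 3 + ((0 : ℤ) : ℚ) * x + ((16 * (D : ℤ) ^ 2 : ℤ) : ℚ) := hq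
    push_cast at hq'
    refine (WeierstrassCurve.Affine.equation_iff_nonsingular_of_Δ_ne_zero hΔ).1 ?_
    rw [WeierstrassCurve.Affine.equation_iff]
    simp only [WD, WeierstrassCurve.map_a₁, WeierstrassCurve.map_a₂, WeierstrassCurve.map_a₃,
      WeierstrassCurve.map_a₄, WeierstrassCurve.map_a₆, map_zero, eq_intCast, Int.cast_natCast]
    linear_combination (1 / 64 : ℚ) * hq'
  refine Set.finite_coe_iff.1 (Finite.of_injective
    (fun q => (.some _ _ (hns q) : (EQ (WD (D : ℤ))).toAffine.Point)) ?_)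
  intro q q' h
  simp only [WeierstrassCurve.Affine.Point.some.injEq] at h
  obtain ⟨h1, h2⟩ := h
  apply Subtype.ext
  refine Prod.ext ?_ ?_
  · linear_combination 4 * h1
  · linear_combination 8 * h2

/-- **Q1 in rank zero** -/
theorem q1_of {D : ℕ} (hD : D ≠ 0) (h2 : ¬ 2 ∣ D) {f : ℂ → ℂ} (hf : IsL (WD (D : ℤ)) f)
    (h1 : f 1 ≠ 0) (h : Finite (EQ (WD (D : ℤ))).toAffine.Point) : Q1 0 (16 * (D : ℤ) ^ 2) := by
  intro g hg
  rw [isLab_unique hg (isL_short h2 hf)]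
  refine iff_of_false ?_ ?_
  · refine mul_ne_zero h1 ?_
    rw [show (1 : ℂ) - 2 * 1 = -1 by norm_num, Complex.cpow_neg_one]
    norm_num
  · rw [Set.not_infinite]
    exact fin_short hD h

/-- the curve `y² = x³ + 16 D²` over `ℚ` -/
def ES (D : ℕ) : WeierstrassCurve ℚ := ⟨0, 0, 0, 0, 16 * (D : ℚ) ^ 2⟩

/-- the two equations define the same curve -/
theorem eqv {D : ℕ} (hD : D ≠ 0) :
    Nonempty ((EQ (WD (D : ℤ))).toAffine.Point ≃+ (ES D).toAffine.Point) := by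
  have hΔ : (EQ (WD (D : ℤ))).Δ ≠ 0 := by
    rw [WeierstrassCurve.map_Δ, wd_delta]
    have : (-27 * (D : ℤ) ^ 4) ≠ 0 := mul_ne_zero (by norm_num) (pow_ne_zero _ (by exact_mod_cast hD))
    simpa using this
  have hvr : Pool.Agent.Y700.VR (ES D) (EQ (WD (D : ℤ))) 2 0 0 (12 * D / 3) := by
    refine ⟨two_ne_zero, ?_, ?_, ?_, ?_, ?_⟩ <;> simp [ES, WD] <;> ring
  exact ⟨hvr.equiv hΔ⟩

end Pool.Agent.H462.N9.Short
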