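import Pool.Agent.H462.N9.Crit
import Pool.Agent.H462.T1.A
import Pool.Graph.R_seed8.Y710.CTE.MwfA
import Pool.Graph.R_seed8.Y700.VC
import Pool.Graph.R_seed8.Y696.CTK.Fin

/-!
# The rank over `ℚ` of the curve `y² + D y = x³`
-/

set_option autoImplicit false
set_option linter.unusedSectionVars false
set_option linter.unusedVariables false

open scoped Classical Pointwise

namespace Pool.Agent.H462.N9.RkQ

open NumberField WeierstrassCurve Module
open Pool.Agent.Y692.QS (Ei w)
open Pool.Agent.Y703.CT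
open Pool.Agent.Y696.CTK (ED)
open Pool.Agent.Y710.CTE (Ed Ed_nons)
open Pool.Agent.Y155.CT (a_mul a_cont AG AG_fg)
open Pool.Agent.XL6
open Pool.Agent.H462.N9.Sel (K9 KerC sel_le)
open Pool.Agent.H462.N9.Ram (ne9)

section
variable {K : Type} [Field K] [NumberField K] (j : Ei ≃+* 𝓞 K)
variable {J : Type} [Fintype J] [Nonempty J] {π : J → Ei} {e : J → ZMod 3}

/-- the rank over `ℚ(ω)` -/
theorem rk (hD : Dt π e) :
    Module.Finite ℤ (ED (j (3 * pD π e) : K)).toAffine.Point ∧
    ∀ r : ℕ, (K9 π e).ncard ≤ 3 ^ (r + 1) →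
      finrank ℤ (ED (j (3 * pD π e) : K)).toAffine.Point ≤ 2 * r := by
  have hne := ne9 hD
  obtain ⟨e', i₀, hi, u, a, Ψ, g, hdata⟩ := Pool.Agent.Y696.CTK.parts.trf K j _ hne
  have hT := hdata.1
  obtain ⟨hfin, hle⟩ := sel_le Pool.Agent.Y350.CT.rec hD hT
  refine ⟨Pool.Agent.H462.T1.fg_K hne hdata, fun r hr => ?_⟩
  exact (rk_le hne hdata).trans (rank_le (a_mul hne hT) (a_cont hne hT)
    (Pool.Agent.H462.N9.Crit.a_ne hD hT) hfin (hle.trans hr))

end

/-- a group with an action of `ℤ[ω]` and a semilinear map -/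
theorem rank_two {G H : Type} [AddCommGroup G] [AddCommGroup H] [Module.Finite ℤ G] (f : H →+ G)
    (hf : Function.Injective f) (A s : G →+ G) (hA : ∀ P, A (A P) = -P - A P)
    (hs : ∀ P, s (f P) = f P) (hsA : ∀ P, s (A P) = A (A (s P))) :
    Module.Finite ℤ H ∧ 2 * finrank ℤ H ≤ finrank ℤ G := by
  have hN : IsNoetherian ℤ G := isNoetherian_of_isNoetherianRing_of_finite _ _
  have hfg : Module.Finite ℤ H := by
    have := isNoetherian_of_injective f.toIntLinearMap hf
    infer_instance
  refine ⟨hfg, ?_⟩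
  let F : (H × H) →ₗ[ℤ] G :=
    (f.coprod (A.comp f)).toIntLinearMap
  have hF : ∀ P Q, F (P, Q) = f P + A (f Q) := fun P Q => rfl
  have hker : Module.rank ℤ (LinearMap.ker F) = 0 := by
    rw [rank_eq_zero_iff]
    rintro ⟨⟨P, Q⟩, hPQ⟩
    refine ⟨3, by norm_num, ?_⟩
    have h1 : f P + A (f Q) = 0 := LinearMap.mem_ker.1 hPQ
    have h2 : f P + A (A (f Q)) = 0 := by
      have := congrArg s h1
      rw [map_add, hs, hsA, hs, map_zero] at this
      exact this
    have h3 : (2 : ℤ) • A (f Q) + f Q = 0 := by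
      rw [hA] at h2
      have : A (f Q) - (-f Q - A (f Q)) = 0 := by
        have h5 : (f P + A (f Q)) - (f P + (-f Q - A (f Q))) = 0 := by rw [h1, h2, sub_zero]
        rw [← h5]
        abel
      rw [← this, two_zsmul]
      abel
    have h4 : -(2 : ℤ) • f Q - A (f Q) = 0 := by
      have := congrArg A h3
      rw [map_add, map_zsmul, hA, map_zero] at this
      rw [← this, two_zsmul, neg_smul, two_zsmul]
      abel
    have h5 : (3 : ℤ) • f Q = 0 := by
      have h6 : A (f Q) = -(2 : ℤ) • f Q := by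
        rw [sub_eq_zero] at h4
        exact h4.symm
      rw [h6] at h3
      have h7 : (3 : ℤ) • f Q = -((2 : ℤ) • -(2 : ℤ) • f Q + f Q) := by
        module
      rw [h7, h3, neg_zero]
    have h6 : (3 : ℤ) • Q = 0 := hf (by rw [map_zsmul, h5, map_zero])
    have h7 : (3 : ℤ) • P = 0 := hf (by
      have h8 : f P = -A (f Q) := eq_neg_of_add_eq_zero_left h1
      rw [map_zsmul, h8, smul_neg, ← map_zsmul, h5, map_zero, neg_zero, map_zero])
    apply Subtype.ext
    show (3 : ℤ) • (P, Q) = 0
    rw [Prod.smul_mk, h6, h7]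
    rfl
  have h1 : Module.rank ℤ (H × H) ≤ Module.rank ℤ G := by
    rw [← LinearMap.rank_range_add_rank_ker F, hker, add_zero]
    exact Submodule.rank_le _
  have h2 : Module.rank ℤ (H × H) = Module.rank ℤ H + Module.rank ℤ H := by
    have h3 := LinearMap.rank_range_add_rank_ker (LinearMap.snd ℤ H H)
    have h4 : LinearMap.range (LinearMap.snd ℤ H H) = ⊤ :=
      LinearMap.range_eq_top.2 fun x => ⟨(0, x), rfl⟩
    have h5 : Module.rank ℤ (LinearMap.ker (LinearMap.snd ℤ H H)) = Module.rank ℤ H := by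
      rw [LinearMap.ker_snd, rank_range_of_injective _ LinearMap.inl_injective]
    rw [h4, rank_top, h5] at h3
    exact h3.symm
  have k0 := Module.rank_lt_aleph0 ℤ G
  have k1 := Module.rank_lt_aleph0 ℤ H
  rw [h2] at h1
  have h3 := Cardinal.toNat_le_toNat h1 k0
  rw [Cardinal.toNat_add k1 k1] at h3
  show 2 * Cardinal.toNat (Module.rank ℤ H) ≤ Cardinal.toNat (Module.rank ℤ G)
  omega

/-- a conjugation of the field of third roots of unity -/
theorem exists_conj (K : Type) [Field K] [NumberField K] [IsCyclotomicExtension {3} ℚ K] :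
    ∃ (I : K) (σ : K →ₐ[ℚ] K), I ^ 2 + I + 1 = 0 ∧ σ I = I ^ 2 := by
  have hprim := IsCyclotomicExtension.zeta_spec 3 ℚ K
  set I := IsCyclotomicExtension.zeta 3 ℚ K with hI
  have h1 : I ^ 2 + I + 1 = 0 := by
    have h3 : I ^ 3 = 1 := hprim.pow_eq_one
    have h4 : I ≠ 1 := hprim.ne_one (by norm_num)
    have h5 : (I - 1) * (I ^ 2 + I + 1) = 0 := by linear_combination h3
    exact (mul_eq_zero.1 h5).resolve_left (sub_ne_zero.2 h4)
  have hgal : IsGalois ℚ K := IsCyclotomicExtension.isGalois {3} ℚ K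
  have hex : ∃ σ : K ≃ₐ[ℚ] K, σ I ≠ I := by
    by_contra hcon
    push Not at hcon
    obtain ⟨x, hx⟩ := (IsGalois.mem_bot_iff_fixed (F := ℚ) (E := K) I).2 hcon
    have h2 : x ^ 2 + x + 1 = 0 := by
      apply (algebraMap ℚ K).injective
      rw [map_add, map_add, map_pow, map_one, map_zero]
      have hx' : algebraMap ℚ K x = I := hx
      rw [hx']
      exact h1
    nlinarith [sq_nonneg (2 * x + 1)]
  obtain ⟨σ, hσ⟩ := hex
  refine ⟨I, σ.toAlgHom, h1, ?_⟩
  have h2 : (σ I) ^ 2 + σ I + 1 = 0 := by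
    have := congrArg σ h1
    simpa only [map_add, map_pow, map_one, map_zero] using this
  have h3 : (σ I - I) * (σ I - I ^ 2) = 0 := by
    linear_combination h2 + (-σ I + (I - 1)) * h1
  exact sub_eq_zero.1 ((mul_eq_zero.1 h3).resolve_left (sub_ne_zero.2 hσ))

lemma Ed_delta {K : Type} [Field K] [CharZero K] {d : K} (hd : d ≠ 0) : (Ed d).Δ ≠ 0 := by
  have : (Ed d).Δ = -27 * d ^ 4 := by
    simp only [Ed, WeierstrassCurve.Δ, WeierstrassCurve.b₂, WeierstrassCurve.b₄,
      WeierstrassCurve.b₆, WeierstrassCurve.b₈]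
    ring
  rw [this]
  exact mul_ne_zero (by norm_num) (pow_ne_zero 4 hd)

/-- three points on a horizontal line -/
lemma sum3 {F : Type} [Field F] [CharZero F] {D I : F} (hD : D ≠ 0) (hI : I ^ 2 + I + 1 = 0)
    {V : WeierstrassCurve F} (hV : V = Ed D) {x y : F} (h : V.toAffine.Nonsingular x y)
    (h1 : V.toAffine.Nonsingular (I ^ 2 * x) y)
    (h2 : V.toAffine.Nonsingular (I ^ 2 * (I ^ 2 * x)) y) :
    (Affine.Point.some x y h : V.toAffine.Point) + .some (I ^ 2 * x) y h1 =
      -(.some (I ^ 2 * (I ^ 2 * x)) y h2) := by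
  subst hV
  have hI3 : I ^ 3 = 1 := by linear_combination (I - 1) * hI
  have he : y ^ 2 + D * y = x ^ 3 := by
    have := (Affine.equation_iff _ _).1 h.1
    simp only [Ed] at this
    linear_combination this
  have hny : ∀ a b : F, (Ed D).toAffine.negY a b = -b - D := by
    intro a b
    simp [Affine.negY, Ed]
  have hI1 : I ^ 2 - 1 ≠ 0 := by
    intro h3
    have h4 : (3 : F) = 0 := by linear_combination (I - 1) * h3 - (I - 2) * hI
    exact three_ne_zero h4
  by_cases hx : x = 0
  · subst hx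
    have hy : y * (y + D) = 0 := by linear_combination he
    have hy2 : 2 * y + D ≠ 0 := by
      intro h3
      have h4 : D ^ 2 = 0 := by linear_combination -4 * hy + (2 * y + D) * h3
      exact hD (pow_eq_zero_iff (two_ne_zero) |>.1 h4)
    have hne : y ≠ (Ed D).toAffine.negY (I ^ 2 * 0) y := by
      rw [hny]
      intro h3
      exact hy2 (by linear_combination h3)
    rw [Affine.Point.add_some (fun h => hne h.2), Affine.Point.neg_some, Affine.Point.some.injEq,
      Affine.slope_of_Y_ne (by ring) hne]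
    simp [Ed, Affine.addX, Affine.addY, Affine.negAddY, Affine.negY]
  · have hxI : x ≠ I ^ 2 * x := by
      intro h3
      have h4 : (I ^ 2 - 1) * x = 0 := by linear_combination -h3
      exact mul_ne_zero hI1 hx h4
    rw [Affine.Point.add_some (fun h => hxI h.1), Affine.Point.neg_some, Affine.Point.some.injEq,
      Affine.slope_of_X_ne hxI, sub_self, zero_div]
    simp only [Ed, Affine.addX, Affine.addY, Affine.negAddY, Affine.negY]
    constructor
    · linear_combination (-x) * (I ^ 2 - I + 1) * hI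
    · ring

/-- **the rank over `ℚ` and over `ℚ(ω)`** -/
theorem rank_Q (K : Type) [Field K] [NumberField K] [IsCyclotomicExtension {3} ℚ K] {d : ℚ}
    (hd : d ≠ 0) (hfg : Module.Finite ℤ (Ed (algebraMap ℚ K d)).toAffine.Point) :
    Module.Finite ℤ (Ed d).toAffine.Point ∧
      2 * finrank ℤ (Ed d).toAffine.Point ≤ finrank ℤ (Ed (algebraMap ℚ K d)).toAffine.Point := by
  obtain ⟨I, σ, hI, hσ⟩ := exists_conj K
  have hI3 : I ^ 3 = 1 := by linear_combination (I - 1) * hI
  have hI0 : I ≠ 0 := by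
    rintro rfl
    norm_num at hI
  set V : WeierstrassCurve K := Affine.baseChange (Ed d).toAffine K with hV
  have hVE : V = Ed (algebraMap ℚ K d) := by
    rw [hV]
    ext <;> simp [Ed, Affine.baseChange]
  have e1 : Affine.baseChange (Ed d).toAffine ℚ = Ed d := by
    ext <;> simp [Ed, Affine.baseChange]
  have hda : algebraMap ℚ K d ≠ 0 := (map_ne_zero _).2 hd
  have hex : ∃ m : (Affine.baseChange (Ed d).toAffine ℚ).Point →+ V.toAffine.Point,
      ∀ X Y (hn : (Affine.baseChange (Ed d).toAffine ℚ).Nonsingular X Y),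
        ∃ h', m (.some X Y hn) = .some (algebraMap ℚ K X) (algebraMap ℚ K Y) h' :=
    ⟨Affine.Point.map (W' := (Ed d).toAffine) (Algebra.ofId ℚ K), fun X Y hn => ⟨_, rfl⟩⟩
  rw [e1] at hex
  obtain ⟨f, hf⟩ := hex
  have hvr : Pool.Agent.Y700.VR V V I 0 0 0 := by
    rw [hVE]
    refine ⟨hI0, ?_, ?_, ?_, ?_, ?_⟩ <;> simp [Ed]
    rw [hI3, one_mul]
  have hVd : V.Δ ≠ 0 := by rw [hVE]; exact Ed_delta hda
  let A : V.toAffine.Point →+ V.toAffine.Point := (hvr.equiv hVd).toAddMonoidHom
  have hA1 : ∀ x y (h : V.toAffine.Nonsingular x y), ∃ h' : V.toAffine.Nonsingular (I ^ 2 * x) y,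
      A (.some x y h) = .some (I ^ 2 * x) y h' := by
    intro x y h
    have h3 : A (.some x y h) = hvr.fn hVd (.some x y h) := rfl
    have h4 : V.toAffine.Nonsingular (I ^ 2 * x) y := by
      have h0 : V.toAffine.Nonsingular x y := h
      rw [hVE] at h0 ⊢
      apply Ed_nons hda
      have h5 : y ^ 2 + algebraMap ℚ K d * y = x ^ 3 := by
        have := (Affine.equation_iff _ _).1 h0.1
        simp only [Ed] at this
        linear_combination this
      rw [h5]
      linear_combination (-x ^ 3 * (I ^ 3 + 1)) * hI3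
    refine ⟨h4, ?_⟩
    rw [h3, Pool.Agent.Y700.VR.fn_some, Affine.Point.some.injEq]
    constructor
    · ring
    · rw [hI3]
      ring
  let s : V.toAffine.Point →+ V.toAffine.Point := Affine.Point.map (W' := (Ed d).toAffine) σ
  have hs1 : ∀ x y (h : V.toAffine.Nonsingular x y), ∃ h' : V.toAffine.Nonsingular (σ x) (σ y),
      s (.some x y h) = .some (σ x) (σ y) h' := fun x y h => ⟨_, rfl⟩
  have hfg' : Module.Finite ℤ V.toAffine.Point := by rw [hVE]; exact hfg
  have heq : ∀ x y, V.toAffine.Nonsingular x y → y ^ 2 + algebraMap ℚ K d * y = x ^ 3 := by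
    intro x y h
    rw [hVE] at h
    have := (Affine.equation_iff _ _).1 h.1
    simp only [Ed] at this
    linear_combination this
  have key := rank_two f ?_ A s ?_ ?_ ?_
  · rw [hVE] at key
    exact key
  · -- injectivity
    refine (injective_iff_map_eq_zero f).2 ?_
    rintro (_ | ⟨x, y, h⟩) h0
    · rfl
    · obtain ⟨h', e'⟩ := hf x y h
      rw [e'] at h0
      exact absurd h0 (by rintro ⟨⟩)
  · -- the relation
    have hneg : ∀ x y (h : V.toAffine.Nonsingular x y),
        ∃ h' : V.toAffine.Nonsingular x (-y - algebraMap ℚ K d),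
        -(Affine.Point.some x y h : V.toAffine.Point) = .some x (-y - algebraMap ℚ K d) h' := by
      intro x y h
      have e : V.toAffine.negY x y = -y - algebraMap ℚ K d := by
        rw [hVE]
        simp [Affine.negY, Ed]
      have h' : V.toAffine.Nonsingular x (-y - algebraMap ℚ K d) := by
        rw [← e]
        exact (Affine.nonsingular_neg _ _).2 h
      refine ⟨h', ?_⟩
      rw [Affine.Point.neg_some]
      simp only [e]
    rintro (_ | ⟨x, y, h⟩)
    · show A (A 0) = -0 - A 0
      rw [map_zero, map_zero, neg_zero, sub_zero]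
    · obtain ⟨h1, e1⟩ := hA1 x y h
      obtain ⟨h2, e2⟩ := hA1 _ _ h1
      have h3 := sum3 hda hI hVE h h1 h2
      have h4 : A (A (.some x y h)) = -(Affine.Point.some x y h : V.toAffine.Point) -
          A (.some x y h) := by
        rw [e1, e2]
        have h5 := congrArg (fun Q => -Q) h3
        simp only [neg_neg] at h5
        rw [← h5]
        abel
      exact h4
  · rintro (_ | ⟨x, y, h⟩)
    · show s (f 0) = f 0
      rw [map_zero, map_zero]
    · obtain ⟨h', e'⟩ := hf x y h
      obtain ⟨h'', e''⟩ := hs1 _ _ h'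
      have e3 : f (.some x y h) = .some (algebraMap ℚ K x) (algebraMap ℚ K y) h' := e'
      rw [e3, e'', Affine.Point.some.injEq]
      exact ⟨σ.commutes x, σ.commutes y⟩
  · rintro (_ | ⟨x, y, h⟩)
    · rfl
    · obtain ⟨h1, e1⟩ := hA1 x y h
      obtain ⟨h2, e2⟩ := hs1 _ _ h1
      obtain ⟨h3, e3⟩ := hs1 x y h
      obtain ⟨h4, e4⟩ := hA1 _ _ h3
      obtain ⟨h5, e5⟩ := hA1 _ _ h4
      have : s (A (.some x y h)) = A (A (s (.some x y h))) := by
        rw [e1, e2, e3, e4, e5, Affine.Point.some.injEq]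
        refine ⟨?_, rfl⟩
        rw [map_mul, map_pow, hσ]
        ring
      exact this

end Pool.Agent.H462.N9.RkQ
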