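import Pool.Agent.H462.N9.Ram
import Pool.Graph.R_seed8.Y180.CT.Loc3

/-!
# The local condition at the prime above three for `D = 3 (1 + 3 q)`
-/

set_option autoImplicit false
set_option linter.unusedSectionVars false
set_option linter.unusedVariables false

namespace Pool.Agent.H462.N9.Loc

open WeierstrassCurve
open Pool.Agent.Y692.QS
open Pool.Agent.Y715.T.Gi Pool.Agent.Y715.T.Nr Pool.Agent.Y715.T.Df Pool.Agent.Y715.T.Ell
open Pool.Agent.Y715.T.Red Pool.Agent.Y715.T.Thr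
open Pool.Agent.Y703.CT
open Pool.Agent.Y180.CT

open scoped Classical

variable {I : PadicAlgCl 3}

lemma cube_sq (hI : I ^ 2 + I + 1 = 0) {x : PadicAlgCl 3} (hx : x ∈ Kl I) (hx0 : x ≠ 0) :
    ∃ m : ℤ, (‖x‖ ^ 3) ^ 2 = (3 : ℝ) ^ (3 * m) := by
  obtain ⟨m, hm⟩ := val hI (Kl_le hx) hx0
  refine ⟨m, ?_⟩
  rw [mul_comm 3 m, zpow_mul, ← hm]
  norm_cast
  ring

/-- **the ordinate is a cube up to a power of three and `1 + 3 O`** -/
theorem ord_cube9 (hI : I ^ 2 + I + 1 = 0) {d X Y : PadicAlgCl 3} (hd : d ∈ Kl I)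
    (hd1 : ‖d‖ ≤ 1) (hX : X ∈ Kl I) (hY : Y ∈ Kl I) (hY0 : Y ≠ 0)
    (he : Y ^ 2 + 3 * (1 + 3 * d) * Y = X ^ 3) :
    ∃ (k : ℕ), ∃ V ∈ Kl I, V ≠ 0 ∧ ∃ t ∈ Kl I, ‖t‖ ≤ 1 ∧ Y = V ^ 3 * 3 ^ k * (1 + 3 * t) := by
  have h3n := norm_three'
  have hDn := norm_one_add hd1
  have hD0 := one_add_ne hd1
  have h7 : (3 : PadicAlgCl 3) ≠ 0 := three_ne_zero
  have hDm : 1 + 3 * d ∈ Kl I := add_mem (one_mem _) (mul_mem three_memK hd)
  have hD3n : ‖3 * (1 + 3 * d)‖ = 3⁻¹ := by rw [norm_mul, hDn, h3n, mul_one]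
  rcases lt_trichotomy ‖Y‖ 3⁻¹ with h1 | h1 | h1
  · -- `Y` is small
    have h2 : ‖Y + 3 * (1 + 3 * d)‖ = 3⁻¹ := by
      rw [add_comm, eq_of_lt, hD3n]
      rwa [hD3n]
    have h3 : ‖Y‖ * 3⁻¹ = ‖X‖ ^ 3 := by
      rw [← norm_pow, ← he]
      have e : Y ^ 2 + 3 * (1 + 3 * d) * Y = Y * (Y + 3 * (1 + 3 * d)) := by ring
      rw [e, norm_mul, h2]
    have hYn : 0 < ‖Y‖ := norm_pos_iff.2 hY0
    have hX0 : X ≠ 0 := by
      rintro rfl
      rw [norm_zero, zero_pow three_ne_zero] at h3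
      have : 0 < ‖Y‖ * 3⁻¹ := by positivity
      linarith
    obtain ⟨m, hm⟩ := cube_sq hI hX hX0
    rw [← h3] at hm
    have hm2 : (‖Y‖ * 3⁻¹) ^ 2 < (3 : ℝ) ^ (-4 : ℤ) := by
      have e : (3 : ℝ) ^ (-4 : ℤ) = (3⁻¹ * 3⁻¹) ^ 2 := by norm_num
      rw [e]
      exact pow_lt_pow_left₀ (by nlinarith) (by positivity) two_ne_zero
    have hm3 : m ≤ -2 := by
      rw [hm] at hm2
      have := (zpow_lt_zpow_iff_right₀ (by norm_num : (1 : ℝ) < 3)).1 hm2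
      omega
    have h4 : ‖Y‖ ≤ 9⁻¹ := by
      have h5 : (‖Y‖ * 3⁻¹) ^ 2 ≤ ((27⁻¹ : ℝ)) ^ 2 := by
        rw [hm]
        have e : ((27⁻¹ : ℝ)) ^ 2 = (3 : ℝ) ^ (-6 : ℤ) := by norm_num
        rw [e]
        exact zpow_le_zpow_right₀ (by norm_num) (by omega)
      have h6 := (pow_le_pow_iff_left₀ (by positivity) (by norm_num) two_ne_zero).1 h5
      nlinarith
    -- `X^3 = 3 Y (1 + 3 d) (1 + 3 (Y / (9 (1 + 3 d))))`
    have h9 : ‖Y / (9 * (1 + 3 * d))‖ ≤ 1 := by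
      have h9n : ‖(9 : PadicAlgCl 3)‖ = 9⁻¹ := by
        have e : (9 : PadicAlgCl 3) = 3 * 3 := by norm_num
        rw [e, norm_mul, h3n]
        norm_num
      rw [norm_div, norm_mul, hDn, mul_one, h9n, div_le_one (by norm_num)]
      exact h4
    have h9m : Y / (9 * (1 + 3 * d)) ∈ Kl I := div_mem hY (mul_mem (ofNat_mem _ 9) hDm)
    obtain ⟨t1, ht1, ht1', e1⟩ := inv_exK h9m h9
    obtain ⟨t2, ht2, ht2', e2⟩ := inv_exK hd hd1
    refine ⟨2, X / 3, div_mem hX three_memK, div_ne_zero hX0 h7, t1 + t2 + 3 * (t1 * t2),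
      add_mem (add_mem ht1 ht2) (mul_mem three_memK (mul_mem ht1 ht2)), ?_, ?_⟩
    · refine add_le (add_le ht1' ht2') ?_
      rw [norm_mul, norm_mul, h3n]
      have := mul_le ht1' ht2'
      rw [norm_mul] at this
      linarith
    · have e3 : X ^ 3 = 3 * Y * (1 + 3 * d) * (1 + 3 * (Y / (9 * (1 + 3 * d)))) := by
        rw [← he]
        field_simp
        ring
      have e4 : (1 : PadicAlgCl 3) + 3 * (t1 + t2 + 3 * (t1 * t2)) = (1 + 3 * t1) * (1 + 3 * t2) := by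
        ring
      rw [e4, div_pow, e3]
      have e5 : 3 * Y * (1 + 3 * d) * (1 + 3 * (Y / (9 * (1 + 3 * d)))) / 3 ^ 3 * 3 ^ 2 *
          ((1 + 3 * t1) * (1 + 3 * t2)) = Y * ((1 + 3 * d) * (1 + 3 * t2)) *
          ((1 + 3 * (Y / (9 * (1 + 3 * d)))) * (1 + 3 * t1)) := by
        field_simp
      rw [e5, e1, e2, mul_one, mul_one]
  · -- `‖Y‖ = 1/3`
    by_cases hB : Y + 3 * (1 + 3 * d) = 0
    · refine ⟨1, -1, neg_mem (one_mem _), neg_ne_zero.2 one_ne_zero, d, hd, hd1, ?_⟩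
      linear_combination hB
    · have hBm : Y + 3 * (1 + 3 * d) ∈ Kl I := add_mem hY (mul_mem three_memK hDm)
      have h3 : 3⁻¹ * ‖Y + 3 * (1 + 3 * d)‖ = ‖X‖ ^ 3 := by
        rw [← norm_pow, ← he]
        have e : Y ^ 2 + 3 * (1 + 3 * d) * Y = Y * (Y + 3 * (1 + 3 * d)) := by ring
        rw [e, norm_mul, h1]
      have hBn : 0 < ‖Y + 3 * (1 + 3 * d)‖ := norm_pos_iff.2 hB
      have hX0 : X ≠ 0 := by
        rintro rfl
        rw [norm_zero, zero_pow three_ne_zero] at h3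
        have : 0 < 3⁻¹ * ‖Y + 3 * (1 + 3 * d)‖ := by positivity
        linarith
      obtain ⟨m, hm⟩ := cube_sq hI hX hX0
      rw [← h3] at hm
      have hB1 : ‖Y + 3 * (1 + 3 * d)‖ ≤ 3⁻¹ := by
        have h4 : ‖Y‖ ≤ 3⁻¹ := h1.le
        have h5 := hD3n.le
        exact (IsUltrametricDist.norm_add_le_max _ _).trans (max_le h4 h5)
      have hm2 : (3⁻¹ * ‖Y + 3 * (1 + 3 * d)‖) ^ 2 ≤ (3 : ℝ) ^ (-4 : ℤ) := by
        have e : (3 : ℝ) ^ (-4 : ℤ) = (3⁻¹ * 3⁻¹) ^ 2 := by norm_num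
        rw [e]
        exact pow_le_pow_left₀ (by positivity) (by nlinarith) 2
      have hm3 : m ≤ -2 := by
        rw [hm] at hm2
        have := (zpow_le_zpow_iff_right₀ (by norm_num : (1 : ℝ) < 3)).1 hm2
        omega
      have h4 : ‖Y + 3 * (1 + 3 * d)‖ ≤ 9⁻¹ := by
        have h5 : (3⁻¹ * ‖Y + 3 * (1 + 3 * d)‖) ^ 2 ≤ ((27⁻¹ : ℝ)) ^ 2 := by
          rw [hm]
          have e : ((27⁻¹ : ℝ)) ^ 2 = (3 : ℝ) ^ (-6 : ℤ) := by norm_num
          rw [e]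
          exact zpow_le_zpow_right₀ (by norm_num) (by omega)
        have h6 := (pow_le_pow_iff_left₀ (by positivity) (by norm_num) two_ne_zero).1 h5
        nlinarith
      have h9n : ‖(9 : PadicAlgCl 3)‖ = 9⁻¹ := by
        have e : (9 : PadicAlgCl 3) = 3 * 3 := by norm_num
        rw [e, norm_mul, h3n]
        norm_num
      refine ⟨1, -1, neg_mem (one_mem _), neg_ne_zero.2 one_ne_zero,
        d - (Y + 3 * (1 + 3 * d)) / 9, sub_mem hd (div_mem hBm (ofNat_mem _ 9)), ?_, ?_⟩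
      · refine sub_le hd1 ?_
        rw [norm_div, h9n, div_le_one (by norm_num)]
        exact h4
      · ring
  · -- `Y` is large
    have h2 : ‖Y ^ 2 + 3 * (1 + 3 * d) * Y‖ = ‖Y‖ ^ 2 := by
      rw [eq_of_lt, norm_pow]
      rw [norm_mul, hD3n, norm_pow]
      nlinarith
    have h3 : ‖Y‖ ^ 2 = ‖X‖ ^ 3 := by
      rw [← norm_pow X, ← he, h2]
    obtain ⟨m, hm⟩ := cube_val' hI hY hX hY0 h3
    have hm3 : 0 ≤ m := by
      have h5 : (3 : ℝ) ^ (-2 : ℤ) < ‖Y‖ ^ 2 := by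
        have e : (3 : ℝ) ^ (-2 : ℤ) = (3⁻¹) ^ 2 := by norm_num
        rw [e]
        exact pow_lt_pow_left₀ h1 (by norm_num) two_ne_zero
      rw [hm] at h5
      have := (zpow_lt_zpow_iff_right₀ (by norm_num : (1 : ℝ) < 3)).1 h5
      omega
    have h4 : 1 ≤ ‖Y‖ := by
      by_contra hcon
      push Not at hcon
      have h5 : ‖Y‖ ^ 2 < 1 := pow_lt_one₀ (norm_nonneg _) hcon two_ne_zero
      rw [hm] at h5
      exact absurd (one_le_zpow₀ (by norm_num : (1 : ℝ) ≤ 3) (by omega : 0 ≤ 3 * m)) (not_le.2 h5)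
    have hX0 : X ≠ 0 := by
      rintro rfl
      rw [norm_zero, zero_pow three_ne_zero] at h3
      exact hY0 (norm_eq_zero.1 (pow_eq_zero_iff two_ne_zero |>.1 h3))
    refine ⟨0, Y / X, div_mem hY hX, div_ne_zero hY0 hX0, (1 + 3 * d) / Y,
      div_mem hDm hY, ?_, ?_⟩
    · rw [norm_div, hDn, div_le_one (by linarith)]
      exact h4
    · have hX3 : X ^ 3 ≠ 0 := pow_ne_zero 3 hX0
      rw [div_pow, ← he]
      rw [← he] at hX3
      have h8 : 1 + 3 * ((1 + 3 * d) / Y) = (Y ^ 2 + 3 * (1 + 3 * d) * Y) / Y ^ 2 := by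
        field_simp
      rw [h8, pow_zero, mul_one, div_mul_div_cancel₀ hX3]
      field_simp

/-- the result for a generator -/
lemma fin9 (hI : I ^ 2 + I + 1 = 0) {v q : Ei} {g k : ℕ}
    (hv : IsUnit v) {V t : PadicAlgCl 3} (hV : V ∈ Kl I) (ht : t ∈ Kl I)
    (ht1 : ‖t‖ ≤ 1) (e : ev I hI (v * lam ^ g * (1 + 3 * q)) * 3 ^ k =
      V ^ 3 * (1 + 3 * t)) : v = 1 ∨ v = -1 := by
  have h3 : (3 : PadicAlgCl 3) = -(ev I hI lam ^ 2) := by
    have h := congrArg (ev I hI) (Pool.Agent.Y715.T.Gi.lam_sq)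
    rw [ev_lam]
    linear_combination 4 * hI
  have h4 : ev I hI (v * lam ^ (g + 2 * k) * (1 + 3 * q)) = ((-1) ^ k * V) ^ 3 * (1 + 3 * t) := by
    have h5 : ev I hI (v * lam ^ (g + 2 * k) * (1 + 3 * q)) =
        (-1) ^ k * (ev I hI (v * lam ^ g * (1 + 3 * q)) * 3 ^ k) := by
      rw [h3]
      simp only [map_mul, map_pow, pow_add, pow_mul]
      have h6 : (-(ev I hI lam ^ 2)) ^ k = (-1) ^ k * (ev I hI lam ^ 2) ^ k := neg_pow _ _
      rw [h6]
      have h7 : ((-1 : PadicAlgCl 3)) ^ k * (-1) ^ k = 1 := by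
        rw [← mul_pow, neg_one_mul, neg_neg, one_pow]
      linear_combination (-(ev I hI v * ev I hI lam ^ g * (ev I hI lam ^ 2) ^ k *
        ev I hI (1 + 3 * q))) * h7
    rw [h5, e]
    have h8 : ((-1 : PadicAlgCl 3) ^ k) ^ 3 = (-1) ^ k := by
      rw [← pow_mul, mul_comm, pow_mul]
      norm_num
    rw [mul_pow, h8]
    ring
  exact (gen hI hv (Kl_le (mul_mem (pow_mem (neg_mem (one_mem _)) k) hV)) ht1 (Kl_le ht)
    h4.symm).2

section final

variable {i₀ : QB} {hi : i₀ ^ 2 + i₀ + 1 = 0} {d₀ : Ei} {u : QB} {a h : GK i₀ → ZMod 3}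
  {ι : QB →ₐ[ℚ] PadicAlgCl 3} {R : Pt (PadicAlgCl 3)}

/-- **The local condition.** -/
theorem core9 (hT : Tw hi (3 * (1 + 3 * d₀)) u a)
    {v q : Ei} {g : ℕ} (hv : IsUnit v) (hK : Kc hi (v * lam ^ g * (1 + 3 * q)) h)
    (hS : St1 hi ι a h R) : v = 1 ∨ v = -1 := by
  have hI := iota_sq' hi ι
  have hI3 : ι i₀ ^ 3 = 1 := by linear_combination (ι i₀ - 1) * hI
  obtain ⟨d, hd⟩ : ∃ d, d = ev (ι i₀) hI d₀ := ⟨_, rfl⟩
  have hdm : d ∈ Kl (ι i₀) := by rw [hd]; exact ev_mem hI d₀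
  have hd1 : ‖d‖ ≤ 1 := by rw [hd]; exact ev_le hI d₀
  have h7 : (3 : PadicAlgCl 3) ≠ 0 := three_ne_zero
  have hU3 : ι u ^ 3 = 3 * (1 + 3 * d) := by
    rw [← map_pow, hT.cube, iota_ev' hi ι, hd, map_mul, map_add, map_one, map_mul, map_ofNat]
  have hU0 : ι u ≠ 0 := by
    intro h0
    rw [h0, zero_pow three_ne_zero] at hU3
    exact mul_ne_zero h7 (one_add_ne hd1) hU3.symm
  -- the cube root
  obtain ⟨s, hs⟩ := IsAlgClosed.exists_pow_nat_eq (ev i₀ hi (v * lam ^ g * (1 + 3 * q)))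
    (n := 3) (by norm_num)
  have hZ : ι s ^ 3 = ev (ι i₀) hI (v * lam ^ g * (1 + 3 * q)) := by
    rw [← map_pow, hs, iota_ev' hi ι]
  have hts : ∀ (τ : Au 3) (σ : GK i₀), Cmp ι τ σ → τ (ι s) = ι i₀ ^ (h σ).val * ι s := by
    intro τ σ hc
    rw [hc, hK s hs σ, map_mul, map_pow]
  have hz0 : v * lam ^ g * (1 + 3 * q) ≠ 0 := by
    refine mul_ne_zero (mul_ne_zero hv.ne_zero (pow_ne_zero _ prime_lam.ne_zero)) ?_
    intro h0
    have h1 : ev (ι i₀) hI (1 + 3 * q) = 0 := by rw [h0, map_zero]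
    rw [map_add, map_one, map_mul, map_ofNat] at h1
    exact one_add_ne (ev_le hI q) h1
  have hZ0 : ι s ^ 3 ≠ 0 := by
    rw [hZ]
    exact ev_ne hI hz0
  have hs0 : ι s ≠ 0 := fun h0 => hZ0 (by rw [h0, zero_pow three_ne_zero])
  have hZm : ι s ^ 3 ∈ Kl (ι i₀) := by rw [hZ]; exact ev_mem hI _
  by_cases hQ0 : R - im (isE _) hI R = 0
  · -- `R` is a multiple of `T`
    obtain ⟨c, hc⟩ := ker_tt hI hQ0
    have hm : ι s ∈ Kl (ι i₀) := by
      intro τ hτ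
      obtain ⟨σ, hcm⟩ := exists_cmp ι τ hτ
      have h1 := hS τ σ hcm
      rw [hc, pm_tt, jj_tt, sub_self] at h1
      have h2 := tt_eq_zero.1 h1.symm
      rw [hts τ σ hcm, h2, ZMod.val_zero, pow_zero, one_mul]
    exact fin9 (q := q) (g := g) (k := 0) hI hv hm (zero_mem _) (by rw [norm_zero]; exact zero_le_one)
      (by rw [← hZ]; ring)
  · obtain ⟨x, y, hn, hR⟩ : ∃ x y, ∃ hn : (W0.baseChange (PadicAlgCl 3)).toAffine.Nonsingular x y,
        R = .some x y hn := by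
      rcases R with _ | ⟨x, y, hn⟩
      · exfalso
        apply hQ0
        show (0 : Pt (PadicAlgCl 3)) - im (isE _) hI 0 = 0
        rw [map_zero, sub_zero]
      · exact ⟨x, y, hn, rfl⟩
    have he := ((isE _).eqn x y).1 hn.1
    have hx : x ≠ 0 := by
      intro h0
      apply hQ0
      rw [hR, im_some, sub_eq_zero, Affine.Point.some.injEq]
      exact ⟨by rw [h0, mul_zero], rfl⟩
    obtain ⟨XQ, hnQ, eQ⟩ : ∃ XQ, ∃ hnQ : (W0.baseChange (PadicAlgCl 3)).toAffine.Nonsingular XQ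
        (gg (ι i₀) R ^ 3), R - im (isE _) hI R = .some XQ _ hnQ := by
      rw [hR]
      obtain ⟨XQ, hnQ, eQ, -⟩ := one_sub_im (isE _) hI hn hx
      exact ⟨XQ, hnQ, eQ⟩
    by_cases hG : gg (ι i₀) R = 0
    · -- `R - J R = T`
      have hlam := lam_ne (isE (PadicAlgCl 3)) hI
      have hy : y = ι i₀ ^ 2 := by
        rw [hR, gg_some, div_eq_zero_iff] at hG
        rcases hG with h1 | h1
        · exact sub_eq_zero.1 h1
        · exact absurd h1 (mul_ne_zero hlam hx)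
      have h0 := (isE (PadicAlgCl 3)).neg_nons hn
      have hR' : -R = .some x (-y - 1) h0 := by
        rw [hR]
        exact (isE _).neg_eq hn h0
      have hgg : gg (ι i₀) (-R) = 1 / x := by
        rw [hR', gg_some, hy, div_eq_div_iff (mul_ne_zero hlam hx) hx]
        linear_combination (-2 * x) * hI
      have hx3 : x ^ 3 = -1 := by
        rw [← he, hy]
        linear_combination (ι i₀ ^ 2 - ι i₀ + 1) * hI
      have hW3 : (ι u * gg (ι i₀) (-R)) ^ 3 = -(3 * (1 + 3 * d)) := by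
        rw [hgg, mul_pow, hU3, div_pow, hx3]
        ring
      have hW0 : ι u * gg (ι i₀) (-R) ≠ 0 := by
        rw [hgg]
        exact mul_ne_zero hU0 (div_ne_zero one_ne_zero hx)
      have hm : ι s / (ι u * gg (ι i₀) (-R)) ∈ Kl (ι i₀) := by
        intro τ hτ
        obtain ⟨σ, hcm⟩ := exists_cmp ι τ hτ
        rw [map_div₀, hts τ σ hcm, tau_g hT (st1_neg hS) hR' hx hcm]
        have h1 := pow_three hI (-h σ)
        rw [neg_neg] at h1
        rw [← h1, mul_div_mul_left]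
        exact pow_ne_zero _ (I_ne (isE (PadicAlgCl 3)) hI)
      refine fin9 (q := q) (g := g) (k := 2) hI hv
        (V := -(3 * (ι s / (ι u * gg (ι i₀) (-R))))) (t := d)
        (neg_mem (mul_mem three_memK hm)) hdm hd1 ?_
      rw [← hZ, neg_pow, mul_pow, div_pow, hW3]
      have hc := one_add_ne hd1
      field_simp
    · -- the general case
      have hW0 : ι u * gg (ι i₀) R ≠ 0 := mul_ne_zero hU0 hG
      have hm : ι s * (ι u * gg (ι i₀) R) ∈ Kl (ι i₀) := by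
        intro τ hτ
        obtain ⟨σ, hcm⟩ := exists_cmp ι τ hτ
        rw [map_mul, hts τ σ hcm, tau_g hT hS hR hx hcm]
        have h1 := pow_cancel hI (h σ)
        linear_combination (ι s * (ι u * gg (ι i₀) R)) * h1
      obtain ⟨W, hW⟩ : ∃ W, W = ι u * gg (ι i₀) R := ⟨_, rfl⟩
      rw [← hW] at hm hW0
      have hYm : W ^ 3 ∈ Kl (ι i₀) := by
        have e : W ^ 3 = (ι s * W) ^ 3 / ι s ^ 3 := by
          rw [mul_pow, mul_div_cancel_left₀ _ hZ0]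
        rw [e]
        exact div_mem (pow_mem hm 3) hZm
      have hXm : ι u ^ 2 * XQ ∈ Kl (ι i₀) := tau_X hT hS eQ
      have heq := ((isE _).eqn _ _).1 hnQ.1
      have heY : (W ^ 3) ^ 2 + 3 * (1 + 3 * d) * W ^ 3 = (ι u ^ 2 * XQ) ^ 3 := by
        rw [hW, ← hU3]
        linear_combination (ι u ^ 6) * heq
      obtain ⟨k, V, hV, hV0, t, ht, ht1, eY⟩ := ord_cube9 hI hdm hd1 hXm hYm
        (pow_ne_zero 3 hW0) heY
      obtain ⟨t', ht', ht1', et⟩ := inv_exK ht ht1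
      refine fin9 (q := q) (g := g) (k := k) hI hv (V := ι s * W / V) (div_mem hm hV) ht' ht1' ?_
      rw [← hZ, div_pow, mul_pow, eY]
      have hV3 : V ^ 3 ≠ 0 := pow_ne_zero 3 hV0
      have e6 : ι s ^ 3 * (V ^ 3 * 3 ^ k * (1 + 3 * t)) / V ^ 3 * (1 + 3 * t') =
          ι s ^ 3 * 3 ^ k * ((1 + 3 * t) * (1 + 3 * t')) := by
        field_simp
      rw [e6, et, mul_one]

end final

end Pool.Agent.H462.N9.Loc
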