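import Pool.Agent.H462.CTU.Phi2

/-!
# The function for the cubic character modulo nine
-/

set_option autoImplicit false
set_option linter.unusedSectionVars false

open Filter
open scoped Topology PeriodPair

namespace Pool.Agent.H462.N9.Phi

open H667R3 Pool.Agent.W192.HK Pool.Agent.TH936.CM
open Pool.Agent.TH936.PU hiding v_int
open Pool.Agent.Y715.Dist Pool.Agent.Y715.Idn Pool.Agent.Y715.T.Lat Pool.Agent.Y696
open Pool.Agent.Y715.Two (v_nat v_int v_unit v_mul_le_of)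
open Pool.Agent.Y715.T.Three Pool.Agent.Y715.T.Cg
open Pool.Agent.Y703.CT.Ana (big om_val om_val2 dat' rel_la' dwp_two)
open Pool.Agent.H462.CTU.Phi

variable {L : PeriodPair} {Ω : ℂ}

/-- the lattice with the distinguished generator -/
structure Cm (L : PeriodPair) (Ω : ℂ) : Prop extends Cur L Ω where
  x1 : ℘[L] (Ω / 3) = -1

lemma lam_om : lam = om - om ^ 2 := by
  rw [← la_coe, la_eq]
  push_cast
  rw [omr_coe]

section A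

variable (hC : Cur L Ω)

include hC

/-- chord form of the addition theorem -/
lemma wp_chord {z w : ℂ} (hz : 2 * z ∉ L.lattice) (hw : w ∉ L.lattice)
    (h1 : z + w ∉ L.lattice) (h2 : z - w ∉ L.lattice) :
    ℘[L] (z + w) = ((℘'[L] z - ℘'[L] w) / (℘[L] z - ℘[L] w)) ^ 2 / 4 - ℘[L] z - ℘[L] w := by
  have hz0 := two_mul_notMem_of L hz
  have h3 := wp_sub_ne hz0 hw h1 h2
  have e1 := hC.ode hz0
  have e2 := hC.ode hw
  rw [wp_add L hz hw h1 h2, hC.g2]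
  set x := ℘[L] z
  set X := ℘[L] w
  set y := ℘'[L] z
  set Y := ℘'[L] w
  rw [← sub_eq_zero]
  field_simp
  ring_nf
  linear_combination 4 * e1 - 4 * e2

/-- the derivative at the multiple by the square root of `-3` -/
theorem dwp_la {u : ℂ} (hu : 2 * u ∉ L.lattice) (hl : lam * u ∉ L.lattice) :
    3 * lam * ℘[L] u ^ 3 * ℘'[L] (lam * u) = ℘'[L] u * (2 - ℘[L] u ^ 3) := by
  have hu0 := two_mul_notMem_of L hu
  have hou : IsUnit omr := omr_unit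
  have hou2 : IsUnit (omr ^ 2) := hou.pow 2
  have z1 : 2 * (om * u) ∉ L.lattice := by
    have e : 2 * (om * u) = (omr : eis) * (2 * u) := by rw [omr_coe]; ring
    rw [e, lat_unit hC.lat hou]
    exact hu
  have z2 : -(om ^ 2 * u) ∉ L.lattice := by
    rw [neg_mem_iff]
    have e : om ^ 2 * u = ((omr ^ 2 : eis) : ℂ) * u := by push_cast; rw [omr_coe]
    rw [e, lat_unit hC.lat hou2]
    exact hu0
  have elam := lam_om
  have e3 : om * u + -(om ^ 2 * u) = lam * u := by rw [elam]; ring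
  have e4 : om * u - -(om ^ 2 * u) = -u := by linear_combination u * om_sq
  have h1 : om * u + -(om ^ 2 * u) ∉ L.lattice := by rwa [e3]
  have h2 : om * u - -(om ^ 2 * u) ∉ L.lattice := by rwa [e4, neg_mem_iff]
  have h4 := dwp_chord hC z1 z2 h1 h2
  have h3 := wp_sub_ne (two_mul_notMem_of L z1) z2 h1 h2
  have i1 : (om ^ 2)⁻¹ = om :=
    (eq_inv_of_mul_eq_one_left (by linear_combination om_cube)).symm
  have i2 : (om ^ 3)⁻¹ = 1 := by rw [om_cube, inv_one]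
  have w1 : ℘[L] (om * u) = om * ℘[L] u := by
    have := wp_unit hC.lat hou u
    rwa [omr_coe, i1] at this
  have w1' : ℘'[L] (om * u) = ℘'[L] u := by
    have := dwp_unit hC.lat hou u
    rwa [omr_coe, i2, one_mul] at this
  have w2 : ℘[L] (-(om ^ 2 * u)) = om ^ 2 * ℘[L] u := by
    rw [L.weierstrassP_neg]
    have := wp_unit hC.lat hou2 u
    push_cast at this
    rw [omr_coe] at this
    rw [this]
    have i3 : ((om ^ 2) ^ 2)⁻¹ = om ^ 2 :=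
      (eq_inv_of_mul_eq_one_left (by linear_combination (om ^ 3 + 1) * om_cube)).symm
    rw [i3]
  have w2' : ℘'[L] (-(om ^ 2 * u)) = -℘'[L] u := by
    rw [L.derivWeierstrassP_neg]
    have := dwp_unit hC.lat hou2 u
    push_cast at this
    rw [omr_coe] at this
    rw [this]
    have i3 : ((om ^ 2) ^ 3)⁻¹ = 1 := by
      rw [← pow_mul, mul_comm, pow_mul, om_cube, one_pow, inv_one]
    rw [i3, one_mul]
  rw [e3, w1, w1', w2, w2'] at h4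
  rw [w1, w2] at h3
  have h5 := hC.ode hu0
  rw [h4]
  set x := ℘[L] u
  set y := ℘'[L] u
  have hx : x ≠ 0 := by
    intro h
    apply h3
    rw [h]
    ring
  have hl0 := lam_ne'
  have ed : om * x - om ^ 2 * x = lam * x := by rw [elam]; ring
  rw [ed]
  obtain ⟨m, hm⟩ : ∃ m, m = (y - -y) / (lam * x) := ⟨_, rfl⟩
  have hm1 : lam * x * m = 2 * y := by
    rw [hm]
    field_simp
    ring
  have hm2 : 3 * x ^ 2 * m ^ 2 = -4 * y ^ 2 := by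
    linear_combination (-(lam * x * m) - 2 * y) * hm1 + (x ^ 2 * m ^ 2) * lam_sq
  rw [← hm]
  have hls := lam_sq
  have hos := om_sq
  linear_combination (-3 * x ^ 2 * (m ^ 2 / 4 - om * x - om ^ 2 * x - om * x)) * hm1 +
    (-y / 2) * hm2 + (2 * y) * h5 + (9 * x ^ 3 * y) * hos -
    (3 * x ^ 3 * y) * elam

lemma lat_three {z : ℂ} (hz : z ∈ L.lattice) : 3 * z ∈ L.lattice := by
  have := hC.lat.mul 3 _ hz
  exact this

lemma tor {p t : ℂ} (ht : 3 * t ∈ L.lattice) (hp : 3 * p ∉ L.lattice) : p + t ∉ L.lattice := by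
  intro h
  apply hp
  have h1 := lat_three hC h
  have e : 3 * p = 3 * (p + t) - 3 * t := by ring
  rw [e]
  exact sub_mem h1 ht

lemma tau3 : 3 * tau Ω ∈ L.lattice := by
  have h1 : Ω ∈ L.lattice := (hC.lat.mem Ω).2 ⟨1, by push_cast; ring⟩
  have h2 := hC.lat.mul la _ h1
  have h3 : 3 * tau Ω = -((la : ℂ) * Ω) := by
    rw [la_coe, tau_eq]
    ring
  rw [h3, neg_mem_iff]
  exact h2

lemma t3 : 3 * (Ω / 3) ∈ L.lattice := by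
  have h1 : Ω ∈ L.lattice := (hC.lat.mem Ω).2 ⟨1, by push_cast; ring⟩
  have e : 3 * (Ω / 3) = Ω := by ring
  rwa [e]

end A

/-! ### the function -/

/-- the function -/
noncomputable def ff (L : PeriodPair) (Ω p : ℂ) : ℂ :=
  ph L Ω om p + ph L Ω om (p + Ω / 3) + ph L Ω om (p - Ω / 3)

lemma om_root : om ^ 2 + om + 1 = 0 := om_sq

section B

variable (hC : Cur L Ω)

include hC

/-- the nine translates -/
theorem lim_ff {p : ℂ} (hp : 3 * p ∉ L.lattice) :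
    Tendsto (fun δ : ℝ =>
      (EE eis Ω δ p + om * EE eis Ω δ (p + tau Ω) + om ^ 2 * EE eis Ω δ (p - tau Ω)) +
      (EE eis Ω δ (p + Ω / 3) + om * EE eis Ω δ (p + Ω / 3 + tau Ω) +
        om ^ 2 * EE eis Ω δ (p + Ω / 3 - tau Ω)) +
      (EE eis Ω δ (p - Ω / 3) + om * EE eis Ω δ (p - Ω / 3 + tau Ω) +
        om ^ 2 * EE eis Ω δ (p - Ω / 3 - tau Ω))) (𝓝[>] 0) (𝓝 (ff L Ω p)) := by
  have h3 := tau3 hC
  have h3' : 3 * -tau Ω ∈ L.lattice := by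
    rw [mul_neg, neg_mem_iff]
    exact h3
  have h4 := t3 hC
  have h4' : 3 * -(Ω / 3) ∈ L.lattice := by
    rw [mul_neg, neg_mem_iff]
    exact h4
  have key : ∀ q : ℂ, 3 * q ∉ L.lattice → Tendsto (fun δ : ℝ =>
      (EE eis Ω δ q + om * EE eis Ω δ (q + tau Ω) + om ^ 2 * EE eis Ω δ (q - tau Ω)))
        (𝓝[>] 0) (𝓝 (ph L Ω om q)) := by
    intro q hq
    refine lim_A hC om_root ?_ (tor hC h3 hq) ?_
    · have := tor hC (t := 0) (by rw [mul_zero]; exact zero_mem _) hq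
      rwa [add_zero] at this
    · have := tor hC h3' hq
      rwa [← sub_eq_add_neg] at this
  have hp1 : 3 * (p + Ω / 3) ∉ L.lattice := by
    intro h
    apply hp
    have e : 3 * p = 3 * (p + Ω / 3) - 3 * (Ω / 3) := by ring
    rw [e]
    exact sub_mem h h4
  have hp2 : 3 * (p - Ω / 3) ∉ L.lattice := by
    intro h
    apply hp
    have e : 3 * p = 3 * (p - Ω / 3) + 3 * (Ω / 3) := by ring
    rw [e]
    exact add_mem h h4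
  exact ((key p hp).add (key _ hp1)).add (key _ hp2)

end B

section C

variable (hC : Cm L Ω)

include hC

lemma lt : lam * ℘'[L] (tau Ω) = ℘'[L] (Ω / 3) := by
  have h1 := tau_notMem hC.toCur
  rw [tau_eq, neg_mem_iff] at h1
  have h2 := dwp_la hC.toCur hC.toCur.third_two h1
  rw [hC.x1] at h2
  rw [tau_eq, L.derivWeierstrassP_neg]
  linear_combination (1 / 3 : ℂ) * h2

lemma ph_eq (p : ℂ) : ph L Ω om p = -(℘'[L] p + ℘'[L] (Ω / 3)) / (2 * ℘[L] p) := by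
  unfold ph
  rw [← lam_om, lt hC]

end C

/-! ### the cube -/

/-- the sum of the three translates -/
lemma algA {x y c : ℂ} (ho : y ^ 2 = 4 * x ^ 3 + 1) (hc : c ^ 2 = -3) (hx : x ≠ 0)
    (h1 : x + 1 ≠ 0) (hX : x ^ 3 + 1 ≠ 0) (hp : -2 * x ^ 2 + 2 * x + 1 - y * c ≠ 0)
    (hm : -2 * x ^ 2 + 2 * x + 1 + y * c ≠ 0) :
    -(y + c) / (2 * x) +
      -(-(c + (y - c) / (x + 1) * ((-2 * x ^ 2 + 2 * x + 1 - y * c) / (2 * (x + 1) ^ 2) + 1)) + c) /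
        (2 * ((-2 * x ^ 2 + 2 * x + 1 - y * c) / (2 * (x + 1) ^ 2))) +
      -(-(-c + (y + c) / (x + 1) * ((-2 * x ^ 2 + 2 * x + 1 + y * c) / (2 * (x + 1) ^ 2) + 1)) + c) /
        (2 * ((-2 * x ^ 2 + 2 * x + 1 + y * c) / (2 * (x + 1) ^ 2))) =
    -(y + c) / (2 * x) * ((2 * (x ^ 3 + 1) ^ 2 + 6 * x ^ 2 * (x ^ 3 + 1) - 9 * x ^ 4 -
      c * x * y * (x ^ 3 - 2)) / (2 * (x ^ 3 + 1) ^ 2)) := by
  obtain ⟨N, hN⟩ : ∃ N, N = -2 * x ^ 2 + 2 * x + 1 - y * c := ⟨_, rfl⟩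
  obtain ⟨M, hM⟩ : ∃ M, M = -2 * x ^ 2 + 2 * x + 1 + y * c := ⟨_, rfl⟩
  rw [← hN, ← hM]
  rw [← hN] at hp
  rw [← hM] at hm
  rw [← sub_eq_zero]
  have e : (-(y + c) / (2 * x) +
      -(-(c + (y - c) / (x + 1) * (N / (2 * (x + 1) ^ 2) + 1)) + c) /
        (2 * (N / (2 * (x + 1) ^ 2))) +
      -(-(-c + (y + c) / (x + 1) * (M / (2 * (x + 1) ^ 2) + 1)) + c) /
        (2 * (M / (2 * (x + 1) ^ 2))) -
    -(y + c) / (2 * x) * ((2 * (x ^ 3 + 1) ^ 2 + 6 * x ^ 2 * (x ^ 3 + 1) - 9 * x ^ 4 -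
      c * x * y * (x ^ 3 - 2)) / (2 * (x ^ 3 + 1) ^ 2))) =
      -((y + c) * (x + 1) * N * M * (2 * (x ^ 3 + 1) ^ 2) +
        (-(y - c) * (N + 2 * (x + 1) ^ 2)) * M * x * (2 * (x ^ 3 + 1) ^ 2) +
        (4 * c * (x + 1) ^ 3 - (y + c) * (M + 2 * (x + 1) ^ 2)) * N * x * (2 * (x ^ 3 + 1) ^ 2) -
        (y + c) * (2 * (x ^ 3 + 1) ^ 2 + 6 * x ^ 2 * (x ^ 3 + 1) - 9 * x ^ 4 -
          c * x * y * (x ^ 3 - 2)) * (x + 1) * N * M) /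
      (2 * x * (x + 1) * N * M * (2 * (x ^ 3 + 1) ^ 2)) := by
    field_simp
    ring
  rw [e, div_eq_zero_iff]
  left
  rw [hN, hM, neg_eq_zero]
  linear_combination (-4 * c ^ 3 * x ^ 8 + 4 * c * x ^ 9 + 4 * c ^ 2 * x ^ 7 * y - c ^ 3 * x ^ 5 * y ^ 2 - 4 *
    c ^ 3 * x ^ 7 - c ^ 4 * x ^ 5 * y - 4 * c * x ^ 8 + 6 * c ^ 2 * x ^ 6 * y - c ^ 3 * x ^
    4 * y ^ 2 + 6 * c ^ 3 * x ^ 6 - c ^ 4 * x ^ 4 * y - 8 * c * x ^ 7 - 3 * c ^ 2 * x ^ 5 *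
    y + 4 * c ^ 3 * x ^ 5 - 4 * c * x ^ 6 - c ^ 2 * x ^ 4 * y + 2 * c ^ 3 * x ^ 2 * y ^ 2 -
    2 * c ^ 3 * x ^ 4 + 2 * c ^ 4 * x ^ 2 * y + 13 * c * x ^ 5 + 6 * c ^ 2 * x ^ 3 * y + 2 *
    c ^ 3 * x * y ^ 2 + 6 * c ^ 3 * x ^ 3 + 2 * c ^ 4 * x * y + 17 * c * x ^ 4 + 6 * c ^ 2 *
    x ^ 2 * y + 8 * c ^ 3 * x ^ 2 - 8 * c * x ^ 3 + 4 * c ^ 2 * x * y + 2 * c ^ 3 * x - 10 *
    c * x ^ 2 - 2 * c * x) * ho + (-16 * c * x ^ 11 - 16 * c * x ^ 10 - 4 * c ^ 2 * x ^ 8 * y + 8 * x ^ 10 * y + 24 * c * x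
    ^ 9 - 4 * c ^ 2 * x ^ 7 * y + 12 * x ^ 9 * y + 12 * c * x ^ 8 - 12 * x ^ 8 * y - 12 * c
    * x ^ 7 + 7 * c ^ 2 * x ^ 5 * y - 12 * x ^ 7 * y + 30 * c * x ^ 6 + 7 * c ^ 2 * x ^ 4 *
    y - 6 * x ^ 6 * y + 36 * c * x ^ 5 - 3 * x ^ 5 * y + 6 * c * x ^ 4 + 2 * c ^ 2 * x ^ 2 *
    y + 3 * x ^ 4 * y + 6 * c * x ^ 3 + 2 * c ^ 2 * x * y - 18 * x ^ 3 * y + 8 * c * x ^ 2 -
    18 * x ^ 2 * y + 2 * c * x - 4 * x * y) * hc

/-- the second identity -/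
lemma algB {X Y e l : ℂ} (ho : Y ^ 2 = 4 * X ^ 3 + 1) (he : e ^ 2 = 1) (hl : l ^ 2 = -3)
    (hX : X ≠ 0) :
    3 * l / 2 * (Y - e) * ((2 * X ^ 2 - 2 * X - 1 - e * Y) / (2 * X ^ 2)) ^ 3 =
      -(27 / 2) * (Y * (X ^ 3 - 2) / (3 * l * X ^ 3) - e * l + 2 * (e * l) * ((X ^ 3 + 1) /
        (3 * X ^ 2))) := by
  have hl0 : l ≠ 0 := by
    rintro rfl
    norm_num at hl
  rw [← sub_eq_zero]
  have e1 : 3 * l / 2 * (Y - e) * ((2 * X ^ 2 - 2 * X - 1 - e * Y) / (2 * X ^ 2)) ^ 3 -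
      -(27 / 2) * (Y * (X ^ 3 - 2) / (3 * l * X ^ 3) - e * l + 2 * (e * l) * ((X ^ 3 + 1) /
        (3 * X ^ 2))) =
      (3 * l * l * (Y - e) * (2 * X ^ 2 - 2 * X - 1 - e * Y) ^ 3 - (-(27) * 8 *
        (Y * (X ^ 3 - 2) * X ^ 3 / 3 - e * l * l * X ^ 6 +
          2 * e * l * l * (X ^ 3 + 1) * X ^ 4 / 3))) / (16 * X ^ 6 * l) := by
    field_simp
    ring
  rw [e1, div_eq_zero_iff]
  left
  linear_combination (-12 * X ^ 3 * e ^ 3 * l ^ 2 + 18 * X ^ 2 * Y * e ^ 2 * l ^ 2 - 18 * X ^ 2 * e ^ 3 * l ^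
    2 - 36 * X ^ 4 * e * l ^ 2 + 3 * Y * e ^ 4 * l ^ 2 - 3 * Y ^ 2 * e ^ 3 * l ^ 2 - 18 * X
    * Y * e ^ 2 * l ^ 2 + 18 * X * e ^ 3 * l ^ 2 + 72 * X ^ 3 * e * l ^ 2 - 9 * Y * e ^ 2 *
    l ^ 2 + 6 * e ^ 3 * l ^ 2 - 36 * X * e * l ^ 2 - 9 * e * l ^ 2) * ho + (-48 * X ^ 6 * e * l ^ 2 + 12 * X ^ 3 * Y * e ^ 2 * l ^ 2 + 72 * X ^ 5 * Y * l ^ 2 - 72 *
    X ^ 5 * e * l ^ 2 - 36 * X ^ 4 * Y * l ^ 2 + 72 * X ^ 4 * e * l ^ 2 - 96 * X ^ 3 * Y * l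
    ^ 2 + 12 * X ^ 3 * e * l ^ 2 + 18 * X ^ 2 * Y * l ^ 2 - 18 * X ^ 2 * e * l ^ 2 + 3 * Y *
    e ^ 2 * l ^ 2 + 18 * X * Y * l ^ 2 + 18 * X * e * l ^ 2 + 3 * Y * l ^ 2 + 6 * e * l ^ 2) * he + (24 * X ^ 6 * Y - 48 * X ^ 3 * Y) * hl

end Pool.Agent.H462.N9.Phi
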