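import Pool.Agent.H462.N9.Phi

/-!
# The cube of the function for the cubic character modulo nine
-/

set_option autoImplicit false
set_option linter.unusedSectionVars false

open Filter
open scoped Topology PeriodPair

namespace Pool.Agent.H462.N9.Phi

open H667R3 Pool.Agent.W192.HK Pool.Agent.TH936.CM
open Pool.Agent.TH936.PU hiding v_int
open Pool.Agent.Y715.Dist Pool.Agent.Y715.Idn Pool.Agent.Y715.T.Lat Pool.Agent.Y696
open Pool.Agent.Y715.Two (v_nat v_int v_unit v_mul_le_of)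
open Pool.Agent.Y715.T.Three Pool.Agent.Y715.T.Cg
open Pool.Agent.Y703.CT.Ana (big om_val om_val2 dat' rel_la' dwp_two)
open Pool.Agent.H462.CTU.Phi

variable {L : PeriodPair} {Ω : ℂ}

lemma lam_tau (Ω : ℂ) : lam * tau Ω = Ω := by
  unfold tau
  have h0 := lam_ne'
  field_simp

section A

variable (hC : Cm L Ω)

include hC

/-- the conditions on the point -/
lemma pts {p : ℂ} (h6 : 6 * p ∉ L.lattice) : 3 * p ∉ L.lattice ∧ p ∉ L.lattice ∧
    2 * p ∉ L.lattice ∧ lam * p ∉ L.lattice ∧ 2 * (lam * p) ∉ L.lattice ∧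
    lam * (lam * p) ∉ L.lattice := by
  have hmul : ∀ (a : eis) (z : ℂ), z ∈ L.lattice → (a : ℂ) * z ∈ L.lattice := hC.lat.mul
  have h3 : 3 * p ∉ L.lattice := by
    intro h
    apply h6
    have h1 := add_mem h h
    have e : 6 * p = 3 * p + 3 * p := by ring
    rwa [e]
  have hll : lam * (lam * p) ∉ L.lattice := by
    have e : lam * (lam * p) = -(3 * p) := by linear_combination p * lam_sq
    rw [e, neg_mem_iff]
    exact h3
  have hl : lam * p ∉ L.lattice := by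
    intro h
    have h1 := hmul la _ h
    rw [la_coe] at h1
    exact hll h1
  have h2 : 2 * p ∉ L.lattice := by
    intro h
    apply h6
    have h1 := lat_three hC.toCur h
    have e : 6 * p = 3 * (2 * p) := by ring
    rwa [e]
  refine ⟨h3, ?_, h2, hl, ?_, hll⟩
  · intro h
    exact h2 (by
      have := add_mem h h
      rwa [← two_mul] at this)
  · intro h
    have h1 := hmul la _ h
    rw [la_coe] at h1
    apply h6
    have e : 6 * p = -(lam * (2 * (lam * p))) := by linear_combination (2 * p) * lam_sq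
    rw [e, neg_mem_iff]
    exact h1

lemma wp_tau_ne {p : ℂ} (hp : 3 * p ∉ L.lattice) : ℘[L] p ≠ 0 := by
  have h3 := tau3 hC.toCur
  have h3' : 3 * -tau Ω ∈ L.lattice := by
    rw [mul_neg, neg_mem_iff]
    exact h3
  have h0 : p ∉ L.lattice := by
    have := tor hC.toCur (t := 0) (by rw [mul_zero]; exact zero_mem _) hp
    rwa [add_zero] at this
  have h2 := tor hC.toCur h3' hp
  rw [← sub_eq_add_neg] at h2
  have := wp_sub_ne h0 (tau_notMem hC.toCur) (tor hC.toCur h3 hp) h2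
  rwa [wp_tau hC.toCur, sub_zero] at this

/-- the translates by a third -/
lemma trans {p : ℂ} (h2 : 2 * p ∉ L.lattice) (hp : 3 * p ∉ L.lattice) :
    ℘[L] p + 1 ≠ 0 ∧
    ℘[L] (p + Ω / 3) = (-2 * ℘[L] p ^ 2 + 2 * ℘[L] p + 1 - ℘'[L] p * ℘'[L] (Ω / 3)) /
      (2 * (℘[L] p + 1) ^ 2) ∧
    ℘'[L] (p + Ω / 3) = -(℘'[L] (Ω / 3) + (℘'[L] p - ℘'[L] (Ω / 3)) / (℘[L] p + 1) *
      (℘[L] (p + Ω / 3) + 1)) ∧
    ℘[L] (p - Ω / 3) = (-2 * ℘[L] p ^ 2 + 2 * ℘[L] p + 1 + ℘'[L] p * ℘'[L] (Ω / 3)) /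
      (2 * (℘[L] p + 1) ^ 2) ∧
    ℘'[L] (p - Ω / 3) = -(-℘'[L] (Ω / 3) + (℘'[L] p + ℘'[L] (Ω / 3)) / (℘[L] p + 1) *
      (℘[L] (p - Ω / 3) + 1)) := by
  have h4 := t3 hC.toCur
  have h4' : 3 * -(Ω / 3) ∈ L.lattice := by
    rw [mul_neg, neg_mem_iff]
    exact h4
  have h0 : p ∉ L.lattice := two_mul_notMem_of L h2
  have a1 := tor hC.toCur h4 hp
  have a2 := tor hC.toCur h4' hp
  have a2' := a2
  rw [← sub_eq_add_neg] at a2'
  have hth := hC.toCur.third
  have hth' : -(Ω / 3) ∉ L.lattice := by rwa [neg_mem_iff]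
  have h1 : ℘[L] p + 1 ≠ 0 := by
    have := wp_sub_ne h0 hth a1 a2'
    rwa [hC.x1, sub_neg_eq_add] at this
  have a3 : p - -(Ω / 3) ∉ L.lattice := by rwa [sub_neg_eq_add]
  have b1 := wp_chord hC.toCur h2 hth a1 a2'
  have b2 := dwp_chord hC.toCur h2 hth a1 a2'
  have b3 := wp_chord hC.toCur h2 hth' a2 a3
  have b4 := dwp_chord hC.toCur h2 hth' a2 a3
  rw [← sub_eq_add_neg] at b3 b4
  rw [L.weierstrassP_neg, L.derivWeierstrassP_neg] at b3 b4
  rw [hC.x1] at b1 b2 b3 b4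
  have ho := hC.toCur.ode h0
  have hc := hC.toCur.y0
  set x := ℘[L] p
  set y := ℘'[L] p
  set c := ℘'[L] (Ω / 3)
  rw [sub_neg_eq_add, sub_neg_eq_add] at b1 b3
  have ex : x - -1 = x + 1 := by ring
  rw [ex] at b2 b4
  rw [sub_neg_eq_add] at b4 b3
  refine ⟨h1, ?_, ?_, ?_, ?_⟩
  · rw [b1]
    field_simp
    linear_combination 2 * ho + 2 * hc
  · rw [b2, b1]
    field_simp
    ring
  · rw [b3]
    field_simp
    linear_combination 2 * ho + 2 * hc
  · rw [b4, b3]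
    field_simp
    ring

/-- **The cube.** -/
theorem ff_cube {p : ℂ} (h6 : 6 * p ∉ L.lattice) : ff L Ω p ^ 3 =
    -(27 / 2) * (℘'[L] (3 * p) - ℘'[L] (Ω / 3) - 2 * ℘'[L] (Ω / 3) * ℘[L] (3 * p)) := by
  obtain ⟨h3, h0, h2, hl, h2l, hll⟩ := pts hC h6
  have hCu := hC.toCur
  have h4 := t3 hCu
  have h4' : 3 * -(Ω / 3) ∈ L.lattice := by
    rw [mul_neg, neg_mem_iff]
    exact h4
  obtain ⟨hx1, e1, e2, e3, e4⟩ := trans hC h2 h3
  have hx : ℘[L] p ≠ 0 := wp_tau_ne hC h3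
  have hp1 : 3 * (p + Ω / 3) ∉ L.lattice := by
    intro h
    apply h3
    have e : 3 * p = 3 * (p + Ω / 3) - 3 * (Ω / 3) := by ring
    rw [e]
    exact sub_mem h h4
  have hp2 : 3 * (p - Ω / 3) ∉ L.lattice := by
    intro h
    apply h3
    have e : 3 * p = 3 * (p - Ω / 3) + 3 * (Ω / 3) := by ring
    rw [e]
    exact add_mem h h4
  have hxp := wp_tau_ne hC hp1
  have hxm := wp_tau_ne hC hp2
  have hX : ℘[L] (lam * p) ≠ 0 := by
    have key : ∀ s : ℂ, lam * s ∈ L.lattice → lam * p + s ∉ L.lattice := by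
      intro s hs h
      have h1 := hCu.lat.mul la _ h
      rw [la_coe, mul_add] at h1
      exact hll (by
        have := sub_mem h1 hs
        rwa [add_sub_cancel_right] at this)
    have hΩ : Ω ∈ L.lattice := (hCu.lat.mem Ω).2 ⟨1, by push_cast; ring⟩
    have k1 := key (tau Ω) (by rw [lam_tau]; exact hΩ)
    have k2 := key (-tau Ω) (by rw [mul_neg, lam_tau, neg_mem_iff]; exact hΩ)
    rw [← sub_eq_add_neg] at k2
    have := wp_sub_ne hl (tau_notMem hCu) k1 k2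
    rwa [wp_tau hCu, sub_zero] at this
  have f1 := wp_la hCu h2 hl
  have f2 := dwp_la hCu h2 hl
  have f3 := wp_la hCu h2l hll
  have f4 := dwp_la hCu h2l hll
  have ell : lam * (lam * p) = -(3 * p) := by linear_combination p * lam_sq
  rw [ell, L.weierstrassP_neg] at f3
  rw [ell, L.derivWeierstrassP_neg] at f4
  have ho := hCu.ode h0
  have ho2 := hCu.ode hl
  have hc := hCu.y0
  have he := dwp_tau hCu
  have hlt := lt hC
  have hls := lam_sq
  have hl0 := lam_ne'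
  unfold ff
  rw [ph_eq hC, ph_eq hC, ph_eq hC, e2, e4, e1, e3]
  rw [e1] at hxp
  rw [e3] at hxm
  set x := ℘[L] p
  set y := ℘'[L] p
  set c := ℘'[L] (Ω / 3)
  set X := ℘[L] (lam * p)
  set Y := ℘'[L] (lam * p)
  set e := ℘'[L] (tau Ω)
  set X3 := ℘[L] (3 * p)
  set Y3 := ℘'[L] (3 * p)
  have hx3 : x ^ 3 + 1 ≠ 0 := by
    intro h
    rw [h, neg_zero] at f1
    exact (mul_ne_zero (mul_ne_zero three_ne_zero (pow_ne_zero 2 hx)) hX) f1
  have hp' : -2 * x ^ 2 + 2 * x + 1 - y * c ≠ 0 := fun h => hxp (by rw [h, zero_div])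
  have hm' : -2 * x ^ 2 + 2 * x + 1 + y * c ≠ 0 := fun h => hxm (by rw [h, zero_div])
  rw [algA ho hc hx hx1 hx3 hp' hm']
  have eX : X = -(x ^ 3 + 1) / (3 * x ^ 2) := by
    rw [eq_div_iff (mul_ne_zero three_ne_zero (pow_ne_zero 2 hx))]
    linear_combination f1
  have eY : Y = y * (2 - x ^ 3) / (3 * lam * x ^ 3) := by
    rw [eq_div_iff (mul_ne_zero (mul_ne_zero three_ne_zero hl0) (pow_ne_zero 3 hx))]
    linear_combination f2
  have eX3 : X3 = -((X ^ 3 + 1) / (3 * X ^ 2)) := by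
    rw [← neg_div, eq_div_iff (mul_ne_zero three_ne_zero (pow_ne_zero 2 hX))]
    linear_combination f3
  have eY3 : Y3 = Y * (X ^ 3 - 2) / (3 * lam * X ^ 3) := by
    rw [eq_div_iff (mul_ne_zero (mul_ne_zero three_ne_zero hl0) (pow_ne_zero 3 hX))]
    linear_combination -f4
  have hls2 : lam ^ 2 = -3 := by rw [pow_two, hls]
  -- the first factor
  have g1 : (-(y + c) / (2 * x)) ^ 3 = 3 * lam / 2 * (Y - e) := by
    rw [eY, div_pow, ← hlt]
    have e5 : 3 * lam / 2 * (y * (2 - x ^ 3) / (3 * lam * x ^ 3) - e) =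
        (4 * y * (2 - x ^ 3) - 12 * lam * e * x ^ 3) / (2 * x) ^ 3 := by
      field_simp
      ring
    rw [e5]
    congr 1
    linear_combination (-y - 3 * lam * e) * ho + (-3 * y * e ^ 2 - lam * e ^ 3) * hls2 +
      (9 * y + 3 * lam * e) * he
  -- the second factor
  have g2 : (2 * (x ^ 3 + 1) ^ 2 + 6 * x ^ 2 * (x ^ 3 + 1) - 9 * x ^ 4 -
      c * x * y * (x ^ 3 - 2)) / (2 * (x ^ 3 + 1) ^ 2) =
      (2 * X ^ 2 - 2 * X - 1 - e * Y) / (2 * X ^ 2) := by
    rw [div_eq_div_iff (mul_ne_zero two_ne_zero (pow_ne_zero 2 hx3))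
      (mul_ne_zero two_ne_zero (pow_ne_zero 2 hX)), eX, eY, ← hlt]
    field_simp
    linear_combination (2 * x * e * y - x ^ 4 * e * y) * hls2
  rw [mul_pow, g1, g2, algB ho2 he hls2 hX, eX3, eY3, ← hlt]
  ring

end A

end Pool.Agent.H462.N9.Phi
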