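import Pool.Agent.H462.N9.Phi2

/-!
# Comparison of the values of the function for the cubic character modulo nine
-/

set_option autoImplicit false
set_option linter.unusedSectionVars false

open Filter
open scoped Topology PeriodPair

namespace Pool.Agent.H462.N9.Phi

open H667R3 Pool.Agent.W192.HK Pool.Agent.TH936.CM
open Pool.Agent.TH936.PU hiding v_int
open Pool.Agent.Y715.Dist Pool.Agent.Y715.Idn Pool.Agent.Y715.T.Lat Pool.Agent.Y696
open Pool.Agent.Y715.Two (v_nat v_int v_unit v_mul_le_of)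
open Pool.Agent.Y715.T.Three Pool.Agent.Y715.T.Cg
open Pool.Agent.Y703.CT.Ana (big om_val om_val2 dat' rel_la' dwp_two)
open Pool.Agent.H462.CTU.Phi

variable {L : PeriodPair} {Ω : ℂ} {Γ : Type*} [LinearOrderedCommGroupWithZero Γ]
  {v : Valuation ℂ Γ}

/-- a point where the function is close to the opposite of the constant -/
structure Pt (v : Valuation ℂ Γ) (L : PeriodPair) (p : ℂ) : Prop where
  six : 6 * p ∉ L.lattice
  dd : v (℘'[L] (3 * p)) < v lam
  pp : v (℘[L] (3 * p) + 1) < 1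

section B

variable (h3 : v 3 < 1)

include h3

lemma v4 : v 4 = 1 := by
  have : (4 : ℂ) = 2 * 2 := by norm_num
  rw [this, map_mul, v_two h3, one_mul]

lemma c_val {c : ℂ} (hc : c ^ 2 = -3) : v c = v lam := by
  have h9 : v c ^ 2 = v lam ^ 2 := by
    rw [← map_pow, hc, v.map_neg, pow_two, sq_three]
  exact (pow_left_inj₀ zero_le zero_le two_ne_zero).1 h9

/-- the addition formula: the values at a translate of the point of order three -/
lemma add_small {X Y c : ℂ} (ho : Y ^ 2 = 4 * X ^ 3 + 1) (hc : c ^ 2 = -3)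
    (hY : v (Y ^ 2) ≤ v lam ^ 3) :
    v (((c - Y) / (-1 - X)) ^ 2 / 4 - -1 - X + 1) < 1 ∧
    v (-(c + (c - Y) / (-1 - X) * (((c - Y) / (-1 - X)) ^ 2 / 4 - -1 - X - -1))) < v lam := by
  have hl := lam_lt h3
  have hlp : 0 < v lam := lam_pos
  have h4 := v4 h3
  have hcv := c_val h3 hc
  have h33 := sq_three (v := v)
  obtain ⟨δ, hδ⟩ : ∃ δ, δ = -1 - X := ⟨_, rfl⟩
  rw [← hδ]
  have hXδ : X = -1 - δ := by rw [hδ]; ring
  have e1 : 4 * δ ^ 3 = -3 - 12 * δ - 12 * δ ^ 2 - Y ^ 2 := by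
    rw [ho, hXδ]
    ring
  have hY2 : v Y ^ 2 ≤ v lam ^ 3 := by rwa [← map_pow]
  have hY1 : v Y < v lam := by
    by_contra hcon
    push Not at hcon
    have h5 : v lam ^ 2 ≤ v Y ^ 2 := pow_le_pow_left₀ zero_le hcon 2
    have h6 : v lam ^ 3 < v lam ^ 2 := pow_lt_pow_right_of_lt_one₀ lam_pos hl (by norm_num)
    exact absurd (h5.trans hY2) (not_le.2 h6)
  -- the valuation of `δ`
  have hδ1 : v δ < 1 := by
    by_contra hcon
    push Not at hcon
    have h5 : v (4 * δ ^ 3) < v δ ^ 3 := by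
      rw [e1]
      have k1 : (1 : Γ) ≤ v δ ^ 3 := one_le_pow₀ hcon
      have k2 : v δ ≤ v δ ^ 3 := le_self_pow₀ hcon (by norm_num)
      have k3 : v δ ^ 2 ≤ v δ ^ 3 := pow_le_pow_right₀ hcon (by norm_num)
      have k0 : 0 < v δ ^ 3 := lt_of_lt_of_le zero_lt_one k1
      have k4 : v (12 : ℂ) < 1 := by
        have : (12 : ℂ) = 4 * 3 := by norm_num
        rw [this, map_mul, h4, one_mul]
        exact h3
      have kd : 0 < v δ := lt_of_lt_of_le zero_lt_one hcon
      refine v.map_sub_lt (v.map_sub_lt (v.map_sub_lt ?_ ?_) ?_) ?_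
      · rw [v.map_neg]
        exact h3.trans_le k1
      · rw [map_mul]
        calc v 12 * v δ < 1 * v δ := mul_lt_mul_of_pos_right k4 kd
          _ ≤ v δ ^ 3 := by rwa [one_mul]
      · rw [map_mul, map_pow]
        calc v 12 * v δ ^ 2 < 1 * v δ ^ 2 := mul_lt_mul_of_pos_right k4 (pow_pos kd 2)
          _ ≤ v δ ^ 3 := by rwa [one_mul]
      · refine (hY.trans_lt ?_).trans_le k1
        exact pow_lt_one₀ zero_le hl (by norm_num)
    rw [map_mul, h4, one_mul, map_pow] at h5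
    exact lt_irrefl _ h5
  have hδ3 : v δ ^ 3 = v 3 := by
    have h5 : v (4 * δ ^ 3) = v 3 := by
      have e2 : 4 * δ ^ 3 = -3 + (-(12 * δ) - 12 * δ ^ 2 - Y ^ 2) := by rw [e1]; ring
      have h6 : v (-(12 * δ) - 12 * δ ^ 2 - Y ^ 2) < v (-3 : ℂ) := by
        have k4 : v (12 : ℂ) = v 3 := by
          have : (12 : ℂ) = 4 * 3 := by norm_num
          rw [this, map_mul, h4, one_mul]
        have k5 : 0 < v (3 : ℂ) := by rw [← h33]; exact mul_pos hlp hlp
        rw [v.map_neg]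
        refine v.map_sub_lt (v.map_sub_lt ?_ ?_) ?_
        · rw [v.map_neg, map_mul, k4]
          calc v 3 * v δ < v 3 * 1 := mul_lt_mul_of_pos_left hδ1 k5
            _ = v 3 := mul_one _
        · rw [map_mul, k4, map_pow]
          calc v 3 * v δ ^ 2 < v 3 * 1 :=
                mul_lt_mul_of_pos_left (pow_lt_one₀ zero_le hδ1 (by norm_num)) k5
            _ = v 3 := mul_one _
        · refine hY.trans_lt ?_
          rw [← h33, ← pow_two]
          exact pow_lt_pow_right_of_lt_one₀ lam_pos hl (by norm_num)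
      rw [e2, v.map_add_eq_of_lt_left h6, v.map_neg]
    rwa [map_mul, h4, one_mul, map_pow] at h5
  have hδ0 : δ ≠ 0 := by
    rintro rfl
    rw [map_zero, zero_pow three_ne_zero] at hδ3
    exact three_ne (v := v) hδ3.symm
  have hδp : 0 < v δ := zero_lt_iff.2 ((map_ne_zero v).2 hδ0)
  -- the slope
  obtain ⟨s, hs⟩ : ∃ s, s = (c - Y) / δ := ⟨_, rfl⟩
  rw [← hs]
  have hsδ : s * δ = c - Y := by
    rw [hs]
    field_simp
  have hcY : v (c - Y) = v lam := by
    rw [sub_eq_add_neg, v.map_add_eq_of_lt_left, hcv]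
    rwa [v.map_neg, hcv]
  have hs3 : v s ^ 3 = v lam := by
    have h5 : (v s * v δ) ^ 3 = v lam ^ 3 := by rw [← map_mul, hsδ, hcY]
    rw [mul_pow, hδ3, ← h33] at h5
    have h6 : v lam ^ 3 = v lam * (v lam * v lam) := by
      rw [pow_succ, pow_two, mul_comm]
    rw [h6] at h5
    exact mul_right_cancel₀ (mul_pos hlp hlp).ne' h5
  have hs1 : v s < 1 := by
    by_contra hcon
    push Not at hcon
    have h5 : (1 : Γ) ≤ v s ^ 3 := one_le_pow₀ hcon
    rw [hs3] at h5
    exact absurd h5 (not_le.2 hl)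
  constructor
  · have e2 : s ^ 2 / 4 - -1 - X + 1 = s ^ 2 / 4 + 3 + δ := by
      rw [hXδ]
      ring
    rw [e2]
    refine v.map_add_lt (v.map_add_lt ?_ h3) hδ1
    rw [map_div₀, h4, div_one, map_pow]
    exact pow_lt_one₀ zero_le hs1 (by norm_num)
  · have e3 : -(c + s * (s ^ 2 / 4 - -1 - X - -1)) =
        Y - 3 * s - 3 * c - (9 * Y + 4 * c * Y ^ 2 - Y ^ 3 + 12 * c * δ + 12 * c * δ ^ 2) /
          (4 * δ ^ 3) := by
      have e4 : s = (c - Y) / δ := hs
      rw [eq_sub_iff_add_eq, eq_comm, ← sub_eq_iff_eq_add', eq_div_iff (mul_ne_zero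
        (by norm_num) (pow_ne_zero 3 hδ0)), hXδ]
      have e5 : s ^ 3 * δ ^ 3 = (c - Y) ^ 3 := by rw [← mul_pow, hsδ]
      linear_combination (4 * δ ^ 3) * hsδ + e5 + (c - 3 * Y) * hc - c * e1
    rw [e3]
    have h27 : v (3 : ℂ) < v lam := by
      rw [← h33]
      calc v lam * v lam < v lam * 1 := mul_lt_mul_of_pos_left hl hlp
        _ = v lam := mul_one _
    have h3p : 0 < v (3 : ℂ) := by rw [← h33]; exact mul_pos hlp hlp
    refine v.map_sub_lt (v.map_sub_lt (v.map_sub_lt hY1 ?_) ?_) ?_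
    · rw [map_mul]
      calc v 3 * v s < v 3 * 1 := mul_lt_mul_of_pos_left hs1 h3p
        _ < v lam := by rwa [mul_one]
    · rw [map_mul, hcv]
      calc v 3 * v lam < 1 * v lam := mul_lt_mul_of_pos_right h3 hlp
        _ = v lam := one_mul _
    · rw [map_div₀, map_mul, h4, one_mul, map_pow, hδ3, div_lt_iff₀ h3p]
      have h12 : v (12 : ℂ) = v 3 := by
        have : (12 : ℂ) = 4 * 3 := by norm_num
        rw [this, map_mul, h4, one_mul]
      have hl3 : 0 < v lam * v 3 := mul_pos hlp h3p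
      refine v.map_add_lt (v.map_add_lt (v.map_sub_lt (v.map_add_lt ?_ ?_) ?_) ?_) ?_
      · rw [map_mul, v_nine]
        have k1 : v lam ^ 4 * v Y < v lam ^ 4 * 1 :=
          mul_lt_mul_of_pos_left (hY1.trans hl) (pow_pos hlp 4)
        refine k1.trans ?_
        rw [mul_one, ← h33, ← mul_assoc, ← pow_two, ← pow_succ]
        exact pow_lt_pow_right_of_lt_one₀ lam_pos hl (by norm_num)
      · rw [map_mul, map_mul, h4, one_mul, hcv]
        refine mul_lt_mul_of_pos_left ?_ hlp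
        refine hY.trans_lt ?_
        rw [← h33, ← pow_two]
        exact pow_lt_pow_right_of_lt_one₀ lam_pos hl (by norm_num)
      · have e6 : Y ^ 3 = Y * Y ^ 2 := by ring
        rw [e6, map_mul]
        refine (mul_le_mul' le_rfl hY).trans_lt ?_
        have k1 : v Y * v lam ^ 3 < 1 * v lam ^ 3 :=
          mul_lt_mul_of_pos_right (hY1.trans hl) (pow_pos hlp 3)
        refine k1.trans_le ?_
        rw [one_mul, ← h33, pow_succ, pow_two, mul_comm]
      · rw [map_mul, map_mul, h12, hcv, mul_comm (v 3) (v lam)]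
        calc v lam * v 3 * v δ < v lam * v 3 * 1 := mul_lt_mul_of_pos_left hδ1 hl3
          _ = _ := mul_one _
      · rw [map_mul, map_mul, h12, hcv, mul_comm (v 3) (v lam), map_pow]
        calc v lam * v 3 * v δ ^ 2 < v lam * v 3 * 1 :=
              mul_lt_mul_of_pos_left (pow_lt_one₀ zero_le hδ1 (by norm_num)) hl3
          _ = _ := mul_one _

end B

/-! ### the points -/

/-- the base point -/
noncomputable def w9 (Ω : ℂ) : ℂ := Ω / 9

section C

variable (h3 : v 3 < 1) (hC : Cm L Ω)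

include hC

lemma w9_six : 6 * w9 Ω ∉ L.lattice := by
  have e : 6 * w9 Ω = 2 * (Ω / 3) := by
    unfold w9
    ring
  rw [e]
  exact hC.toCur.third_two

lemma w9_cube : ff L Ω (w9 Ω) ^ 3 = -27 * ℘'[L] (Ω / 3) := by
  rw [ff_cube hC (w9_six hC)]
  have e : 3 * w9 Ω = Ω / 3 := by
    unfold w9
    ring
  rw [e, hC.x1]
  ring

include h3

lemma w9_val : v (ff L Ω (w9 Ω)) ^ 3 = v lam ^ 7 := by
  rw [← map_pow, w9_cube hC, neg_mul, v.map_neg, map_mul, v_27, c_val h3 hC.toCur.y0, ← pow_succ]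

lemma w9_ne : ff L Ω (w9 Ω) ≠ 0 := by
  intro h
  have h1 := w9_val h3 hC
  rw [h, map_zero, zero_pow three_ne_zero] at h1
  exact pow_ne_zero 7 lam_ne h1.symm

/-- **The quotients are congruent to minus one.** -/
theorem ratio {p : ℂ} (hp : Pt v L p) : v (1 + ff L Ω p / ff L Ω (w9 Ω)) < 1 := by
  have hc := hC.toCur.y0
  have hcv := c_val h3 hc
  have hc0 : ℘'[L] (Ω / 3) ≠ 0 := by
    intro h
    rw [h] at hc
    norm_num at hc
  have h1 := ff_cube hC hp.six
  have h2 := w9_cube hC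
  have hF0 := w9_ne h3 hC
  have hr : (-(ff L Ω p / ff L Ω (w9 Ω))) ^ 3 =
      -(℘'[L] (3 * p) / ℘'[L] (Ω / 3) + 1 - 2 * (℘[L] (3 * p) + 1)) / 2 := by
    rw [Odd.neg_pow (by decide), div_pow, h1, h2]
    field_simp
    ring
  have h5 : v (℘'[L] (3 * p) / ℘'[L] (Ω / 3)) < 1 := by
    rw [map_div₀, hcv, div_lt_one₀ lam_pos]
    exact hp.dd
  have h6 : v (1 - (-(ff L Ω p / ff L Ω (w9 Ω))) ^ 3) < 1 := by
    have e : 1 - (-(ff L Ω p / ff L Ω (w9 Ω))) ^ 3 =
        (3 + ℘'[L] (3 * p) / ℘'[L] (Ω / 3)) / 2 - (℘[L] (3 * p) + 1) := by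
      rw [hr]
      ring
    rw [e]
    refine v.map_sub_lt ?_ hp.pp
    rw [map_div₀, v_two h3, div_one]
    exact v.map_add_lt h3 h5
  have h7 : v (-(ff L Ω p / ff L Ω (w9 Ω))) = 1 := by
    have h8 : v ((-(ff L Ω p / ff L Ω (w9 Ω))) ^ 3) = 1 := by
      have e : (-(ff L Ω p / ff L Ω (w9 Ω))) ^ 3 =
          1 - (1 - (-(ff L Ω p / ff L Ω (w9 Ω))) ^ 3) := by ring
      rw [e, v.map_sub_eq_of_lt_left, map_one]
      rwa [map_one]
    rw [map_pow] at h8
    exact (pow_eq_one_iff_of_nonneg zero_le three_ne_zero).1 h8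
  have h9 := cube_lt h3 h6 h7
  rwa [sub_neg_eq_add] at h9

/-- the translates of the base point -/
theorem wu_pt {c : eis} (hc : c ≠ 0) (h3c : IsCoprime 3 c) (hct : sp c ≠ ⊤)
    (hfin : ∀ q : eis, q ≠ 0 → Finite (eis ⧸ sp q)) {x : eis} (hx : IsCoprime x c) :
    Pt v L (w9 Ω + Ω * x / c) := by
  have hCu := hC.toCur
  have hc0 := coe_ne hc
  have h3x : IsCoprime (3 * x) c := h3c.mul_left hx
  have h3x' : 3 * x ∉ (sp c : Ideal eis) := notMem_of_cop hct h3x
  have m1 := cop_notMem hCu.lat Pool.Agent.Y696.three_ne hc h3c (z := 1) h3x'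
  have e1 : 3 * (w9 Ω + Ω * x / c) = Ω / 3 + Ω * ((3 * x : eis) : ℂ) / c := by
    have e3 : ((3 * x : eis) : ℂ) = 3 * x := rfl
    rw [e3]
    unfold w9
    ring
  have e3 : Ω * ((1 : eis) : ℂ) / ((3 : eis) : ℂ) = Ω / 3 := by
    push_cast
    rw [mul_one]
    rfl
  rw [e3] at m1
  have hu : Ω * ((3 * x : eis) : ℂ) / c ∉ L.lattice := by rwa [div_mem_iff hCu.lat hc]
  have hD := dat' hCu hc h3c hct hfin
  have h4 := X_le h3 hD ⟨3 * x, h3x⟩
  have h5 : XX L Ω c ⟨3 * x, h3x⟩ = ℘'[L] (Ω * ((3 * x : eis) : ℂ) / c) ^ 2 := rfl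
  rw [h5] at h4
  have key := add_small h3 (hCu.ode hu) hCu.y0 h4
  refine ⟨?_, ?_, ?_⟩
  · intro h
    obtain ⟨r, hr⟩ := (hCu.lat.mem _).1 h
    have hΩ := hCu.lat.ne
    have h6 : (2 : eis) * c = 3 * (c * r - 6 * x) := by
      apply Subtype.ext
      have e2 : ((2 * c : eis) : ℂ) = 2 * c := rfl
      have e4 : ((3 * (c * r - 6 * x) : eis) : ℂ) = 3 * (c * r - 6 * x) := rfl
      rw [e2, e4]
      have h7 : 6 * (Ω / 9 + Ω * x / c) = Ω * r := hr
      field_simp at h7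
      linear_combination (1 / 3 : ℂ) * h7
    have h2c : IsCoprime (3 : eis) (2 * c) :=
      IsCoprime.mul_right ⟨1, -1, by norm_num⟩ h3c
    rw [h6] at h2c
    have h7 : IsUnit (3 : eis) := h2c.isUnit_of_dvd' dvd_rfl (Dvd.intro _ rfl)
    have h9 : (sp 3 : Ideal eis) = ⊤ := Ideal.span_singleton_eq_top.2 h7
    have h8 : (1 : eis) ∈ (sp 3 : Ideal eis) := by
      rw [h9]
      exact Submodule.mem_top
    rw [← ez_one, mem_three] at h8
    norm_num at h8
  · rw [e1, dwp_chord hCu hCu.third_two hu m1.1 m1.2, hC.x1]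
    exact key.2
  · rw [e1, wp_chord hCu hCu.third_two hu m1.1 m1.2, hC.x1]
    exact key.1

end C

end Pool.Agent.H462.N9.Phi
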