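import Pool.Agent.H462.N9.Chr
import Pool.Agent.H462.CTU.LK
import Pool.Graph.R_seed8.Y350.CT.REC
import Pool.Graph.R_seed8.Y696.CT.LQ

/-!
# The supplementary law for the element three
-/

set_option autoImplicit false
set_option linter.unusedSectionVars false
set_option linter.unusedVariables false

open scoped Classical

namespace Pool.Agent.H462.N9.Sup

open Pool.Agent.Y703.CT
open Pool.Agent.Y692.QS (Ei w nr ns ns_mul ns_one ns_fix nr_mul isUnit_iff w_cube)
open Pool.Agent.Y715.T.Rec (cs)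
open Pool.Agent.Y715.T.RecG (Pq cs_congr cs_mul cs_one cs_pow cs_neg cs_neg_one)
open Pool.Agent.Y696.CT (ns_prim ns_assoc inert)
open Pool.Agent.H462.CTU.Chr (nq nq_rq nq_mul)
open Pool.Agent.H462.CTU.LK (cs_ww not_dvd_w pq_nr)
open Pool.Agent.H462.N9.Chr

/-- the sum of the symbols -/
noncomputable def Jx (l : List Ei) (x : Ei) : ZMod 3 := (l.map fun δ => cs δ x).sum

lemma Jx_nil (x : Ei) : Jx [] x = 0 := rfl

lemma Jx_cons (δ : Ei) (l : List Ei) (x : Ei) : Jx (δ :: l) x = cs δ x + Jx l x := by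
  unfold Jx
  rw [List.map_cons, List.sum_cons]

lemma Jx_mul {l : List Ei} (hl : ∀ δ ∈ l, Pq δ) {x y : Ei} (hx : ∀ δ ∈ l, ¬ δ ∣ x)
    (hy : ∀ δ ∈ l, ¬ δ ∣ y) : Jx l (x * y) = Jx l x + Jx l y := by
  induction l with
  | nil => simp [Jx_nil]
  | cons δ l ih =>
    rw [Jx_cons, Jx_cons, Jx_cons, ih (fun d hd => hl d (List.mem_cons_of_mem _ hd))
      (fun d hd => hx d (List.mem_cons_of_mem _ hd)) (fun d hd => hy d (List.mem_cons_of_mem _ hd)),
      cs_mul (hl δ List.mem_cons_self).prime (hl δ List.mem_cons_self).norm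
        (hx δ List.mem_cons_self) (hy δ List.mem_cons_self)]
    ring

lemma cs_listprod {ρ : Ei} (hρ : Pq ρ) {l : List Ei} (hl : ∀ δ ∈ l, ¬ ρ ∣ δ) :
    cs ρ l.prod = (l.map fun δ => cs ρ δ).sum := by
  induction l with
  | nil => rw [List.prod_nil, cs_one hρ.prime hρ.norm]; rfl
  | cons δ l ih =>
    have h1 : ¬ ρ ∣ l.prod := by
      intro h
      obtain ⟨d, hd, hd2⟩ := (Prime.dvd_prod_iff hρ.prime).1 h
      exact hl d (List.mem_cons_of_mem _ hd) hd2
    rw [List.prod_cons, cs_mul hρ.prime hρ.norm (hl δ List.mem_cons_self) h1,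
      ih (fun d hd => hl d (List.mem_cons_of_mem _ hd)), List.map_cons, List.sum_cons]

lemma nr3 {x : Ei} : (3 : ℤ) ∣ nr x ↔ (3 : ℤ) ∣ x.re + x.im := by
  have h := Pool.Agent.Y692.QS.nr_mod x
  constructor
  · intro h1
    have h2 : ((nr x : ℤ) : ZMod 3) = 0 := (ZMod.intCast_zmod_eq_zero_iff_dvd _ 3).2 h1
    rw [h2] at h
    have h3 : ((x.re : ZMod 3) + x.im) = 0 := by
      generalize (x.re : ZMod 3) + x.im = s at h
      revert s
      decide
    refine (ZMod.intCast_zmod_eq_zero_iff_dvd _ 3).1 ?_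
    push_cast
    exact h3
  · intro h1
    have h2 : ((x.re + x.im : ℤ) : ZMod 3) = 0 := (ZMod.intCast_zmod_eq_zero_iff_dvd _ 3).2 h1
    push_cast at h2
    rw [h2] at h
    exact (ZMod.intCast_zmod_eq_zero_iff_dvd _ 3).1 (by rw [h]; decide)

section

variable (hrec : S_REC) {l : List Ei} (hl : ∀ δ ∈ l, Pq δ) {t : Ei}
  (ht : l.prod = 1 + 3 * t) (ht0 : t ≠ 0)

include hrec hl ht in
lemma ndvd_t {δ x : Ei} (hδ : δ ∈ l) (hx : x ∣ t) : ¬ δ ∣ x := by
  intro h
  have h1 : δ ∣ l.prod := List.dvd_prod hδ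
  have h2 : δ ∣ t := dvd_trans h hx
  rw [ht] at h1
  have h3 : δ ∣ 1 := by
    have := dvd_sub h1 (Dvd.dvd.mul_left h2 3)
    rwa [add_sub_cancel_right] at this
  exact (hl δ hδ).prime.not_isUnit (isUnit_of_dvd_one h3)

include hrec hl ht ht0 in
lemma Jx_prim {x : Ei} (hx0 : x ≠ 0) (h3 : ¬ (3 : ℤ) ∣ nr x) (hx : x ∣ t) : Jx l (ns x) = 0 := by
  induction x using WfDvdMonoid.induction_on_irreducible with
  | zero => exact absurd rfl hx0
  | unit u hu =>
    rw [Pool.Agent.Y692.QS.ns_unit hu]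
    unfold Jx
    refine List.sum_eq_zero fun y hy => ?_
    obtain ⟨δ, hδ, rfl⟩ := List.mem_map.1 hy
    exact cs_one (hl δ hδ).prime (hl δ hδ).norm
  | mul a i ha hi ih =>
    rw [nr_mul] at h3
    have h3i : ¬ (3 : ℤ) ∣ nr i := fun h => h3 (Dvd.dvd.mul_right h _)
    have h3a : ¬ (3 : ℤ) ∣ nr a := fun h => h3 (Dvd.dvd.mul_left h _)
    have hdi : i ∣ t := dvd_trans (Dvd.intro _ rfl) hx
    have hda : a ∣ t := dvd_trans (Dvd.intro_left _ rfl) hx
    have ai := ns_assoc h3i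
    have aa := ns_assoc h3a
    rw [ns_mul, Jx_mul hl (fun δ hδ => ndvd_t hrec hl ht hδ (ai.dvd.trans hdi))
      (fun δ hδ => ndvd_t hrec hl ht hδ (aa.dvd.trans hda)), ih ha h3a hda, add_zero]
    set ρ := ns i with hρ
    have hpρ : Pq ρ := ⟨ai.symm.prime hi.prime, ns_prim h3i⟩
    have hρt : ρ ∣ t := ai.dvd.trans hdi
    have hρδ : ∀ δ ∈ l, ¬ ρ ∣ δ := by
      intro δ hδ h
      have h1 := ((hl δ hδ).prime.associated_of_dvd hpρ.prime
        (hpρ.prime.associated_of_dvd (hl δ hδ).prime h).symm.dvd)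
      exact ndvd_t hrec hl ht hδ hρt h1.dvd
    have h1 : Jx l ρ = (l.map fun δ => cs ρ δ).sum := by
      unfold Jx
      congr 1
      refine List.map_congr_left fun δ hδ => ?_
      exact hrec ρ δ hpρ (hl δ hδ) (ndvd_t hrec hl ht hδ hρt)
    have h2 : ¬ ρ ∣ (1 : Ei) := fun h => hpρ.prime.not_isUnit (isUnit_of_dvd_one h)
    rw [h1, ← cs_listprod hpρ hρδ, ht]
    have h4 : ρ ∣ (1 + 3 * t) - 1 := by
      rw [add_sub_cancel_left]
      exact Dvd.dvd.mul_left hρt 3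
    have h5 : ρ ∣ 1 - (1 + 3 * t) := by
      rw [← dvd_neg, neg_sub]
      exact h4
    rw [← cs_congr hpρ.prime hpρ.norm h2 h5, cs_one hpρ.prime hpρ.norm]

lemma Jx_nq {l : List Ei} (hl : ∀ δ ∈ l, Pq δ) : Jx l w = nq l.prod ∧ (3 : ℤ) ∣ nr l.prod - 1 := by
  induction l with
  | nil =>
    rw [Jx_nil, List.prod_nil]
    exact ⟨by decide, ⟨0, by decide⟩⟩
  | cons δ l ih =>
    obtain ⟨h1, h2⟩ := ih fun d hd => hl d (List.mem_cons_of_mem _ hd)
    have h3 := pq_nr (hl δ List.mem_cons_self)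
    rw [Jx_cons, List.prod_cons, h1, cs_ww (hl δ List.mem_cons_self), nq_mul h3 h2]
    refine ⟨rfl, ?_⟩
    rw [nr_mul]
    obtain ⟨a, ha⟩ := h2
    obtain ⟨b, hb⟩ := h3
    exact ⟨b * (1 + 3 * a) + a, by
      have e1 : nr δ = 1 + 3 * b := by linarith
      have e2 : nr l.prod = 1 + 3 * a := by linarith
      rw [e1, e2]; ring⟩

lemma Jx_unit {l : List Ei} (hl : ∀ δ ∈ l, Pq δ) {ε : Ei} (hε : ε = 1 ∨ ε = -1) (n : ℕ) :
    Jx l (ε * w ^ n) = n * Jx l w := by
  induction l with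
  | nil => simp [Jx_nil]
  | cons δ l ih =>
    have hδ := hl δ List.mem_cons_self
    have h1 : ¬ δ ∣ (w : Ei) ^ n := fun h => not_dvd_w hδ.prime (hδ.prime.dvd_of_dvd_pow h)
    have h2 : cs δ (ε * w ^ n) = n * cs δ w := by
      rcases hε with rfl | rfl
      · rw [one_mul, cs_pow hδ.prime hδ.norm (not_dvd_w hδ.prime)]
      · rw [neg_one_mul, cs_neg hδ.prime hδ.norm h1,
          cs_pow hδ.prime hδ.norm (not_dvd_w hδ.prime)]
    rw [Jx_cons, Jx_cons, h2, ih fun d hd => hl d (List.mem_cons_of_mem _ hd)]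
    ring

include hrec hl ht in
/-- the law when `t` is prime to three -/
theorem Jx_three (h3 : ¬ (3 : ℤ) ∣ nr t) : Jx l 3 = nn l.prod := by
  have ht0 : t ≠ 0 := by
    rintro rfl
    exact h3 ⟨0, by decide⟩
  have hd := fun δ (hδ : δ ∈ l) => ndvd_t hrec hl ht hδ (dvd_refl t)
  have hn3 := fun δ (hδ : δ ∈ l) => (hl δ hδ).norm
  -- `3 t ≡ -1`
  have h1 : Jx l (3 * t) = 0 := by
    unfold Jx
    refine List.sum_eq_zero fun y hy => ?_
    obtain ⟨δ, hδ, rfl⟩ := List.mem_map.1 hy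
    have hp := (hl δ hδ).prime
    have hn := (hl δ hδ).norm
    have h2 : ¬ δ ∣ (-1 : Ei) := fun h => hp.not_isUnit (isUnit_of_dvd_unit h isUnit_one.neg)
    have h4 : δ ∣ -1 - 3 * t := by
      have h5 : δ ∣ l.prod := List.dvd_prod hδ
      rw [ht] at h5
      have e : -1 - 3 * t = -(1 + 3 * t) := by ring
      rw [e, dvd_neg]
      exact h5
    rw [← cs_congr hp hn h2 h4, cs_neg_one hp hn]
  have hw := ns_assoc h3
  obtain ⟨u, hu⟩ := hw
  have hnt := Jx_prim hrec hl ht ht0 ht0 h3 (dvd_refl t)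
  have hnp := ns_prim h3
  -- the unit
  obtain ⟨ε, n, hε, hun⟩ := Pool.Agent.Y715.T.Thr.unit_cases u.isUnit
  have hdn : ∀ δ ∈ l, ¬ δ ∣ ns t := fun δ hδ =>
    ndvd_t hrec hl ht hδ (Dvd.intro _ hu)
  have hdu : ∀ δ ∈ l, ¬ δ ∣ (u : Ei) := fun δ hδ h =>
    (hl δ hδ).prime.not_isUnit (isUnit_of_dvd_unit h u.isUnit)
  rw [Jx_mul hl hn3 hd, ← hu, Jx_mul hl hdn hdu, hnt, zero_add, hun, Jx_unit hl hε,
    ZMod.natCast_zmod_val, (Jx_nq hl).1] at h1
  have hprim : (3 : Ei) ∣ l.prod - 1 := ⟨t, by rw [ht]; ring⟩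
  obtain ⟨x, y, hxy, hr⟩ := ex_q hprim
  have htx : t = ⟨x, y⟩ := by
    have h5 : (3 : Ei) * t = 3 * ⟨x, y⟩ := by
      have h6 := hxy
      rw [ht] at h6
      exact add_left_cancel h6
    exact mul_left_cancel₀ (by decide) h5
  have hn : nn l.prod = (y : ZMod 3) := by
    have := nn_up (u := 1) isUnit_one t
    rw [one_mul, ← ht, htx] at this
    exact this
  rw [nq_rq hprim, hr] at h1
  rw [hn]
  -- `t` is congruent to the unit modulo three
  have hcong : (3 : Ei) ∣ t - ε * w ^ n.val := by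
    obtain ⟨q, hq⟩ := hnp
    refine ⟨q * u, ?_⟩
    rw [← hun]
    linear_combination (u : Ei) * hq - hu
  obtain ⟨q, hq⟩ := hcong
  have hre : ((x : ℤ) : ZMod 3) = ((ε * w ^ n.val).re : ZMod 3) ∧
      ((y : ℤ) : ZMod 3) = ((ε * w ^ n.val).im : ZMod 3) := by
    have e1 : t = 3 * q + ε * w ^ n.val := by linear_combination hq
    rw [htx] at e1
    have h3e : (3 : Ei) = ⟨3, 0⟩ := rfl
    have e2 := congrArg QuadraticAlgebra.re e1
    have e3 := congrArg QuadraticAlgebra.im e1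
    rw [QuadraticAlgebra.re_add, h3e, Pool.Agent.Y692.QS.mul_re] at e2
    rw [QuadraticAlgebra.im_add, h3e, Pool.Agent.Y692.QS.mul_im] at e3
    constructor
    · apply Pool.Agent.H462.N9.Chr.cast_eq
      have e4 : x = 3 * q.re - 0 * q.im + (ε * w ^ n.val).re := e2
      exact ⟨q.re, by rw [e4]; ring⟩
    · apply Pool.Agent.H462.N9.Chr.cast_eq
      have e4 : y = 3 * q.im + 0 * q.re - 0 * q.im + (ε * w ^ n.val).im := e3
      exact ⟨q.im, by rw [e4]; ring⟩
  obtain ⟨hx', hy'⟩ := hre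
  push_cast at h1
  rw [hx', hy'] at h1
  rw [hy']
  have h6 : Jx l 3 = n * (((ε * w ^ n.val).re : ZMod 3) + ((ε * w ^ n.val).im : ZMod 3)) := by
    linear_combination h1
  rw [h6]
  rcases hε with rfl | rfl
  · clear h1 hx' hy' hq hun h6
    revert n
    decide
  · clear h1 hx' hy' hq hun h6
    revert n
    decide

end

/-- **The supplementary law.** -/
theorem cs_three (hrec : S_REC) {ρ : Ei} (h : Pq ρ) : cs ρ 3 = nn ρ := by
  have h2 : Pq (-((2 : ℕ) : Ei)) := inert Nat.prime_two (by norm_num)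
  have h2' : Pq (-2 : Ei) := by exact_mod_cast h2
  have e2 : cs (-2 : Ei) 3 = nn (-2 : Ei) := by
    have h3 := Jx_three hrec (l := [-2]) (t := -1) (by simpa using h2') (by decide) (by decide)
    rw [List.prod_singleton] at h3
    rw [← h3, Jx_cons, Jx_nil, add_zero]
  obtain ⟨t, ht⟩ := h.three
  have ht' : ρ = 1 + 3 * t := by linear_combination ht
  by_cases h3 : (3 : ℤ) ∣ nr t
  · have h4 := Jx_three hrec (l := [ρ, -2]) (t := -1 - 2 * t) (by
      intro δ hδ
      simp only [List.mem_cons, List.not_mem_nil, or_false] at hδ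
      rcases hδ with rfl | rfl
      · exact h
      · exact h2') (by
      rw [List.prod_cons, List.prod_singleton, ht']
      ring) (by
      rw [nr3] at h3 ⊢
      have e3 : (-1 - 2 * t : Ei) = ⟨-1 - 2 * t.re, -(2 * t.im)⟩ := by
        have h5 : (2 : Ei) = ⟨2, 0⟩ := rfl
        have h6 : (-1 : Ei) = ⟨-1, 0⟩ := by decide
        rw [h5, h6]
        ext
        · simp
        · simp
      rw [e3]
      intro h5
      have h5' : (3 : ℤ) ∣ (-1 - 2 * t.re) + -(2 * t.im) := h5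
      omega)
    rw [List.prod_cons, List.prod_singleton, nn_mul (C3_prim h.three) (C3_prim h2'.three),
      Jx_cons, Jx_cons, Jx_nil, add_zero, e2] at h4
    exact add_right_cancel h4
  · have h4 := Jx_three hrec (l := [ρ]) (t := t) (by simpa using h) (by
      rw [List.prod_singleton, ht']) h3
    rw [List.prod_singleton, Jx_cons, Jx_nil, add_zero] at h4
    exact h4

end Pool.Agent.H462.N9.Sup
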