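import Pool.Agent.H462.N9.Chr
import Pool.Agent.H462.CTU.Tot

/-!
# The total of the three odd characters modulo nine
-/

set_option autoImplicit false
set_option linter.unusedSectionVars false

open Filter
open scoped Topology PeriodPair

namespace Pool.Agent.H462.N9.Tot

open Pool.Agent.Y692.QS (Ei w nr toC)
open H667R3 Pool.Agent.W192.HK Pool.Agent.TH936.CM
open Pool.Agent.TH936.PU hiding v_int
open Pool.Agent.Y715.Dist Pool.Agent.Y715.Idn Pool.Agent.Y715.T.Lat Pool.Agent.Y696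
open Pool.Agent.Y715.T.Rs (eq0)
open Pool.Agent.Y715.Two (v_nat v_int v_unit v_mul_le_of)
open Pool.Agent.Y715.T.Three Pool.Agent.Y715.T.Cg
open Pool.Agent.Y703.CT.Ana (ej eo_j ej_u ej_ncop ej_prim om_val)
open Pool.Agent.Y703.CT (toC_w_add)
open Pool.Agent.H462.CTU.Phi
open Pool.Agent.H462.CTU.Chr (symm_ez)
open Pool.Agent.H462.CTU.Tot (sum_units)
open Pool.Agent.H462.N9.Phi Pool.Agent.H462.N9.Chr

variable {L : PeriodPair} {Ω : ℂ}

lemma toC_om : toC w = om := by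
  have := Pool.Agent.Y703.CT.toC_eq' 0 1
  have e1 : (w : Ei) = ⟨0, 1⟩ := rfl
  rw [e1, this]
  push_cast
  ring

/-- the sum over the nine translates -/
noncomputable def S9 (Ω : ℂ) (G : ℂ → ℂ) (p : ℂ) : ℂ :=
  (G p + om * G (p + tau Ω) + om ^ 2 * G (p - tau Ω)) +
  (G (p + Ω / 3) + om * G (p + Ω / 3 + tau Ω) + om ^ 2 * G (p + Ω / 3 - tau Ω)) +
  (G (p - Ω / 3) + om * G (p - Ω / 3 + tau Ω) + om ^ 2 * G (p - Ω / 3 - tau Ω))

lemma la_ez : la = ez 1 2 := rfl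

/-- the values of the character -/
lemma c9_val (a b : ℤ) : c9 (1 + 3 * ((a : eis) + b * la)) = toC w ^ ((2 * b : ℤ) : ZMod 3).val := by
  unfold c9
  have h1 : eq0.symm ((a : eis) + b * la) = ⟨a + b, 2 * b⟩ := by
    rw [la_ez, ← symm_ez]
    congr 1
    unfold ez
    push_cast
    ring
  have h2 := nn_up (u := 1) isUnit_one (eq0.symm ((a : eis) + b * la))
  rw [one_mul] at h2
  rw [map_add, map_mul, map_one, map_ofNat, h2, h1]

lemma c9_z (a : ℤ) : c9 (1 + 3 * (a : eis)) = 1 := by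
  have h := c9_val a 0
  rw [Int.cast_zero, zero_mul, add_zero, mul_zero, Int.cast_zero, ZMod.val_zero, pow_zero] at h
  exact h

lemma c9_m (a : ℤ) : c9 (1 + 3 * ((a : eis) - la)) = om := by
  have h := c9_val a (-1)
  have e : (((2 * (-1) : ℤ) : ZMod 3)).val = 1 := by decide
  rw [e, pow_one, toC_om] at h
  rw [← h]
  congr 3
  push_cast
  ring

lemma c9_p (a : ℤ) : c9 (1 + 3 * ((a : eis) + la)) = om ^ 2 := by
  have h := c9_val a 1
  have e : (((2 * 1 : ℤ) : ZMod 3)).val = 2 := by decide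
  rw [e, toC_om] at h
  rw [← h]
  congr 3
  push_cast
  ring

/-- the constant -/
noncomputable def kp (L : PeriodPair) (Ω : ℂ) : ℂ := 6 * ff L Ω (w9 Ω)

/-- the constants of the three characters -/
noncomputable def Ek (L : PeriodPair) (Ω : ℂ) (j : Fin 3) : ℂ := if j = 0 then kp L Ω else 0

lemma prim3 (t : eis) : (1 + 3 * t) - 1 ∈ (sp 3 : Ideal eis) := by
  rw [Ideal.mem_span_singleton']
  exact ⟨t, by ring⟩

lemma e9_up (j : Fin 3) {u p : eis} (hu : IsUnit u) (hp : p - 1 ∈ (sp 3 : Ideal eis)) :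
    e9 j (u * p) = (u : ℂ) ^ (2 * (j : ℕ) + 1) * c9 p := by
  rw [(eo_9 j).mul, e9_prim j hp]
  congr 1
  unfold e9
  rw [c9_unit hu, mul_one, ej_u j hu]

/-- the arguments -/
lemma arg_eq (Ω : ℂ) (u : eis) (a : ℤ) (b : ℤ) :
    Ω * ((u * (1 + 3 * ((a : eis) + b * la)) : eis) : ℂ) / ((f9 : eis) : ℂ) =
      u * (w9 Ω + a * (Ω / 3) - b * tau Ω) := by
  have e3 : ((u * (1 + 3 * ((a : eis) + b * la)) : eis) : ℂ) = u * (1 + 3 * (a + b * lam)) := by
    push_cast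
    rw [la_coe]
    rfl
  rw [f9_coe, e3, tau_eq]
  unfold w9
  ring

/-- the terms with a fixed unit -/
lemma nona_eq (j : Fin 3) (G : ℂ → ℂ) {u : eis} (hu : IsUnit u) {r : ℂ}
    (hG : ∀ z, (u : ℂ) ^ (2 * (j : ℕ) + 1) * G (u * z) = r * G z) :
    nona (fun y => e9 j y * G (Ω * y / ((f9 : eis) : ℂ))) u = r * S9 Ω G (w9 Ω) := by
  have key : ∀ (a b : ℤ) (t : eis), t = (a : eis) + b * la →
      e9 j (u * (1 + 3 * t)) * G (Ω * ((u * (1 + 3 * t) : eis) : ℂ) / ((f9 : eis) : ℂ)) =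
        r * (c9 (1 + 3 * t) * G (w9 Ω + a * (Ω / 3) - b * tau Ω)) := by
    intro a b t ht
    subst ht
    rw [e9_up j hu (prim3 _), arg_eq]
    have h := hG (w9 Ω + a * (Ω / 3) - b * tau Ω)
    linear_combination (c9 (1 + 3 * ((a : eis) + b * la))) * h
  have k1 := key 0 0 0 (by push_cast; ring)
  have k2 := key 0 (-1) (0 - la) (by push_cast; ring)
  have k3 := key 0 1 (0 + la) (by push_cast; ring)
  have k4 := key 1 0 1 (by push_cast; ring)
  have k5 := key 1 (-1) (1 - la) (by push_cast; ring)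
  have k6 := key 1 1 (1 + la) (by push_cast; ring)
  have k7 := key (-1) 0 (-1) (by push_cast; ring)
  have k8 := key (-1) (-1) (-1 - la) (by push_cast; ring)
  have k9 := key (-1) 1 (-1 + la) (by push_cast; ring)
  have c1 := c9_z 0
  have c2 := c9_m 0
  have c3 := c9_p 0
  have c4 := c9_z 1
  have c5 := c9_m 1
  have c6 := c9_p 1
  have c7 := c9_z (-1)
  have c8 := c9_m (-1)
  have c10 := c9_p (-1)
  push_cast at c1 c2 c3 c4 c5 c6 c7 c8 c10
  rw [c1] at k1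
  rw [c2] at k2
  rw [c3] at k3
  rw [c4] at k4
  rw [c5] at k5
  rw [c6] at k6
  rw [c7] at k7
  rw [c8] at k8
  rw [c10] at k9
  unfold nona tr
  beta_reduce
  rw [k1, k2, k3, k4, k5, k6, k7, k8, k9]
  unfold S9
  push_cast
  have a1 : w9 Ω + 0 * (Ω / 3) - 0 * tau Ω = w9 Ω := by ring
  have a2 : w9 Ω + 0 * (Ω / 3) - -1 * tau Ω = w9 Ω + tau Ω := by ring
  have a3 : w9 Ω + 0 * (Ω / 3) - 1 * tau Ω = w9 Ω - tau Ω := by ring
  have a4 : w9 Ω + 1 * (Ω / 3) - 0 * tau Ω = w9 Ω + Ω / 3 := by ring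
  have a5 : w9 Ω + 1 * (Ω / 3) - -1 * tau Ω = w9 Ω + Ω / 3 + tau Ω := by ring
  have a6 : w9 Ω + 1 * (Ω / 3) - 1 * tau Ω = w9 Ω + Ω / 3 - tau Ω := by ring
  have a7 : w9 Ω + -1 * (Ω / 3) - 0 * tau Ω = w9 Ω - Ω / 3 := by ring
  have a8 : w9 Ω + -1 * (Ω / 3) - -1 * tau Ω = w9 Ω - Ω / 3 + tau Ω := by ring
  have a9 : w9 Ω + -1 * (Ω / 3) - 1 * tau Ω = w9 Ω - Ω / 3 - tau Ω := by ring
  rw [a1, a2, a3, a4, a5, a6, a7, a8, a9]
  ring

section lim

variable (hC : Cm L Ω) [Fintype (eis ⧸ (sp f9 : Ideal eis))]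

include hC

lemma w9_three : 3 * w9 Ω ∉ L.lattice := by
  have e : 3 * w9 Ω = Ω / 3 := by
    unfold w9
    ring
  rw [e]
  exact hC.toCur.third

/-- the limits of the constants -/
theorem lim_k (j : Fin 3) :
    Tendsto (fun δ : ℝ => ∑ y : eis ⧸ (sp f9 : Ideal eis), e9 j y.out *
      EE eis Ω δ (Ω * y.out / (f9 : eis))) (𝓝[>] 0) (𝓝 (Ek L Ω j)) := by
  have h1 := (lim_ff hC.toCur (w9_three hC)).const_mul (if j = 0 then (6 : ℂ) else 0)
  have e0 : (if j = 0 then (6 : ℂ) else 0) * ff L Ω (w9 Ω) = Ek L Ω j := by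
    unfold Ek kp
    by_cases hj : j = 0
    · rw [if_pos hj, if_pos hj]
    · rw [if_neg hj, if_neg hj, zero_mul]
  rw [e0] at h1
  refine h1.congr fun δ => ?_
  have hper : ∀ x y : eis, x - y ∈ (sp f9 : Ideal eis) →
      e9 j x * EE eis Ω δ (Ω * x / (f9 : eis)) = e9 j y * EE eis Ω δ (Ω * y / (f9 : eis)) := by
    intro x y hxy
    rw [(eo_9 j).per x y hxy]
    congr 1
    apply EE_per hC.toCur.lat
    have := (div_mem_iff hC.toCur.lat f9_ne (x - y)).2 hxy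
    convert this using 1
    push_cast
    ring
  rw [fifty_four (F := fun y => e9 j y * EE eis Ω δ (Ω * y / (f9 : eis)))
    (fun x hx => by rw [e9_ncop j hx, zero_mul]) hper, ← sum_units j]
  have hnona : ∀ u : eis, IsUnit u →
      nona (fun y => e9 j y * EE eis Ω δ (Ω * y / (f9 : eis))) u =
        (u : ℂ) ^ (2 * (j : ℕ)) * S9 Ω (EE eis Ω δ) (w9 Ω) := by
    intro u hu
    have hu0 : (u : ℂ) ≠ 0 := coe_ne hu.ne_zero
    refine nona_eq j (EE eis Ω δ) hu fun z => ?_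
    rw [EE_unit hu, pow_succ]
    field_simp
  have hu : ∀ v ∈ ({1, -1, omr, -omr, omr ^ 2, -omr ^ 2} : Set eis), IsUnit v := fun v hv =>
    (unit_list v).2 hv
  rw [hnona 1 (hu _ (by simp)), hnona (-1) (hu _ (by simp)), hnona omr (hu _ (by simp)),
    hnona (-omr) (hu _ (by simp)), hnona (omr ^ 2) (hu _ (by simp)),
    hnona (-omr ^ 2) (hu _ (by simp))]
  unfold S9
  ring

/-- the function `HH` for the three characters together -/
theorem HH_tot (u : ℂ) :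
    ∑ j : Fin 3, HH L Ω f9 (e9 j) u = 3 * S9 Ω (fun z => Dd L z u) (w9 Ω) := by
  have h1 : ∀ j : Fin 3, HH L Ω f9 (e9 j) u = (1 / 2) * ∑ y : eis ⧸ (sp f9 : Ideal eis),
      e9 j y.out * Dd L (Ω * y.out / (f9 : eis)) u := fun j => rfl
  have hper : ∀ j : Fin 3, ∀ x y : eis, x - y ∈ (sp f9 : Ideal eis) →
      e9 j x * Dd L (Ω * x / ((f9 : eis) : ℂ)) u =
        e9 j y * Dd L (Ω * y / ((f9 : eis) : ℂ)) u := by
    intro j x y hxy
    rw [(eo_9 j).per x y hxy]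
    congr 1
    apply Pool.Agent.TH936.PU.Dd_per
    have := (hC.toCur.div_iff f9_ne (x - y)).2 hxy
    convert this using 1
    push_cast
    ring
  have h2 : ∀ j : Fin 3, HH L Ω f9 (e9 j) u = (1 / 2) *
      (nona (fun y => e9 j y * Dd L (Ω * y / ((f9 : eis) : ℂ)) u) 1 +
      nona (fun y => e9 j y * Dd L (Ω * y / ((f9 : eis) : ℂ)) u) (-1) +
      nona (fun y => e9 j y * Dd L (Ω * y / ((f9 : eis) : ℂ)) u) omr +
      nona (fun y => e9 j y * Dd L (Ω * y / ((f9 : eis) : ℂ)) u) (-omr) +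
      nona (fun y => e9 j y * Dd L (Ω * y / ((f9 : eis) : ℂ)) u) (omr ^ 2) +
      nona (fun y => e9 j y * Dd L (Ω * y / ((f9 : eis) : ℂ)) u) (-omr ^ 2)) := by
    intro j
    rw [h1 j, fifty_four (F := fun y => e9 j y * Dd L (Ω * y / ((f9 : eis) : ℂ)) u)
      (fun x hx => by rw [e9_ncop j hx, zero_mul]) (hper j)]
  -- a fixed unit, the three characters together
  have key : ∀ v : eis, IsUnit v →
      ∑ j : Fin 3, nona (fun y => e9 j y * Dd L (Ω * y / ((f9 : eis) : ℂ)) u) v =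
        ((v : ℂ) + v ^ 3 + v ^ 5) * S9 Ω (fun z => Dd L (v * z) u) (w9 Ω) := by
    intro v hv
    have hj : ∀ j : Fin 3, nona (fun y => e9 j y * Dd L (Ω * y / ((f9 : eis) : ℂ)) u) v =
        (v : ℂ) ^ (2 * (j : ℕ) + 1) * S9 Ω (fun z => Dd L (v * z) u) (w9 Ω) := by
      intro j
      -- compare with the formula for the function `z ↦ G (v z)`
      have hterm : ∀ (a b : ℤ) (t : eis), t = (a : eis) + b * la →
          e9 j (v * (1 + 3 * t)) * Dd L (Ω * ((v * (1 + 3 * t) : eis) : ℂ) / ((f9 : eis) : ℂ)) u =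
            (v : ℂ) ^ (2 * (j : ℕ) + 1) *
              (c9 (1 + 3 * t) * Dd L (v * (w9 Ω + a * (Ω / 3) - b * tau Ω)) u) := by
        intro a b t ht
        subst ht
        rw [e9_up j hv (prim3 _), arg_eq]
        ring
      have hone : nona (fun y => e9 j y * Dd L (Ω * y / ((f9 : eis) : ℂ)) u) v =
          (v : ℂ) ^ (2 * (j : ℕ) + 1) * S9 Ω (fun z => Dd L (v * z) u) (w9 Ω) := by
        have k1 := hterm 0 0 0 (by push_cast; ring)
        have k2 := hterm 0 (-1) (0 - la) (by push_cast; ring)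
        have k3 := hterm 0 1 (0 + la) (by push_cast; ring)
        have k4 := hterm 1 0 1 (by push_cast; ring)
        have k5 := hterm 1 (-1) (1 - la) (by push_cast; ring)
        have k6 := hterm 1 1 (1 + la) (by push_cast; ring)
        have k7 := hterm (-1) 0 (-1) (by push_cast; ring)
        have k8 := hterm (-1) (-1) (-1 - la) (by push_cast; ring)
        have k9 := hterm (-1) 1 (-1 + la) (by push_cast; ring)
        have c1 := c9_z 0
        have c2 := c9_m 0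
        have c3 := c9_p 0
        have c4 := c9_z 1
        have c5 := c9_m 1
        have c6 := c9_p 1
        have c7 := c9_z (-1)
        have c8 := c9_m (-1)
        have c10 := c9_p (-1)
        push_cast at c1 c2 c3 c4 c5 c6 c7 c8 c10
        rw [c1] at k1
        rw [c2] at k2
        rw [c3] at k3
        rw [c4] at k4
        rw [c5] at k5
        rw [c6] at k6
        rw [c7] at k7
        rw [c8] at k8
        rw [c10] at k9
        unfold nona tr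
        beta_reduce
        rw [k1, k2, k3, k4, k5, k6, k7, k8, k9]
        unfold S9
        beta_reduce
        push_cast
        have a1 : w9 Ω + 0 * (Ω / 3) - 0 * tau Ω = w9 Ω := by ring
        have a2 : w9 Ω + 0 * (Ω / 3) - -1 * tau Ω = w9 Ω + tau Ω := by ring
        have a3 : w9 Ω + 0 * (Ω / 3) - 1 * tau Ω = w9 Ω - tau Ω := by ring
        have a4 : w9 Ω + 1 * (Ω / 3) - 0 * tau Ω = w9 Ω + Ω / 3 := by ring
        have a5 : w9 Ω + 1 * (Ω / 3) - -1 * tau Ω = w9 Ω + Ω / 3 + tau Ω := by ring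
        have a6 : w9 Ω + 1 * (Ω / 3) - 1 * tau Ω = w9 Ω + Ω / 3 - tau Ω := by ring
        have a7 : w9 Ω + -1 * (Ω / 3) - 0 * tau Ω = w9 Ω - Ω / 3 := by ring
        have a8 : w9 Ω + -1 * (Ω / 3) - -1 * tau Ω = w9 Ω - Ω / 3 + tau Ω := by ring
        have a9 : w9 Ω + -1 * (Ω / 3) - 1 * tau Ω = w9 Ω - Ω / 3 - tau Ω := by ring
        rw [a1, a2, a3, a4, a5, a6, a7, a8, a9]
        ring
      exact hone
    rw [Fin.sum_univ_three, hj, hj, hj]
    norm_num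
    ring
  have hneg : ∀ z : ℂ, Dd L (-z) u = -Dd L z u := by
    intro z
    unfold Dd
    rw [L.derivWeierstrassP_neg, L.weierstrassP_neg, neg_div]
  have hu : ∀ v ∈ ({1, -1, omr, -omr, omr ^ 2, -omr ^ 2} : Set eis), IsUnit v := fun v hv =>
    (unit_list v).2 hv
  have K1 := key 1 (hu _ (by simp))
  have K2 := key (-1) (hu _ (by simp))
  have K3 := key omr (hu _ (by simp))
  have K4 := key (-omr) (hu _ (by simp))
  have K5 := key (omr ^ 2) (hu _ (by simp))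
  have K6 := key (-omr ^ 2) (hu _ (by simp))
  rw [Fin.sum_univ_three] at K1 K2 K3 K4 K5 K6
  rw [Fin.sum_univ_three, h2, h2, h2]
  have h3 := om_cube
  have hs := om_sq
  have z1 : om + om ^ 3 + om ^ 5 = 0 := by linear_combination hs + (1 + om ^ 2) * h3
  have z2 : om ^ 2 + (om ^ 2) ^ 3 + (om ^ 2) ^ 5 = 0 := by
    linear_combination hs + (om ^ 3 + 1 + om * (om ^ 6 + om ^ 3 + 1)) * h3
  have z3 : -om + (-om) ^ 3 + (-om) ^ 5 = 0 := by linear_combination -z1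
  have z4 : -om ^ 2 + (-om ^ 2) ^ 3 + (-om ^ 2) ^ 5 = 0 := by linear_combination -z2
  push_cast at K1 K2 K3 K4 K5 K6
  rw [omr_coe] at K3 K4 K5 K6
  rw [z1, zero_mul] at K3
  rw [z2, zero_mul] at K5
  rw [z3, zero_mul] at K4
  rw [z4, zero_mul] at K6
  have e1 : S9 Ω (fun z => Dd L (1 * z) u) (w9 Ω) = S9 Ω (fun z => Dd L z u) (w9 Ω) := by
    simp only [one_mul]
  have e2 : S9 Ω (fun z => Dd L (-1 * z) u) (w9 Ω) = -S9 Ω (fun z => Dd L z u) (w9 Ω) := by
    simp only [neg_one_mul, hneg]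
    unfold S9
    ring
  rw [e1] at K1
  rw [e2] at K2
  linear_combination (1 / 2 : ℂ) * (K1 + K2 + K3 + K4 + K5 + K6)

/-- the sum of the values -/
theorem Dd_tot {c : eis} (hc : c ≠ 0) (h3c : IsCoprime 3 c)
    {x : eis} (hx : x ∉ (sp c : Ideal eis)) :
    S9 Ω (fun z => Dd L z (Ω * x / c)) (w9 Ω) =
      ff L Ω (w9 Ω + Ω * x / c) + ff L Ω (w9 Ω - Ω * x / c) - 2 * ff L Ω (w9 Ω) := by
  have hCu := hC.toCur
  have hf : IsCoprime f9 c := cop_f9.2 h3c
  have hu : Ω * x / c ∉ L.lattice := by rwa [div_mem_iff hCu.lat hc]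
  have n0 := w9_three hC
  -- the translates
  have h3x : 3 * x ∉ (sp c : Ideal eis) := by
    intro h
    apply hx
    obtain ⟨r, s, hrs⟩ := h3c
    have e : x = r * (3 * x) + (s * x) * c := by linear_combination (-x) * hrs
    rw [e]
    exact add_mem (Ideal.mul_mem_left _ _ h)
      (Ideal.mul_mem_left _ _ (Ideal.mem_span_singleton_self c))
  have m1 := cop_notMem hCu.lat Pool.Agent.Y696.three_ne hc h3c (z := 1) h3x
  have e3 : Ω * ((1 : eis) : ℂ) / ((3 : eis) : ℂ) = Ω / 3 := by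
    push_cast
    rw [mul_one]
    rfl
  rw [e3] at m1
  have e4 : ((3 * x : eis) : ℂ) = 3 * x := rfl
  set u := Ω * x / c with hu'
  have q1 : 3 * (w9 Ω + u) ∉ L.lattice := by
    have e : 3 * (w9 Ω + u) = Ω / 3 + Ω * ((3 * x : eis) : ℂ) / c := by
      rw [e4, hu']
      unfold w9
      ring
    rw [e]
    exact m1.1
  have q2 : 3 * (w9 Ω - u) ∉ L.lattice := by
    have e : 3 * (w9 Ω - u) = Ω / 3 - Ω * ((3 * x : eis) : ℂ) / c := by
      rw [e4, hu']
      unfold w9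
      ring
    rw [e]
    exact m1.2
  have t1 := (lim_ff hCu q1).add (lim_ff hCu q2) |>.sub ((lim_ff hCu n0).const_mul 2)
  have h3 := tau3 hCu
  have h4 := t3 hCu
  have key : ∀ s : ℂ, 3 * s ∈ L.lattice → Tendsto (fun δ : ℝ => EE eis Ω δ (w9 Ω + s + u) +
      EE eis Ω δ (w9 Ω + s - u) - 2 * EE eis Ω δ (w9 Ω + s)) (𝓝[>] 0)
      (𝓝 (Dd L (w9 Ω + s) u)) := by
    intro s hs
    refine lim_Dd hCu.lat (tor hCu hs n0) hu ?_ ?_
    · have e : w9 Ω + s + u = (w9 Ω + u) + s := by ring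
      rw [e]
      exact tor hCu hs q1
    · have e : w9 Ω + s - u = (w9 Ω - u) + s := by ring
      rw [e]
      exact tor hCu hs q2
  have mem_neg : ∀ s : ℂ, 3 * s ∈ L.lattice → 3 * -s ∈ L.lattice := by
    intro s hs
    rw [mul_neg, neg_mem_iff]
    exact hs
  have mem_add : ∀ s t : ℂ, 3 * s ∈ L.lattice → 3 * t ∈ L.lattice → 3 * (s + t) ∈ L.lattice := by
    intro s t hs ht
    rw [mul_add]
    exact add_mem hs ht
  have d0 := key 0 (by rw [mul_zero]; exact zero_mem _)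
  have d1 := key (tau Ω) h3
  have d2 := key (-tau Ω) (mem_neg _ h3)
  have d3 := key (Ω / 3) h4
  have d4 := key (Ω / 3 + tau Ω) (mem_add _ _ h4 h3)
  have d5 := key (Ω / 3 + -tau Ω) (mem_add _ _ h4 (mem_neg _ h3))
  have d6 := key (-(Ω / 3)) (mem_neg _ h4)
  have d7 := key (-(Ω / 3) + tau Ω) (mem_add _ _ (mem_neg _ h4) h3)
  have d8 := key (-(Ω / 3) + -tau Ω) (mem_add _ _ (mem_neg _ h4) (mem_neg _ h3))
  have t2 := (((d0.add (d1.const_mul om)).add (d2.const_mul (om ^ 2))).add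
    ((d3.add (d4.const_mul om)).add (d5.const_mul (om ^ 2)))).add
    ((d6.add (d7.const_mul om)).add (d8.const_mul (om ^ 2)))
  have a0 : w9 Ω + 0 = w9 Ω := by ring
  have a2 : w9 Ω + -tau Ω = w9 Ω - tau Ω := by ring
  have a4 : w9 Ω + (Ω / 3 + tau Ω) = w9 Ω + Ω / 3 + tau Ω := by ring
  have a5 : w9 Ω + (Ω / 3 + -tau Ω) = w9 Ω + Ω / 3 - tau Ω := by ring
  have a6 : w9 Ω + -(Ω / 3) = w9 Ω - Ω / 3 := by ring
  have a7 : w9 Ω + (-(Ω / 3) + tau Ω) = w9 Ω - Ω / 3 + tau Ω := by ring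
  have a8 : w9 Ω + (-(Ω / 3) + -tau Ω) = w9 Ω - Ω / 3 - tau Ω := by ring
  rw [a0, a2, a4, a5, a6, a7, a8] at t2
  refine tendsto_nhds_unique t2 (t1.congr fun δ => ?_)
  have b1 : w9 Ω + u + tau Ω = w9 Ω + tau Ω + u := by ring
  have b2 : w9 Ω + u - tau Ω = w9 Ω - tau Ω + u := by ring
  have b3 : w9 Ω + u + Ω / 3 = w9 Ω + Ω / 3 + u := by ring
  have b4 : w9 Ω + Ω / 3 + u + tau Ω = w9 Ω + Ω / 3 + tau Ω + u := by ring
  have b5 : w9 Ω + Ω / 3 + u - tau Ω = w9 Ω + Ω / 3 - tau Ω + u := by ring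
  have b6 : w9 Ω + u - Ω / 3 = w9 Ω - Ω / 3 + u := by ring
  have b7 : w9 Ω - Ω / 3 + u + tau Ω = w9 Ω - Ω / 3 + tau Ω + u := by ring
  have b8 : w9 Ω - Ω / 3 + u - tau Ω = w9 Ω - Ω / 3 - tau Ω + u := by ring
  have c1 : w9 Ω - u + tau Ω = w9 Ω + tau Ω - u := by ring
  have c2 : w9 Ω - u - tau Ω = w9 Ω - tau Ω - u := by ring
  have c3 : w9 Ω - u + Ω / 3 = w9 Ω + Ω / 3 - u := by ring
  have c4 : w9 Ω + Ω / 3 - u + tau Ω = w9 Ω + Ω / 3 + tau Ω - u := by ring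
  have c5 : w9 Ω + Ω / 3 - u - tau Ω = w9 Ω + Ω / 3 - tau Ω - u := by ring
  have c6 : w9 Ω - u - Ω / 3 = w9 Ω - Ω / 3 - u := by ring
  have c7 : w9 Ω - Ω / 3 - u + tau Ω = w9 Ω - Ω / 3 + tau Ω - u := by ring
  have c8 : w9 Ω - Ω / 3 - u - tau Ω = w9 Ω - Ω / 3 - tau Ω - u := by ring
  rw [b3, b6, c3, c6, b1, b2, b4, b5, b7, b8, c1, c2, c4, c5, c7, c8]
  ring

end lim

section val

variable {Γ : Type*} [LinearOrderedCommGroupWithZero Γ] {v : Valuation ℂ Γ}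
  (h3 : v 3 < 1) (hC : Cm L Ω)

include h3 hC

lemma kp_val : v (kp L Ω) ^ 3 = v lam ^ 13 := by
  unfold kp
  rw [map_mul, mul_pow, w9_val h3 hC, v_six h3, ← sq_three, ← pow_two, ← pow_mul, ← pow_add]

lemma kp_ne : kp L Ω ≠ 0 := by
  intro h
  have h1 := kp_val h3 hC
  rw [h, map_zero, zero_pow three_ne_zero] at h1
  exact pow_ne_zero 13 lam_ne h1.symm

/-- **The total is close to minus the constant.** -/
theorem tot [Fintype (eis ⧸ (sp f9 : Ideal eis))] {c : eis} (hc : c ≠ 0) (h3c : IsCoprime 3 c)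
    (hct : sp c ≠ ⊤) (hfin : ∀ q : eis, q ≠ 0 → Finite (eis ⧸ sp q)) {x : eis}
    (hx : IsCoprime x c) :
    v ((∑ j : Fin 3, Ph L Ω f9 (e9 j) (Ek L Ω j) c x) / kp L Ω + 1) < 1 := by
  have hx' : x ∉ (sp c : Ideal eis) := notMem_of_cop hct hx
  have hκ := kp_ne h3 hC
  have p1 : Pool.Agent.H462.N9.Phi.Pt v L (w9 Ω + Ω * x / c) := Pool.Agent.H462.N9.Phi.wu_pt h3 hC hc h3c hct hfin hx
  have p2 : Pool.Agent.H462.N9.Phi.Pt v L (w9 Ω - Ω * x / c) := by
    have h4 := Pool.Agent.H462.N9.Phi.wu_pt h3 hC hc h3c hct hfin (x := -x) hx.neg_left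
    have e : w9 Ω - Ω * x / c = w9 Ω + Ω * ((-x : eis) : ℂ) / c := by
      push_cast
      ring
    rw [e]
    exact h4
  have q1 := ratio h3 hC p1
  have q2 := ratio h3 hC p2
  have hp0 : ff L Ω (w9 Ω) ≠ 0 := w9_ne h3 hC
  have e1 : ∑ j : Fin 3, Ph L Ω f9 (e9 j) (Ek L Ω j) c x =
      3 * (ff L Ω (w9 Ω + Ω * x / c) + ff L Ω (w9 Ω - Ω * x / c)) := by
    rw [Finset.sum_congr rfl fun j _ => Ph_of_notMem hx', Finset.sum_add_distrib, HH_tot hC,
      Dd_tot hC hc h3c hx', Fin.sum_univ_three]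
    unfold Ek kp
    rw [if_pos rfl, if_neg (by decide), if_neg (by decide)]
    ring
  have e2 : (∑ j : Fin 3, Ph L Ω f9 (e9 j) (Ek L Ω j) c x) / kp L Ω + 1 =
      ((1 + ff L Ω (w9 Ω + Ω * x / c) / ff L Ω (w9 Ω)) +
        (1 + ff L Ω (w9 Ω - Ω * x / c) / ff L Ω (w9 Ω))) / 2 := by
    rw [e1]
    unfold kp
    field_simp
    ring
  rw [e2, map_div₀, v_two h3, div_one]
  exact v.map_add_lt q1 q2

end val

end Pool.Agent.H462.N9.Tot
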